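import Pool.Agent.H916_LN2.Block2

/-! # Nonvanishing of the average of a product of leading minors -/

set_option autoImplicit false

namespace Pool.Agent.H916_LN2

open Finset Matrix

open Pool.Agent.R837.FD (LU)

set_option linter.unusedSectionVars false

/-- The data of a torus acting on a space over the prime field, diagonalised over `K`. -/
structure Tor (h : ℕ) (K W₁ Γ₁ : Type) [Field K] [AddCommGroup W₁] [Module (ZMod 2) W₁]
    [Fintype W₁] [Group Γ₁] where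
  φ : ZMod 2 →+* K
  X : Fin 2 × Fin h → W₁ → K
  ψ : Finset (Fin 2 × Fin h) → W₁ → K
  ep : EP X ψ
  B : W₁ → (W₁ →ₗ[ZMod 2] ZMod 2)
  hB : ∀ a b, φ (B a b) = ∑ q, X q a * X q b
  σ : Γ₁ →* (W₁ →ₗ[ZMod 2] W₁)
  σ_inj : Function.Injective σ
  θ : Γ₁ → Fin 2 × Fin h → K
  hσ : ∀ t q a, X q (σ t a) = θ t q * X q a
  hθ : ∀ t j, θ t (0, j) * θ t (1, j) = 1
  rank : Module.finrank (ZMod 2) W₁ = 2 * h

variable {n h r : ℕ} {K W₁ Γ₁ : Type} [Field K] [CharP K 2] [AddCommGroup W₁]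
  [Module (ZMod 2) W₁] [Fintype W₁] [Group Γ₁] [Fintype Γ₁]

/-- The space on which the group acts. -/
abbrev WW (W₁ : Type) (r : ℕ) : Type := W₁ × (Fin r → ZMod 2)

/-- The action on the space. -/
noncomputable def Tact (T : Tor h K W₁ Γ₁) : Γ₁ × LUg r →* (WW W₁ r →ₗ[ZMod 2] WW W₁ r) where
  toFun γ := (T.σ γ.1).prodMap (Matrix.toLin' ((γ.2 : GL (Fin r) (ZMod 2)) :
    Matrix (Fin r) (Fin r) (ZMod 2)))
  map_one' := by
    ext <;> simp
  map_mul' := by
    intro a b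
    ext <;> simp

theorem Tact_apply (T : Tor h K W₁ Γ₁) (γ : Γ₁ × LUg r) (y : WW W₁ r) :
    Tact T γ y = (T.σ γ.1 y.1, ((γ.2 : GL (Fin r) (ZMod 2)) :
    Matrix (Fin r) (Fin r) (ZMod 2)) *ᵥ y.2) := rfl

theorem Tact_inj (T : Tor h K W₁ Γ₁) : Function.Injective (Tact (r := r) T) := by
  intro a b hab
  have h1 : T.σ a.1 = T.σ b.1 := by
    ext w
    have := congrArg (fun f => (f (w, 0)).1) hab
    exact this
  have h2 : Matrix.toLin' ((a.2 : GL (Fin r) (ZMod 2)) : Matrix (Fin r) (Fin r) (ZMod 2)) =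
      Matrix.toLin' ((b.2 : GL (Fin r) (ZMod 2)) : Matrix (Fin r) (Fin r) (ZMod 2)) := by
    refine LinearMap.ext fun w => ?_
    have := congrArg (fun f => (f (0, w)).2) hab
    exact this
  refine Prod.ext (T.σ_inj h1) ?_
  apply Subtype.ext
  apply Units.ext
  exact Matrix.toLin'.injective h2

/-- The pairing. -/
noncomputable def Bf (T : Tor h K W₁ Γ₁) (y' : WW W₁ r) : WW W₁ r →ₗ[ZMod 2] ZMod 2 :=
  (T.B y'.1).coprod (∑ l, y'.2 l • LinearMap.proj l)

/-- The coordinates. -/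
def XX (T : Tor h K W₁ Γ₁) (s : (Fin 2 × Fin h) ⊕ Fin r) (y : WW W₁ r) : K :=
  Sum.elim (fun q => T.X q y.1) (fun l => T.φ (y.2 l)) s

/-- The weights. -/
noncomputable def psi (T : Tor h K W₁ Γ₁) (S : Finset ((Fin 2 × Fin h) ⊕ Fin r))
    (y : WW W₁ r) : K :=
  T.ψ S.toLeft y.1 * (if ∀ l, l ∉ S.toRight → y.2 l = 0 then (1 : K) else 0)

theorem EP_XX (T : Tor h K W₁ Γ₁) : EP (XX (r := r) T) (psi T) := by
  have h2 : EP (fun (l : Fin r) (y : Fin r → ZMod 2) => T.φ (y l))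
      (fun (S : Finset (Fin r)) (y : Fin r → ZMod 2) =>
        (if ∀ l, l ∉ S → y l = 0 then (1 : K) else 0)) := by
    intro m S hm
    have := EV T.φ 0 m S hm
    convert this using 4
    exact Iff.rfl
  exact EP_prod T.ep h2

theorem Bf_eq (T : Tor h K W₁ Γ₁) (γ : Γ₁ × LUg r) (y' y : WW W₁ r) :
    T.φ (Bf T y' (Tact T γ y)) = ∑ s, ∑ s', XX T s y' *
      (fromBlocks (diagonal (T.θ γ.1)) 0 0 ((((γ.2 : GL (Fin r) (ZMod 2)) :
        Matrix (Fin r) (Fin r) (ZMod 2))).map T.φ)) s s' * XX T s' y := by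
  rw [Tact_apply, Bf, LinearMap.coprod_apply, map_add, T.hB]
  simp only [T.hσ]
  rw [Fintype.sum_sum_type]
  simp only [Fintype.sum_sum_type]
  congr 1
  · refine Finset.sum_congr rfl fun q _ => ?_
    simp only [XX, Sum.elim_inl, Sum.elim_inr, fromBlocks_apply₁₁, fromBlocks_apply₁₂,
      Matrix.zero_apply, mul_zero, zero_mul, Finset.sum_const_zero, add_zero]
    rw [Finset.sum_eq_single q]
    · rw [diagonal_apply_eq]
      ring
    · intro q' _ hq'
      rw [diagonal_apply_ne _ (Ne.symm hq')]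
      ring
    · intro h
      exact absurd (Finset.mem_univ _) h
  · simp only [XX, Sum.elim_inl, Sum.elim_inr, fromBlocks_apply₂₁, fromBlocks_apply₂₂,
      Matrix.zero_apply, mul_zero, zero_mul, Finset.sum_const_zero, zero_add, Matrix.map_apply]
    rw [LinearMap.sum_apply, map_sum]
    refine Finset.sum_congr rfl fun l _ => ?_
    rw [LinearMap.smul_apply, LinearMap.proj_apply, smul_eq_mul, map_mul, Matrix.mulVec,
      dotProduct, map_sum, Finset.mul_sum]
    refine Finset.sum_congr rfl fun l' _ => ?_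
    rw [map_mul]
    ring

/-- The homomorphism to the matrices. -/
noncomputable def fmat (T : Tor h K W₁ Γ₁) (bs : Module.Basis (Fin n) (ZMod 2) (WW W₁ r)) :
    Γ₁ × LUg r →* Matrix (Fin n) (Fin n) (ZMod 2) :=
  ((LinearMap.toMatrixAlgEquiv bs).toMulEquiv.toMonoidHom).comp (Tact T)

theorem fmat_inj (T : Tor h K W₁ Γ₁) (bs : Module.Basis (Fin n) (ZMod 2) (WW W₁ r)) :
    Function.Injective (fmat T bs) := by
  intro a b hab
  exact Tact_inj T ((LinearMap.toMatrixAlgEquiv bs).injective hab)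

/-- The matrix of columns. -/
noncomputable def Qc (bs : Module.Basis (Fin n) (ZMod 2) (WW W₁ r)) (y : Fin n → WW W₁ r) :
    Matrix (Fin n) (Fin n) (ZMod 2) := of fun i b => bs.repr (y b) i

/-- The matrix of rows. -/
noncomputable def Qr (T : Tor h K W₁ Γ₁) (bs : Module.Basis (Fin n) (ZMod 2) (WW W₁ r))
    (y' : Fin n → WW W₁ r) :
    Matrix (Fin n) (Fin n) (ZMod 2) := of fun a i => Bf T (y' a) (bs i)

theorem Q_mul (T : Tor h K W₁ Γ₁) (bs : Module.Basis (Fin n) (ZMod 2) (WW W₁ r))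
    (γ : Γ₁ × LUg r) (y' y : Fin n → WW W₁ r) (a b : Fin n) :
    (Qr T bs y' * fmat T bs γ * Qc bs y) a b = Bf T (y' a) (Tact T γ (y b)) := by
  rw [Matrix.mul_assoc, Matrix.mul_apply]
  have h1 : ∀ i, (fmat T bs γ * Qc bs y) i b = bs.repr (Tact T γ (y b)) i := by
    intro i
    have h2 := LinearMap.toMatrix_mulVec_repr bs bs (Tact T γ) (y b)
    have h3 := congrFun h2 i
    rw [← h3]
    rfl
  simp only [h1]
  have h4 : Tact T γ (y b) = ∑ i, bs.repr (Tact T γ (y b)) i • bs i := (bs.sum_repr _).symm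
  conv_rhs => rw [h4, map_sum]
  refine Finset.sum_congr rfl fun i _ => ?_
  rw [map_smul, smul_eq_mul, mul_comm]
  rfl

/-- The rearranged rows. -/
def kap' (κ : (Fin 2 × Fin h) ⊕ Fin r ≃ Fin n) : (Fin 2 × Fin h) ⊕ Fin r ≃ Fin n :=
  (Equiv.sumCongr (Equiv.refl _) Fin.revPerm).symm.trans κ

theorem Dmat_eq (κ : (Fin 2 × Fin h) ⊕ Fin r ≃ Fin n) (θ : Fin 2 × Fin h → K)
    (x : Matrix (Fin r) (Fin r) K) :
    Dmat κ θ x = (fromBlocks (diagonal θ) 0 0 x).submatrix (kap' κ).symm κ.symm := rfl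

theorem Q_map (T : Tor h K W₁ Γ₁) (bs : Module.Basis (Fin n) (ZMod 2) (WW W₁ r))
    (κ : (Fin 2 × Fin h) ⊕ Fin r ≃ Fin n)
    (γ : Γ₁ × LUg r) (y' y : Fin n → WW W₁ r) :
    (Qr T bs y' * fmat T bs γ * Qc bs y).map T.φ =
      (of fun a v => XX T ((kap' κ).symm v) (y' a)) *
      Dmat κ (T.θ γ.1) ((((γ.2 : GL (Fin r) (ZMod 2)) :
        Matrix (Fin r) (Fin r) (ZMod 2))).map T.φ) *
      (of fun v b => XX T (κ.symm v) (y b)) := by
  have h1 : (of fun a v => XX T ((kap' κ).symm v) (y' a)) =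
      (of fun a s => XX T s (y' a) : Matrix (Fin n) ((Fin 2 × Fin h) ⊕ Fin r) K).submatrix id
        (kap' κ).symm := rfl
  have h2 : (of fun v b => XX T (κ.symm v) (y b)) =
      (of fun s b => XX T s (y b) : Matrix ((Fin 2 × Fin h) ⊕ Fin r) (Fin n) K).submatrix
        κ.symm id := rfl
  rw [h1, h2, Dmat_eq, Matrix.submatrix_mul_equiv, Matrix.submatrix_mul_equiv,
    Matrix.submatrix_id_id]
  ext a b
  rw [Matrix.map_apply, Q_mul, Bf_eq, Matrix.mul_apply]
  simp only [Matrix.mul_apply, Finset.sum_mul]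
  rw [Finset.sum_comm]
  rfl

/-- The product of the leading minors. -/
def fI (I : Finset ℕ) (A : Matrix (Fin n) (Fin n) (ZMod 2)) : ZMod 2 := ∏ k ∈ I, lead k A

theorem stepB_key (T : Tor h K W₁ Γ₁) (hodd : Odd (Fintype.card Γ₁)) [Fintype (LUg r)]
    (bs : Module.Basis (Fin n) (ZMod 2) (WW W₁ r)) (κ : (Fin 2 × Fin h) ⊕ Fin r ≃ Fin n)
    (hκ : StrictMono fun l => κ (Sum.inr l)) (I : Finset ℕ) (hIn : ∀ k ∈ I, k ≤ n)
    (hk : ∀ j, ∀ k ∈ I, (κ (Sum.inl (0, j))).val < k ↔ (κ (Sum.inl (1, j))).val < k)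
    (hI : ∀ l, (κ (Sum.inr l)).val = 0 ∨ (κ (Sum.inr l)).val ∈ I) :
    ∃ g g' : Matrix (Fin n) (Fin n) (ZMod 2),
      ∑ γ : Γ₁ × LUg r, fI I (g' * fmat T bs γ * g) ≠ 0 := by
  classical
  by_contra hcon
  push Not at hcon
  set ht : {k // k ∈ I} → ℕ := fun k => k.1 with hht
  have hinj : Function.Injective ht := Subtype.val_injective
  have hle : ∀ i, ht i ≤ n := fun i => hIn i.1 i.2
  -- extraction on the columns
  have hcol := fun H => extract_EP (K := K) ht hinj hle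
    (fun (_ : Fin n) (v : Fin n) (y : WW W₁ r) => XX T (κ.symm v) y)
    (fun (_ : Fin n) (S : Finset (Fin n)) (y : WW W₁ r) => psi T (S.map κ.symm.toEmbedding) y)
    (fun _ => EP_equiv (EP_XX T) κ) H
  have hrow := fun H => extract_EP (K := K) ht hinj hle
    (fun (_ : Fin n) (v : Fin n) (y : WW W₁ r) => XX T ((kap' κ).symm v) y)
    (fun (_ : Fin n) (S : Finset (Fin n)) (y : WW W₁ r) =>
      psi T (S.map (kap' κ).symm.toEmbedding) y)
    (fun _ => EP_equiv (EP_XX T) (kap' κ)) H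
  set wc : (Fin n → WW W₁ r) → K :=
    fun y => ∏ b, psi T ((Sb ht b).map κ.symm.toEmbedding) (y b) with hwc
  set wr : (Fin n → WW W₁ r) → K :=
    fun y => ∏ b, psi T ((Sb ht b).map (kap' κ).symm.toEmbedding) (y b) with hwr
  set D : Γ₁ × LUg r → Matrix (Fin n) (Fin n) K := fun γ =>
    Dmat κ (T.θ γ.1) ((((γ.2 : GL (Fin r) (ZMod 2)) :
        Matrix (Fin r) (Fin r) (ZMod 2))).map T.φ) with hD
  have hprod : ∀ (A : Matrix (Fin n) (Fin n) K), ∏ i, lead (ht i) A = ∏ k ∈ I, lead k A :=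
    fun A => Finset.prod_coe_sort I (fun k => lead k A)
  -- the vanishing
  have h0 : ∀ y' y : Fin n → WW W₁ r, ∑ γ : Γ₁ × LUg r, ∏ i, lead (ht i)
      ((of fun a v => XX T ((kap' κ).symm v) (y' a)) * D γ *
      (of fun v b => XX T (κ.symm v) (y b))) = 0 := by
    intro y' y
    have h1 := congrArg T.φ (hcon (Qc bs y) (Qr T bs y'))
    rw [map_sum, map_zero] at h1
    rw [← h1]
    refine Finset.sum_congr rfl fun γ _ => ?_
    rw [fI, map_prod, hprod]
    refine Finset.prod_congr rfl fun k _ => ?_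
    rw [← lead_map, Q_map T bs κ]
  have h1 : ∑ y' : Fin n → WW W₁ r, wr y' * ∑ y : Fin n → WW W₁ r, wc y *
      ∑ γ : Γ₁ × LUg r, ∏ i, lead (ht i)
      ((of fun a v => XX T ((kap' κ).symm v) (y' a)) * D γ *
      (of fun v b => XX T (κ.symm v) (y b))) = 0 := by
    simp only [h0, mul_zero, Finset.sum_const_zero]
  have h2 : ∀ y' : Fin n → WW W₁ r, ∑ y : Fin n → WW W₁ r, wc y *
      ∑ γ : Γ₁ × LUg r, ∏ i, lead (ht i)
      ((of fun a v => XX T ((kap' κ).symm v) (y' a)) * D γ *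
      (of fun v b => XX T (κ.symm v) (y b))) =
      ∑ γ : Γ₁ × LUg r, ∏ i, lead (ht i)
        ((of fun a v => XX T ((kap' κ).symm v) (y' a)) * D γ) := by
    intro y'
    simp only [Finset.mul_sum]
    rw [Finset.sum_comm]
    refine Finset.sum_congr rfl fun γ _ => ?_
    exact hcol _
  simp only [h2] at h1
  have h3 : ∑ y' : Fin n → WW W₁ r, wr y' * ∑ γ : Γ₁ × LUg r, ∏ i, lead (ht i)
        ((of fun a v => XX T ((kap' κ).symm v) (y' a)) * D γ) =
      ∑ γ : Γ₁ × LUg r, ∏ i, lead (ht i) (D γ) := by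
    simp only [Finset.mul_sum]
    rw [Finset.sum_comm]
    refine Finset.sum_congr rfl fun γ _ => ?_
    have h4 : ∀ A : Matrix (Fin n) (Fin n) K, ∏ i, lead (ht i) A = ∏ i, lead (ht i) Aᵀ :=
      fun A => Finset.prod_congr rfl fun i _ => (lead_transpose _ _).symm
    rw [h4 (D γ), ← hrow]
    refine Finset.sum_congr rfl fun y' _ => ?_
    rw [h4]
    congr 1
    refine Finset.prod_congr rfl fun i _ => ?_
    rw [Matrix.transpose_mul]
    rfl
  rw [h3] at h1
  have h5 : ∀ γ : Γ₁ × LUg r, ∏ i, lead (ht i) (D γ) = T.φ (∏ a ∈ Finset.Ico 1 r,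
      lead a ((((γ.2 : GL (Fin r) (ZMod 2)) : Matrix (Fin r) (Fin r) (ZMod 2))).submatrix
        Fin.rev id)) := by
    intro γ
    rw [← prod_lead κ hκ I hI γ.2.2, hprod, map_prod]
    refine Finset.prod_congr rfl fun k hkI => ?_
    rw [hD, lead_Dmat κ hκ _ _ k (fun j => hk j k hkI) (T.hθ γ.1), ← lead_map]
    rfl
  simp only [h5] at h1
  rw [← map_sum, Fintype.sum_prod_type] at h1
  simp only [tri_sum, Finset.sum_const, Finset.card_univ, nsmul_eq_mul, mul_one] at h1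
  have h6 : ((Fintype.card Γ₁ : ℕ) : ZMod 2) = 1 := by
    obtain ⟨k, hk⟩ := hodd
    rw [hk]
    push_cast
    have : (2 : ZMod 2) = 0 := by decide
    rw [this, zero_mul, zero_add]
  rw [h6, map_one] at h1
  exact one_ne_zero h1

end Pool.Agent.H916_LN2
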