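import Pool.Agent.H916_LN2.ModTwo
import Pool.Agent.Helper430.LF1

/-! # Elements without a vanishing trace on modules in odd characteristic -/

set_option autoImplicit false

namespace Pool.Agent.H916_LN2

open Finset Matrix

set_option linter.unusedSectionVars false

variable {n : ℕ}

/-- Linear actions give homomorphisms to the matrix group. -/
noncomputable def toL {W Γ : Type*} [AddCommGroup W] [Module (ZMod 2) W] [Group Γ]
    (bs : Module.Basis (Fin n) (ZMod 2) W) (F : Γ →* (W →ₗ[ZMod 2] W)) : Γ →* L2 n :=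
  (((LinearMap.toMatrixAlgEquiv bs).toMulEquiv.toMonoidHom).comp F).toHomUnits

theorem toL_injective {W Γ : Type*} [AddCommGroup W] [Module (ZMod 2) W] [Group Γ]
    (bs : Module.Basis (Fin n) (ZMod 2) W) {F : Γ →* (W →ₗ[ZMod 2] W)}
    (hF : Function.Injective F) : Function.Injective (toL bs F) := by
  intro a b hab
  have h1 := congrArg (fun x : L2 n => (x : M2 n)) hab
  exact hF ((LinearMap.toMatrixAlgEquiv bs).injective h1)

/-- Multiplication in a field. -/
noncomputable def mulF (K : Type*) [Field K] [Algebra (ZMod 2) K] : Kˣ →* (K →ₗ[ZMod 2] K) where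
  toFun t := LinearMap.mulLeft (ZMod 2) (t : K)
  map_one' := by
    ext z
    simp
  map_mul' := by
    intro a b
    ext z
    simp

theorem mulF_injective (K : Type*) [Field K] [Algebra (ZMod 2) K] :
    Function.Injective (mulF K) := by
  intro a b hab
  have h1 := congrArg (fun f => f 1) hab
  simp only [mulF, MonoidHom.coe_mk, OneHom.coe_mk, LinearMap.mulLeft_apply, mul_one] at h1
  exact Units.ext h1

theorem exists_gen (m : ℕ) (hm : m ≠ 0) :
    ∃ t : (GaloisField 2 m)ˣ, orderOf t = 2 ^ m - 1 := by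
  classical
  have : Fact (Nat.Prime 2) := ⟨Nat.prime_two⟩
  have : Fintype (GaloisField 2 m) := Fintype.ofFinite _
  obtain ⟨t, ht⟩ := IsCyclic.exists_generator (α := (GaloisField 2 m)ˣ)
  refine ⟨t, ?_⟩
  rw [orderOf_eq_card_of_forall_mem_zpowers ht, Nat.card_eq_fintype_card, Fintype.card_units,
    ← Nat.card_eq_fintype_card, GaloisField.card 2 m hm]

/-- A Singer cycle. -/
theorem exists_singer (hn : n ≠ 0) : ∃ x : L2 n, orderOf x = 2 ^ n - 1 := by
  have : Fact (Nat.Prime 2) := ⟨Nat.prime_two⟩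
  obtain ⟨t, ht⟩ := exists_gen n hn
  let bs : Module.Basis (Fin n) (ZMod 2) (GaloisField 2 n) :=
    Module.finBasisOfFinrankEq _ _ (GaloisField.finrank 2 hn)
  refine ⟨toL bs (mulF _) t, ?_⟩
  rw [orderOf_injective _ (toL_injective bs (mulF_injective _)), ht]

section affine

variable {K : Type} [Field K] [Algebra (ZMod 2) K]

/-- The affine maps. -/
noncomputable def Taff (t : K) (c : K) : (K × ZMod 2) →ₗ[ZMod 2] (K × ZMod 2) :=
  LinearMap.prod ((LinearMap.mulLeft (ZMod 2) t).comp (LinearMap.fst _ _ _) +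
    (LinearMap.toSpanSingleton (ZMod 2) K c).comp (LinearMap.snd _ _ _)) (LinearMap.snd _ _ _)

theorem Taff_apply (t c z : K) (ε : ZMod 2) : Taff t c (z, ε) = (t * z + ε • c, ε) := rfl

theorem Taff_mul (t c t' c' : K) : Taff t c * Taff t' c' = Taff (t * t') (t * c' + c) := by
  refine LinearMap.ext fun x => ?_
  obtain ⟨z, ε⟩ := x
  rw [Module.End.mul_apply, Taff_apply, Taff_apply, Taff_apply]
  refine Prod.ext ?_ rfl
  simp only
  rw [mul_add, smul_add, mul_smul_comm]
  ring

theorem Taff_one : Taff (1 : K) 0 = 1 := by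
  refine LinearMap.ext fun x => ?_
  obtain ⟨z, ε⟩ := x
  rw [Taff_apply, Module.End.one_apply, one_mul, smul_zero, add_zero]

/-- The affine maps as units. -/
noncomputable def Tu (t : Kˣ) (c : K) : ((K × ZMod 2) →ₗ[ZMod 2] (K × ZMod 2))ˣ where
  val := Taff t c
  inv := Taff ((t⁻¹ : Kˣ) : K) (-(((t⁻¹ : Kˣ) : K) * c))
  val_inv := by
    rw [Taff_mul, ← Units.val_mul, mul_inv_cancel, Units.val_one, mul_neg, ← mul_assoc,
      ← Units.val_mul, mul_inv_cancel, Units.val_one, one_mul, neg_add_cancel, Taff_one]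
  inv_val := by
    rw [Taff_mul, ← Units.val_mul, inv_mul_cancel, Units.val_one, add_neg_cancel, Taff_one]

theorem Tu_mul (t t' : Kˣ) (c c' : K) : Tu t c * Tu t' c' = Tu (t * t') (t * c' + c) := by
  apply Units.ext
  exact Taff_mul _ _ _ _

theorem Tu_one : Tu (1 : Kˣ) (0 : K) = 1 := by
  apply Units.ext
  exact Taff_one

theorem Tu_injective {t t' : Kˣ} {c c' : K} (h : Tu t c = Tu t' c') : t = t' ∧ c = c' := by
  have h1 := congrArg (fun x : ((K × ZMod 2) →ₗ[ZMod 2] (K × ZMod 2))ˣ =>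
    ((x : (K × ZMod 2) →ₗ[ZMod 2] (K × ZMod 2)))) h
  have h2 := congrArg (fun f : (K × ZMod 2) →ₗ[ZMod 2] (K × ZMod 2) => (f (1, 0)).1) h1
  have h3 := congrArg (fun f : (K × ZMod 2) →ₗ[ZMod 2] (K × ZMod 2) => (f (0, 1)).1) h1
  simp only [Tu, Taff_apply, mul_one, zero_smul, add_zero, mul_zero, one_smul, zero_add] at h2 h3
  exact ⟨Units.ext h2, h3⟩

end affine

/-- In odd characteristic one of two specific elements does not have a vanishing trace. -/
theorem modOdd (hn : 3 ≤ n) (p : ℕ) [hp : Fact p.Prime] (hp2 : p ≠ 2) {V : Type*}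
    [AddCommGroup V] [Module (ZMod p) V] [Nontrivial V] (ρ : L2 n →* (V →ₗ[ZMod p] V)) :
    ∃ x : L2 n, (orderOf x = 2 ^ n - 1 ∨ orderOf x = 2 ^ (n - 1) - 1) ∧
      ∃ v : V, ∑ i ∈ Finset.range (orderOf x), ρ (x ^ i) v ≠ 0 := by
  classical
  by_contra hcon
  push Not at hcon
  have : Fact (Nat.Prime 2) := ⟨Nat.prime_two⟩
  have hn1 : n - 1 ≠ 0 := by omega
  let K := GaloisField 2 (n - 1)
  have : Fintype K := Fintype.ofFinite K
  have hrank : Module.finrank (ZMod 2) (K × ZMod 2) = n := by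
    rw [Module.finrank_prod, GaloisField.finrank 2 hn1, Module.finrank_self]
    omega
  let bs : Module.Basis (Fin n) (ZMod 2) (K × ZMod 2) := Module.finBasisOfFinrankEq _ _ hrank
  let E : ((K × ZMod 2) →ₗ[ZMod 2] (K × ZMod 2))ˣ →* L2 n :=
    Units.map ((LinearMap.toMatrixAlgEquiv bs).toMulEquiv.toMonoidHom)
  have hE : Function.Injective E :=
    Units.map_injective (LinearMap.toMatrixAlgEquiv bs).injective
  have hcardK : Fintype.card K = 2 ^ (n - 1) := by
    rw [← Nat.card_eq_fintype_card, GaloisField.card 2 _ hn1]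
  let Bh : Kˣ →* L2 n :=
    { toFun := fun t => E (Tu t 0)
      map_one' := by rw [Tu_one, map_one]
      map_mul' := by
        intro a b
        rw [← map_mul, Tu_mul, mul_zero, add_zero] }
  have hBh : Function.Injective Bh := by
    intro a b hab
    exact (Tu_injective (hE hab)).1
  -- the trace of the complement vanishes
  obtain ⟨t₀, ht₀⟩ := exists_gen (n - 1) hn1
  have hNB : ∑ t : Kˣ, ρ (Bh t) = 0 := by
    refine sum_group_zero (ρ.comp Bh) t₀ ?_
    refine LinearMap.ext fun x => ?_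
    have h1 := hcon (Bh t₀) (Or.inr (by rw [orderOf_injective Bh hBh, ht₀])) x
    rw [orderOf_injective Bh hBh] at h1
    rw [LinearMap.sum_apply, LinearMap.zero_apply, ← h1]
    refine Finset.sum_congr rfl fun i _ => ?_
    rw [MonoidHom.comp_apply, map_pow]
  have hEB : ∀ (t : Kˣ) (c : K), E (Tu 1 c) * E (Tu t 0) * E (Tu 1 (-c)) =
      E (Tu t ((1 - (t : K)) * c)) := by
    intro t c
    rw [← map_mul, ← map_mul, Tu_mul, Tu_mul, one_mul, mul_one, Units.val_one]
    congr 2
    ring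
  set sA : V →ₗ[ZMod p] V := ∑ c : K, ρ (E (Tu 1 c)) with hsA
  have hkey : ∑ c : K, ρ (E (Tu 1 c)) * (∑ t : Kˣ, ρ (Bh t)) * ρ (E (Tu 1 (-c))) =
      ((2 ^ (n - 1) : ℕ) : V →ₗ[ZMod p] V) + sA * ((∑ t : Kˣ, ρ (Bh t)) - 1) := by
    have h1 : ∀ c : K, ρ (E (Tu 1 c)) * (∑ t : Kˣ, ρ (Bh t)) * ρ (E (Tu 1 (-c))) =
        ∑ t : Kˣ, ρ (E (Tu t ((1 - (t : K)) * c))) := by
      intro c
      rw [Finset.mul_sum, Finset.sum_mul]
      refine Finset.sum_congr rfl fun t _ => ?_
      rw [← hEB, map_mul, map_mul]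
      rfl
    simp only [h1]
    rw [Finset.sum_comm]
    rw [← Finset.add_sum_erase _ _ (Finset.mem_univ (1 : Kˣ))]
    congr 1
    · have h2 : ∀ c : K, ρ (E (Tu (1 : Kˣ) ((1 - ((1 : Kˣ) : K)) * c))) = 1 := by
        intro c
        rw [Units.val_one, sub_self, zero_mul, Tu_one, map_one, map_one]
      simp only [h2]
      rw [Finset.sum_const, Finset.card_univ, hcardK, nsmul_eq_mul, mul_one]
    · have h3 : ∑ t : Kˣ, ρ (Bh t) = ρ (Bh 1) + ∑ t ∈ Finset.univ.erase (1 : Kˣ), ρ (Bh t) :=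
        (Finset.add_sum_erase _ _ (Finset.mem_univ (1 : Kˣ))).symm
      rw [h3, map_one, map_one, add_sub_cancel_left, Finset.mul_sum]
      refine Finset.sum_congr rfl fun t ht => ?_
      have ht1 : t ≠ 1 := (Finset.mem_erase.1 ht).1
      have hne : (1 - (t : K)) ≠ 0 := by
        intro h4
        exact ht1 (Units.ext (sub_eq_zero.1 h4).symm)
      have h4 : ∑ c : K, ρ (E (Tu t ((1 - (t : K)) * c))) = ∑ c : K, ρ (E (Tu t c)) :=
        Equiv.sum_comp (Equiv.mulLeft₀ (1 - (t : K)) hne) (fun c => ρ (E (Tu t c)))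
      rw [h4, hsA, Finset.sum_mul]
      refine Finset.sum_congr rfl fun c _ => ?_
      change _ = ρ (E (Tu 1 c)) * ρ (E (Tu t 0))
      rw [← map_mul, ← map_mul, Tu_mul, one_mul, mul_zero, zero_add]
  rw [hNB] at hkey
  simp only [mul_zero, zero_mul, Finset.sum_const_zero] at hkey
  have hsA2 : sA = ((2 ^ (n - 1) : ℕ) : V →ₗ[ZMod p] V) := by
    rw [zero_sub, mul_neg, mul_one] at hkey
    exact (sub_eq_zero.1 (by rw [sub_eq_add_neg]; exact hkey.symm)).symm
  have hpow : ((2 ^ (n - 1) : ℕ) : ZMod p) ≠ 0 := by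
    rw [Ne, ZMod.natCast_eq_zero_iff]
    intro h1
    exact hp2 ((Nat.prime_dvd_prime_iff_eq hp.out Nat.prime_two).1 (hp.out.dvd_of_dvd_pow h1))
  have htriv : ∀ c : K, ρ (E (Tu 1 c)) = 1 := by
    intro c
    have h1 : ρ (E (Tu 1 c)) * sA = sA := by
      rw [hsA, Finset.mul_sum]
      rw [← Equiv.sum_comp (Equiv.addRight c) (fun c' => ρ (E (Tu 1 c')))]
      refine Finset.sum_congr rfl fun c' _ => ?_
      rw [← map_mul, ← map_mul, Tu_mul, one_mul, Units.val_one, one_mul]
      rfl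
    rw [hsA2] at h1
    refine LinearMap.ext fun v => ?_
    have h2 := congrArg (fun f : V →ₗ[ZMod p] V => f v) h1
    simp only [Module.End.mul_apply] at h2
    have h3 : ∀ w : V, ((2 ^ (n - 1) : ℕ) : V →ₗ[ZMod p] V) w = ((2 ^ (n - 1) : ℕ) : ZMod p) • w := by
      intro w
      rw [Module.End.natCast_apply, Nat.cast_smul_eq_nsmul]
    rw [h3, map_smul] at h2
    rw [Module.End.one_apply]
    exact smul_right_injective V hpow h2
  have hker : (ρ.toHomUnits).ker = ⊤ := by
    have h1 : E (Tu 1 1) ∈ (ρ.toHomUnits).ker := by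
      rw [MonoidHom.mem_ker]
      apply Units.ext
      exact htriv 1
    refine H430.LF.GL_simple (by rw [Fintype.card_fin]; exact hn) _ _ h1 ?_
    intro h2
    rw [← map_one E] at h2
    have h3 := hE h2
    rw [← Tu_one] at h3
    exact one_ne_zero (Tu_injective h3).2
  have hall : ∀ g, ρ g = 1 := by
    intro g
    have h1 : g ∈ (ρ.toHomUnits).ker := by rw [hker]; trivial
    rw [MonoidHom.mem_ker] at h1
    exact congrArg Units.val h1
  obtain ⟨v, hv⟩ := exists_ne (0 : V)
  have hcast : ∀ m : ℕ, m • v = 0 → p ∣ m := by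
    intro m hm
    rw [← Nat.cast_smul_eq_nsmul (ZMod p)] at hm
    rcases smul_eq_zero.1 hm with h1 | h1
    · exact (ZMod.natCast_eq_zero_iff _ _).1 h1
    · exact absurd h1 hv
  have hd1 : p ∣ 2 ^ (n - 1) - 1 := by
    apply hcast
    have h1 := hcon (Bh t₀) (Or.inr (by rw [orderOf_injective Bh hBh, ht₀])) v
    simp only [hall, Module.End.one_apply, Finset.sum_const, Finset.card_range] at h1
    rw [orderOf_injective Bh hBh, ht₀] at h1
    exact h1
  have hd2 : p ∣ 2 ^ n - 1 := by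
    obtain ⟨x, hx⟩ := exists_singer (n := n) (by omega)
    apply hcast
    have h1 := hcon x (Or.inl hx) v
    simp only [hall, Module.End.one_apply, Finset.sum_const, Finset.card_range] at h1
    rw [hx] at h1
    exact h1
  have hd3 : p ∣ 1 := by
    have h1 : 2 ^ n - 1 = 2 * (2 ^ (n - 1) - 1) + 1 := by
      obtain ⟨m, rfl⟩ : ∃ m, n = m + 1 := ⟨n - 1, by omega⟩
      rw [Nat.add_sub_cancel, pow_succ]
      have : 1 ≤ 2 ^ m := Nat.one_le_two_pow
      omega
    rw [h1] at hd2
    exact (Nat.dvd_add_right (hd1.mul_left 2)).1 hd2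
  exact hp.out.one_lt.ne' (Nat.dvd_one.1 hd3)

end Pool.Agent.H916_LN2
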