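import Pool.Agent.H916_LN2.Cover
import Pool.Agent.H916_LN2.Odd

/-! # Covers of the linear groups over the field with two elements -/

set_option autoImplicit false

namespace Pool.Agent.H916_LN2

open Finset Matrix

universe u

/-- The explicit set of forbidden orders. -/
def Mset (n : ℕ) : Set ℕ :=
  {m | (∃ p : ℕ, p.Prime ∧ p ≠ 2 ∧ (m = p * (2 ^ n - 1) ∨ m = p * (2 ^ (n - 1) - 1))) ∨
    (∃ h r : ℕ, 1 ≤ h ∧ 2 * h + r = n ∧ m = 2 ^ (Nat.clog 2 r + 1) * (2 ^ h + 1)) ∨
    m = 2 ^ (Nat.clog 2 n + 1)}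

/-- Every cover of the linear group without elements of forbidden orders is trivial. -/
theorem cover_inj {n : ℕ} (hn : 3 ≤ n) {G : Type u} [Group G] [Finite G] (φ : G →* L2 n)
    (hφ : Function.Surjective φ) (hG : ∀ g : G, orderOf g ∉ Mset n) : Function.Injective φ := by
  refine reduction (L := L2 n) (Mset n) ?_ _ G φ hφ rfl hG
  intro p hp V _ _ _ _ ρ hirr
  by_cases hp2 : p = 2
  · subst hp2
    obtain ⟨h, r, x, hhr, hx, hv⟩ := modTwo ρ hirr
    refine ⟨x, ?_, hv⟩
    rw [hx]
    rcases Nat.eq_zero_or_pos h with hh | hh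
    · subst hh
      right; right
      rw [if_pos rfl, one_mul]
      have : r = n := by omega
      rw [this, pow_succ]
      ring
    · right; left
      refine ⟨h, r, hh, hhr, ?_⟩
      rw [if_neg (by omega), pow_succ]
      ring
  · have : Fact p.Prime := ⟨hp⟩
    obtain ⟨x, hx, hv⟩ := modOdd hn p hp2 ρ
    refine ⟨x, ?_, hv⟩
    left
    refine ⟨p, hp, hp2, ?_⟩
    rcases hx with hx | hx
    · left; rw [hx]
    · right; rw [hx]

end Pool.Agent.H916_LN2
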