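import Pool.Agent.H916_LN2.Filt
import Pool.Agent.H916_LN2.Main1

/-! # The forbidden orders do not occur in the linear group -/

set_option autoImplicit false

namespace Pool.Agent.H916_LN2

open Finset Module Matrix

variable {n : ℕ}

/-- The order of an element of the linear group. -/
theorem order_le (hn : 1 ≤ n) (g : L2 n) : orderOf g ≤ 2 ^ n - 1 := by
  classical
  set A : M2 n := (g : M2 n) with hA
  set χ : Polynomial (ZMod 2) := A.charpoly with hχ
  have hmonic : χ.Monic := A.charpoly_monic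
  have hdeg : χ.natDegree = n := by
    rw [hχ, Matrix.charpoly_natDegree_eq_dim, Fintype.card_fin]
  have hrem : ∀ k : ℕ, A ^ k = Polynomial.aeval A ((Polynomial.X : Polynomial (ZMod 2)) ^ k %ₘ χ) := by
    intro k
    have h1 := Polynomial.modByMonic_add_div ((Polynomial.X : Polynomial (ZMod 2)) ^ k) χ
    have h2 := congrArg (Polynomial.aeval A) h1
    rw [map_add, map_mul, hχ, Matrix.aeval_self_charpoly, zero_mul, add_zero, map_pow,
      Polynomial.aeval_X] at h2
    rw [hχ]
    exact h2.symm
  let c : Fin (orderOf g) → {v : Fin n → ZMod 2 // v ≠ 0} := fun k =>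
    ⟨fun i => ((Polynomial.X : Polynomial (ZMod 2)) ^ k.val %ₘ χ).coeff i.val, by
      intro h0
      have h1 : ((Polynomial.X : Polynomial (ZMod 2)) ^ k.val %ₘ χ) = 0 := by
        ext i
        rw [Polynomial.coeff_zero]
        rcases Nat.lt_or_ge i n with h2 | h2
        · exact congrFun h0 ⟨i, h2⟩
        · refine Polynomial.coeff_eq_zero_of_degree_lt ?_
          have h3 := Polynomial.degree_modByMonic_lt ((Polynomial.X : Polynomial (ZMod 2)) ^ k.val)
            hmonic
          refine lt_of_lt_of_le h3 ?_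
          rw [Polynomial.degree_eq_natDegree hmonic.ne_zero, hdeg]
          exact_mod_cast h2
      have h2 := hrem k.val
      rw [h1, map_zero] at h2
      have h3 : ((g ^ k.val : L2 n) : M2 n) = 0 := by
        rw [Units.val_pow_eq_pow_val]
        exact h2
      have h4 := det_eq_one (g ^ k.val)
      rw [h3] at h4
      have : Nonempty (Fin n) := ⟨⟨0, hn⟩⟩
      rw [Matrix.det_zero] at h4
      exact zero_ne_one h4⟩
  have hc : Function.Injective c := by
    intro k l hkl
    have h0 : ∀ i : Fin n, ((Polynomial.X : Polynomial (ZMod 2)) ^ k.val %ₘ χ).coeff i.val =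
        ((Polynomial.X : Polynomial (ZMod 2)) ^ l.val %ₘ χ).coeff i.val := by
      intro i
      exact congrFun (congrArg Subtype.val hkl) i
    have h1 : ((Polynomial.X : Polynomial (ZMod 2)) ^ k.val %ₘ χ) =
        ((Polynomial.X : Polynomial (ZMod 2)) ^ l.val %ₘ χ) := by
      ext i
      rcases Nat.lt_or_ge i n with h2 | h2
      · exact h0 ⟨i, h2⟩
      · have h3 : ∀ m : ℕ, ((Polynomial.X : Polynomial (ZMod 2)) ^ m %ₘ χ).coeff i = 0 := by
          intro m
          refine Polynomial.coeff_eq_zero_of_degree_lt ?_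
          have h3 := Polynomial.degree_modByMonic_lt ((Polynomial.X : Polynomial (ZMod 2)) ^ m)
            hmonic
          refine lt_of_lt_of_le h3 ?_
          rw [Polynomial.degree_eq_natDegree hmonic.ne_zero, hdeg]
          exact_mod_cast h2
        rw [h3, h3]
    have h2 : A ^ k.val = A ^ l.val := by rw [hrem, hrem, h1]
    have h3 : g ^ k.val = g ^ l.val := by
      apply Units.ext
      rw [Units.val_pow_eq_pow_val, Units.val_pow_eq_pow_val]
      exact h2
    have h4 := pow_injOn_Iio_orderOf (x := g) k.2 l.2 h3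
    exact Fin.ext h4
  have h1 := Fintype.card_le_of_injective c hc
  rw [Fintype.card_fin] at h1
  refine h1.trans (le_of_eq ?_)
  have h5 := Fintype.card_subtype_compl (fun v : Fin n → ZMod 2 => v = 0)
  rw [Fintype.card_subtype_eq, Fintype.card_fun, ZMod.card, Fintype.card_fin] at h5
  exact h5

/-- The order of a unipotent element. -/
theorem unip_le {V : Type*} [AddCommGroup V] [Module (ZMod 2) V] [Finite V] {s : ℕ}
    (u : V →ₗ[ZMod 2] V) (hu : u ^ (2 ^ s) = 1) :
    u ^ (2 ^ (Nat.clog 2 (finrank (ZMod 2) V))) = 1 := by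
  set N : V →ₗ[ZMod 2] V := u - 1 with hN
  have hchar : ∀ B : V →ₗ[ZMod 2] V, B + B = 0 := by
    intro B
    refine LinearMap.ext fun v => ?_
    have h2 : (2 : ZMod 2) = 0 := by decide
    rw [LinearMap.add_apply, ← two_smul (ZMod 2), h2, zero_smul, LinearMap.zero_apply]
  have hpow : ∀ c : ℕ, u ^ (2 ^ c) = 1 + N ^ (2 ^ c) := by
    intro c
    induction c with
    | zero => rw [pow_zero, pow_one, pow_one, hN]; abel
    | succ c ih =>
      rw [pow_succ, pow_mul, ih, sq, mul_add, add_mul, add_mul, one_mul, one_mul, mul_one]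
      calc 1 + N ^ (2 ^ c) + (N ^ (2 ^ c) + N ^ (2 ^ c) * N ^ (2 ^ c)) =
        1 + (N ^ (2 ^ c) + N ^ (2 ^ c)) + N ^ (2 ^ c) * N ^ (2 ^ c) := by abel
        _ = _ := by rw [hchar, add_zero, ← pow_two, ← pow_mul]
  have hNs : N ^ (2 ^ s) = 0 := by
    have h1 := hpow s
    rw [hu] at h1
    exact (left_eq_add.1 h1)
  have h1 := filt N hNs ⊤ (fun _ _ => trivial) (t := 1) one_pos (fun _ => one_dvd _)
    (m := 2 ^ (Nat.clog 2 (finrank (ZMod 2) V))) (by
      rw [one_mul, finrank_top]
      exact Nat.le_pow_clog (by norm_num) _)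
  rw [hpow]
  have h2 : N ^ (2 ^ (Nat.clog 2 (finrank (ZMod 2) V))) = 0 :=
    LinearMap.ext fun v => h1 (Submodule.mem_top (x := v))
  rw [h2, add_zero]

theorem exists_pow_order (g : L2 n) {a : ℕ} (h : a ∣ orderOf g) :
    orderOf (g ^ (orderOf g / a)) = a :=
  orderOf_pow_orderOf_div (isOfFinOrder_of_finite g).orderOf_pos.ne' h

/-- No element of the linear group has a forbidden order. -/
theorem order_notMem (hn : 3 ≤ n) (g : L2 n) : orderOf g ∉ Mset n := by
  have hle := order_le (by omega) g
  have hpow1 : 8 ≤ 2 ^ n := by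
    have : 2 ^ 3 ≤ 2 ^ n := Nat.pow_le_pow_right (by norm_num) hn
    omega
  have hpow2 : 2 ^ n = 2 * 2 ^ (n - 1) := by
    rw [← pow_succ']
    congr 1
    omega
  rintro (⟨p, hp, hp2, hm⟩ | ⟨h, r, hh, hhr, hm⟩ | hm)
  · have hp3 : 3 ≤ p := by
      have := hp.two_le
      omega
    rcases hm with hm | hm
    · have h1 : 3 * (2 ^ n - 1) ≤ p * (2 ^ n - 1) := Nat.mul_le_mul_right _ hp3
      omega
    · have h1 : 3 * (2 ^ (n - 1) - 1) ≤ p * (2 ^ (n - 1) - 1) := Nat.mul_le_mul_right _ hp3
      omega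
  · obtain ⟨ℓ, e, hℓ, hℓ2, hℓd, hord⟩ := exists_D hh
    set V := Fin n → ZMod 2 with hV
    set T := Matrix.toLinAlgEquiv' (n := Fin n) (R := ZMod 2) with hT
    have hd1 : ℓ ^ (e + 1) ∣ orderOf g := by
      rw [hm]
      exact hℓd.mul_left _
    have hd2 : 2 ^ (Nat.clog 2 r + 1) ∣ orderOf g := by
      rw [hm]
      exact Dvd.intro _ rfl
    set y := g ^ (orderOf g / ℓ ^ (e + 1)) with hy
    set u := g ^ (orderOf g / 2 ^ (Nat.clog 2 r + 1)) with hu
    have hyo : orderOf y = ℓ ^ (e + 1) := exists_pow_order g hd1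
    have huo : orderOf u = 2 ^ (Nat.clog 2 r + 1) := exists_pow_order g hd2
    have hTinj : ∀ x : L2 n, T (x : M2 n) = 1 → x = 1 := by
      intro x hx
      apply Units.ext
      rw [← map_one T] at hx
      exact T.injective hx
    have hTpow : ∀ (x : L2 n) (k : ℕ), T (x : M2 n) ^ k = T ((x ^ k : L2 n) : M2 n) := by
      intro x k
      rw [← map_pow, Units.val_pow_eq_pow_val]
    have h1 : T (u : M2 n) ^ (2 ^ (Nat.clog 2 r)) = 1 := by
      refine unip_bound (s := Nat.clog 2 r + 1) hh ?_ hℓ hℓ2 hord (T (y : M2 n)) (T (u : M2 n))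
        ?_ ?_ ?_ ?_
      · rw [Module.finrank_fin_fun, hhr]
      · have h2 : Commute y u := by
          rw [hy, hu]
          exact Commute.pow_pow_self g _ _
        have h3 : Commute (y : M2 n) (u : M2 n) := by
          have := congrArg (fun x : L2 n => (x : M2 n)) h2.eq
          exact this
        exact h3.map T
      · rw [hTpow, ← hyo, pow_orderOf_eq_one, Units.val_one, map_one]
      · intro h2
        rw [hTpow] at h2
        have h3 := hTinj _ h2
        have h4 := orderOf_dvd_of_pow_eq_one h3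
        rw [hyo] at h4
        have h5 := Nat.le_of_dvd (Nat.pow_pos hℓ.pos) h4
        have h6 : ℓ ^ e < ℓ ^ (e + 1) := Nat.pow_lt_pow_right hℓ.one_lt (by omega)
        omega
      · rw [hTpow, ← huo, pow_orderOf_eq_one, Units.val_one, map_one]
    rw [hTpow] at h1
    have h3 := hTinj _ h1
    have h4 := orderOf_dvd_of_pow_eq_one h3
    rw [huo] at h4
    have h5 := Nat.le_of_dvd (by positivity) h4
    have h6 : 2 ^ (Nat.clog 2 r) < 2 ^ (Nat.clog 2 r + 1) :=
      Nat.pow_lt_pow_right (by norm_num) (by omega)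
    omega
  · set T := Matrix.toLinAlgEquiv' (n := Fin n) (R := ZMod 2) with hT
    have hTinj : ∀ x : L2 n, T (x : M2 n) = 1 → x = 1 := by
      intro x hx
      apply Units.ext
      rw [← map_one T] at hx
      exact T.injective hx
    have hTpow : ∀ (x : L2 n) (k : ℕ), T (x : M2 n) ^ k = T ((x ^ k : L2 n) : M2 n) := by
      intro x k
      rw [← map_pow, Units.val_pow_eq_pow_val]
    have h1 := unip_le (s := Nat.clog 2 n + 1) (T (g : M2 n)) (by
      rw [hTpow, ← hm, pow_orderOf_eq_one, Units.val_one, map_one])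
    rw [Module.finrank_fin_fun, hTpow] at h1
    have h3 := hTinj _ h1
    have h4 := orderOf_dvd_of_pow_eq_one h3
    rw [hm] at h4
    have h5 := Nat.le_of_dvd (by positivity) h4
    have h6 : 2 ^ (Nat.clog 2 n) < 2 ^ (Nat.clog 2 n + 1) :=
      Nat.pow_lt_pow_right (by norm_num) (by omega)
    omega

end Pool.Agent.H916_LN2
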