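import Pool.Agent.H916_LN2.Sym
import Pool.Agent.H916_LN2.Orders
import Pool.Agent.Y165.DCN.Syl
import Pool.Agent.Y759.DCN.Type
import Pool.Agent.Y195.DCN.Fin
import Pool.Agent.Y362.DCN.Semi

/-! # Groups with a normal subgroup isomorphic to the linear group -/

set_option autoImplicit false

namespace Pool.Agent.H916_LN2

open Finset Matrix

open Pool.Agent.Y60.DC (Mn SLn)

variable {n : ℕ}

theorem autn : Pool.Agent.Y60.DC.TaskAUTN :=
  Pool.Agent.Y331.DCN.autn_holds Pool.Agent.Y165.DCN.syl_holds Pool.Agent.Y759.DCN.type_holds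
    (Pool.Agent.Y195.DCN.fin_holds Pool.Agent.Y362.DCN.semi_holds)

/-- Elements of the second Singer type. -/
theorem exists_singer' (hn : 2 ≤ n) : ∃ x : L2 n, orderOf x = 2 ^ (n - 1) - 1 := by
  classical
  have hF2 : Fact (Nat.Prime 2) := ⟨Nat.prime_two⟩
  have hn1 : n - 1 ≠ 0 := by omega
  let K := GaloisField 2 (n - 1)
  obtain ⟨t, ht⟩ := exists_gen (n - 1) hn1
  have hrank : Module.finrank (ZMod 2) (K × ZMod 2) = n := by
    rw [Module.finrank_prod, GaloisField.finrank 2 hn1, Module.finrank_self]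
    omega
  let bs : Module.Basis (Fin n) (ZMod 2) (K × ZMod 2) := Module.finBasisOfFinrankEq _ _ hrank
  let F : Kˣ →* ((K × ZMod 2) →ₗ[ZMod 2] (K × ZMod 2)) :=
    { toFun := fun u => (mulF K u).prodMap LinearMap.id
      map_one' := by
        rw [map_one]
        rfl
      map_mul' := by
        intro a b
        rw [map_mul]
        rfl }
  have hFinj : Function.Injective F := by
    intro a b hab
    apply mulF_injective K
    refine LinearMap.ext fun z => ?_
    exact congrArg (fun f : (K × ZMod 2) →ₗ[ZMod 2] (K × ZMod 2) => (f (z, 0)).1) hab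
  exact ⟨toL bs F t, by rw [orderOf_injective _ (toL_injective bs hFinj), ht]⟩

theorem mem_Mset_two (hn : 3 ≤ n) : 2 * (2 ^ (n / 2) + 1) ∈ Mset n := by
  right; left
  refine ⟨n / 2, n - 2 * (n / 2), by omega, by omega, ?_⟩
  have h1 : Nat.clog 2 (n - 2 * (n / 2)) = 0 := Nat.clog_of_right_le_one (by omega) _
  rw [h1]
  ring

universe u

variable {G : Type u} [Group G] [Finite G]

/-- A nontrivial centralizer of the normal subgroup gives elements of forbidden orders. -/
theorem centralizer_case (hn : 3 ≤ n) (N : Subgroup G) (ψ : N ≃* SLn n (ZMod 2))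
    (hG : ∀ g : G, orderOf g ∉ Mset n) :
    Subgroup.centralizer (N : Set G) = ⊥ := by
  by_contra hC
  have hcard : 1 < Nat.card (Subgroup.centralizer (N : Set G)) :=
    (Subgroup.one_lt_card_iff_ne_bot _).2 hC
  obtain ⟨p, hp, hpd⟩ := Nat.exists_prime_and_dvd hcard.ne'
  have hpf : Fact p.Prime := ⟨hp⟩
  obtain ⟨c, hc⟩ := exists_prime_orderOf_dvd_card' p hpd
  have hco : orderOf (c : G) = p := by rw [Subgroup.orderOf_coe, hc]
  have key : ∀ (x : SLn n (ZMod 2)) (m : ℕ), orderOf x = m → Nat.Coprime p m →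
      ∃ g : G, orderOf g = p * m := by
    intro x m hx hpm
    set y : N := ψ.symm x with hy
    have hyo : orderOf (y : G) = m := by
      rw [Subgroup.orderOf_coe, hy, MulEquiv.orderOf_eq, hx]
    have hcomm : Commute (c : G) (y : G) :=
      ((Subgroup.mem_centralizer_iff.1 c.2) (y : G) y.2).symm
    refine ⟨(c : G) * (y : G), ?_⟩
    rw [hcomm.orderOf_mul_eq_mul_orderOf_of_coprime (by rw [hco, hyo]; exact hpm), hco, hyo]
  by_cases hp2 : p = 2
  · subst hp2
    obtain ⟨J, S, -, -, hS⟩ := exists_sym (n := n) (by omega)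
    obtain ⟨g, hg⟩ := key S _ hS (by
      rw [Nat.coprime_two_left]
      exact Even.add_one (Nat.even_pow.2 ⟨even_two, by omega⟩))
    exact hG g (hg ▸ mem_Mset_two hn)
  · by_cases hpn : p ∣ 2 ^ n - 1
    · obtain ⟨x, hx⟩ := exists_singer' (n := n) (by omega)
      obtain ⟨g, hg⟩ := key ((slgl n).symm x) (2 ^ (n - 1) - 1)
        (by rw [MulEquiv.orderOf_eq, hx]) (by
        rw [Nat.Prime.coprime_iff_not_dvd hp]
        intro h1
        have h2 : 2 ^ n - 1 = 2 * (2 ^ (n - 1) - 1) + 1 := by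
          obtain ⟨m, rfl⟩ : ∃ m, n = m + 1 := ⟨n - 1, by omega⟩
          rw [Nat.add_sub_cancel, pow_succ]
          have : 1 ≤ 2 ^ m := Nat.one_le_two_pow
          omega
        rw [h2] at hpn
        have h3 := (Nat.dvd_add_right (h1.mul_left 2)).1 hpn
        exact hp.one_lt.ne' (Nat.dvd_one.1 h3))
      exact hG g (hg ▸ Or.inl ⟨p, hp, hp2, Or.inr rfl⟩)
    · obtain ⟨x, hx⟩ := exists_singer (n := n) (by omega)
      obtain ⟨g, hg⟩ := key ((slgl n).symm x) (2 ^ n - 1)
        (by rw [MulEquiv.orderOf_eq, hx]) (by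
        rw [Nat.Prime.coprime_iff_not_dvd hp]
        exact hpn)
      exact hG g (hg ▸ Or.inl ⟨p, hp, hp2, Or.inl rfl⟩)

/-- The action of an element of the group on the normal subgroup, as an automorphism. -/
noncomputable def conjAut (N : Subgroup G) [N.Normal] (ψ : N ≃* SLn n (ZMod 2)) (g : G) :
    MulAut (SLn n (ZMod 2)) :=
  (ψ.symm.trans (MulAut.conjNormal g : MulAut N)).trans ψ

theorem conjAut_apply (N : Subgroup G) [N.Normal] (ψ : N ≃* SLn n (ZMod 2)) (g : G)
    (A : SLn n (ZMod 2)) : ((ψ.symm (conjAut N ψ g A) : N) : G) = g * (ψ.symm A : N) * g⁻¹ := by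
  change ((ψ.symm (ψ ((MulAut.conjNormal g : MulAut N) (ψ.symm A))) : N) : G) = _
  rw [MulEquiv.symm_apply_apply]
  exact MulAut.conjNormal_apply g _

theorem map_zmod2 (φ : ZMod 2 ≃+* ZMod 2) (A : M2 n) : A.map φ = A := by
  ext i j
  rw [Matrix.map_apply]
  rcases z01 (A i j) with h | h
  · rw [h, map_zero]
  · rw [h, map_one]

/-- A normal subgroup isomorphic to the linear group is the whole group. -/
theorem normal_case (hn : 3 ≤ n) (N : Subgroup G) [N.Normal] (ψ : N ≃* SLn n (ZMod 2))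
    (hG : ∀ g : G, orderOf g ∉ Mset n) : N = ⊤ := by
  have hC := centralizer_case hn N ψ hG
  have hcent : ∀ g : G, (∀ A, conjAut N ψ g A = A) → g = 1 := by
    intro g hg
    have h1 : g ∈ Subgroup.centralizer (N : Set G) := by
      rw [Subgroup.mem_centralizer_iff]
      intro y hy
      have h2 := conjAut_apply N ψ g (ψ ⟨y, hy⟩)
      rw [hg, MulEquiv.symm_apply_apply] at h2
      simp only at h2
      exact (eq_mul_inv_iff_mul_eq.1 h2)
    rw [hC, Subgroup.mem_bot] at h1
    exact h1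
  have hmul : ∀ (g g' : G) (A : SLn n (ZMod 2)),
      conjAut N ψ (g * g') A = conjAut N ψ g (conjAut N ψ g' A) := by
    intro g g' A
    apply ψ.symm.injective
    apply Subtype.ext
    rw [conjAut_apply, conjAut_apply, conjAut_apply]
    group
  have hinner : ∀ (a A : SLn n (ZMod 2)), conjAut N ψ ((ψ.symm a : N) : G) A = a * A * a⁻¹ := by
    intro a A
    apply ψ.symm.injective
    apply Subtype.ext
    rw [conjAut_apply, map_mul, map_mul, map_inv]
    rfl
  rw [eq_top_iff]
  intro g _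
  by_contra hgN
  obtain ⟨g₀, φ, hg₀⟩ := autn (ZMod 2) n hn (conjAut N ψ g)
  simp only [map_zmod2] at hg₀
  set a₀ : SLn n (ZMod 2) := (slgl n).symm g₀ with ha₀
  have ha₀c : (a₀ : M2 n) = g₀.1 := slgl_symm_coe g₀
  rw [← ha₀c] at hg₀
  rcases hg₀ with h1 | h1
  · -- inner
    have h2 : ∀ A : SLn n (ZMod 2), conjAut N ψ g A * a₀ = a₀ * A := by
      intro A
      apply Subtype.ext
      exact h1 A
    have h3 : ((ψ.symm a₀⁻¹ : N) : G) * g = 1 := by
      apply hcent
      intro A
      rw [hmul, hinner, inv_inv]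
      have h4 : conjAut N ψ g A = a₀ * A * a₀⁻¹ := by
        rw [← h2 A, mul_inv_cancel_right]
      rw [h4]
      group
    apply hgN
    have h4 : g = ((ψ.symm a₀⁻¹ : N) : G)⁻¹ := eq_inv_of_mul_eq_one_right h3
    rw [h4]
    exact N.inv_mem (ψ.symm a₀⁻¹ : N).2
  · -- outer
    obtain ⟨J, S, hJ, hJS, hS⟩ := exists_sym (n := n) (by omega)
    set b : SLn n (ZMod 2) := J * a₀⁻¹ with hb
    set γ : G := ((ψ.symm b : N) : G) * g with hγ
    have h2 : ∀ A : SLn n (ZMod 2), conjAut N ψ g A * a₀ = a₀ * (A⁻¹).transpose := by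
      intro A
      apply Subtype.ext
      exact h1 A
    have h3 : ∀ A : SLn n (ZMod 2), conjAut N ψ γ A = J * (A⁻¹).transpose * J⁻¹ := by
      intro A
      rw [hγ, hmul, hinner]
      have h4 : conjAut N ψ g A = a₀ * (A⁻¹).transpose * a₀⁻¹ := by
        rw [← h2 A, mul_inv_cancel_right]
      rw [h4, hb]
      group
    have hJt : J.transpose = J := Subtype.ext hJ
    have hSJ : S * J * S.transpose = J := Subtype.ext hJS
    have hγγ : γ * γ = 1 := by
      apply hcent
      intro A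
      rw [hmul, h3 A, h3]
      have e1 : ((J * (A⁻¹).transpose * J⁻¹)⁻¹).transpose =
          J⁻¹ * A * J := by
        have e2 : (J * (A⁻¹).transpose * J⁻¹)⁻¹ = J * A.transpose * J⁻¹ := by
          rw [← Pool.Agent.Y331.DCN.inv_tr A]
          group
        have e3 : (J⁻¹).transpose = J⁻¹ := by
          rw [eq_inv_iff_mul_eq_one]
          nth_rewrite 2 [← hJt]
          rw [← Pool.Agent.Y331.DCN.tr_mul, mul_inv_cancel, Pool.Agent.Y331.DCN.tr_one]
        rw [e2, Pool.Agent.Y331.DCN.tr_mul, Pool.Agent.Y331.DCN.tr_mul,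
          Pool.Agent.Y331.DCN.tr_tr, hJt, e3, mul_assoc]
      rw [e1]
      group
    have hγ1 : γ ≠ 1 := by
      intro h4
      apply hgN
      have h5 : g = ((ψ.symm b : N) : G)⁻¹ := eq_inv_of_mul_eq_one_right h4
      rw [h5]
      exact N.inv_mem (ψ.symm b : N).2
    have hγo : orderOf γ = 2 := by
      have : Fact (Nat.Prime 2) := ⟨Nat.prime_two⟩
      exact orderOf_eq_prime (by rw [pow_two]; exact hγγ) hγ1
    have hfix : conjAut N ψ γ S = S := by
      rw [h3]
      have e1 : S.transpose = (S * J)⁻¹ * J := by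
        rw [eq_inv_mul_iff_mul_eq]
        exact hSJ
      have e2 : (S⁻¹).transpose = (S.transpose)⁻¹ := by
        rw [eq_inv_iff_mul_eq_one, ← Pool.Agent.Y331.DCN.tr_mul, mul_inv_cancel,
          Pool.Agent.Y331.DCN.tr_one]
      rw [e2, e1]
      group
    have hcomm : Commute γ ((ψ.symm S : N) : G) := by
      have h4 := conjAut_apply N ψ γ S
      rw [hfix] at h4
      exact (eq_mul_inv_iff_mul_eq.1 h4).symm
    have hSo : orderOf ((ψ.symm S : N) : G) = 2 ^ (n / 2) + 1 := by
      rw [Subgroup.orderOf_coe, MulEquiv.orderOf_eq, hS]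
    have h5 : orderOf (γ * ((ψ.symm S : N) : G)) = 2 * (2 ^ (n / 2) + 1) := by
      rw [hcomm.orderOf_mul_eq_mul_orderOf_of_coprime, hγo, hSo]
      rw [hγo, hSo, Nat.coprime_two_left]
      exact Even.add_one (Nat.even_pow.2 ⟨even_two, by omega⟩)
    exact hG _ (h5 ▸ mem_Mset_two hn)

end Pool.Agent.H916_LN2
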