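import Mathlib

/-! # Pairing the positions inside the blocks of a composition -/

set_option autoImplicit false

namespace Pool.Agent.H916_LN2

open Finset

/-- The greedy pairing. -/
theorem exists_AB (I : Finset ℕ) (n : ℕ) : ∃ A B : Finset ℕ,
    (∀ a ∈ A, a + 1 < n ∧ a + 1 ∉ I) ∧ (∀ b ∈ B, b < n ∧ (b = 0 ∨ b ∈ I)) ∧
    (∀ x, x < n → x ∈ A ∨ (∃ a ∈ A, x = a + 1) ∨ x ∈ B) ∧
    (∀ a ∈ A, a + 1 ∉ A) ∧ (∀ a ∈ A, a ∉ B) ∧ (∀ a ∈ A, a + 1 ∉ B) := by
  induction n using Nat.strong_induction_on with
  | _ n ih =>
    rcases Nat.eq_zero_or_pos n with rfl | hn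
    · exact ⟨∅, ∅, by simp⟩
    · by_cases hcase : n = 1 ∨ n - 1 ∈ I
      · obtain ⟨A, B, h1, h2, h3, h4, h5, h6⟩ := ih (n - 1) (by omega)
        refine ⟨A, insert (n - 1) B, ?_, ?_, ?_, h4, ?_, ?_⟩
        · intro a ha
          have := h1 a ha
          exact ⟨by omega, this.2⟩
        · intro b hb
          rw [Finset.mem_insert] at hb
          rcases hb with rfl | hb
          · refine ⟨by omega, ?_⟩
            rcases hcase with h | h
            · left; omega
            · right; exact h
          · have := h2 b hb
            exact ⟨by omega, this.2⟩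
        · intro x hx
          rcases Nat.lt_or_ge x (n - 1) with hx' | hx'
          · rcases h3 x hx' with h | h | h
            · exact Or.inl h
            · exact Or.inr (Or.inl h)
            · exact Or.inr (Or.inr (Finset.mem_insert_of_mem h))
          · have : x = n - 1 := by omega
            right; right
            rw [this]
            exact Finset.mem_insert_self _ _
        · intro a ha hb
          rw [Finset.mem_insert] at hb
          rcases hb with hb | hb
          · have := h1 a ha
            omega
          · exact h5 a ha hb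
        · intro a ha hb
          rw [Finset.mem_insert] at hb
          rcases hb with hb | hb
          · have := h1 a ha
            omega
          · exact h6 a ha hb
      · push Not at hcase
        obtain ⟨A, B, h1, h2, h3, h4, h5, h6⟩ := ih (n - 2) (by omega)
        refine ⟨insert (n - 2) A, B, ?_, ?_, ?_, ?_, ?_, ?_⟩
        · intro a ha
          rw [Finset.mem_insert] at ha
          rcases ha with rfl | ha
          · refine ⟨by omega, ?_⟩
            have : n - 2 + 1 = n - 1 := by omega
            rw [this]
            exact hcase.2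
          · have := h1 a ha
            exact ⟨by omega, this.2⟩
        · intro b hb
          have := h2 b hb
          exact ⟨by omega, this.2⟩
        · intro x hx
          rcases Nat.lt_or_ge x (n - 2) with hx' | hx'
          · rcases h3 x hx' with h | h | h
            · exact Or.inl (Finset.mem_insert_of_mem h)
            · obtain ⟨a, ha, rfl⟩ := h
              exact Or.inr (Or.inl ⟨a, Finset.mem_insert_of_mem ha, rfl⟩)
            · exact Or.inr (Or.inr h)
          · rcases (by omega : x = n - 2 ∨ x = n - 2 + 1) with h | h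
            · left
              rw [h]
              exact Finset.mem_insert_self _ _
            · right; left
              exact ⟨n - 2, Finset.mem_insert_self _ _, h⟩
        · intro a ha hb
          rw [Finset.mem_insert] at ha hb
          rcases ha with rfl | ha
          · rcases hb with hb | hb
            · omega
            · have := h1 _ hb
              omega
          · have h7 := h1 _ ha
            rcases hb with hb | hb
            · omega
            · exact h4 a ha hb
        · intro a ha hb
          rw [Finset.mem_insert] at ha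
          rcases ha with rfl | ha
          · have := h2 _ hb
            omega
          · exact h5 a ha hb
        · intro a ha hb
          rw [Finset.mem_insert] at ha
          rcases ha with rfl | ha
          · have := h2 _ hb
            omega
          · exact h6 a ha hb

/-- The order used for the eigen-coordinates. -/
theorem exists_kappa (n : ℕ) (I : Finset ℕ) : ∃ (h r : ℕ) (κ : (Fin 2 × Fin h) ⊕ Fin r ≃ Fin n),
    (∀ j, ∀ k ∈ I, (κ (Sum.inl (0, j))).val < k ↔ (κ (Sum.inl (1, j))).val < k) ∧
    (StrictMono fun l => κ (Sum.inr l)) ∧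
    (∀ l, (κ (Sum.inr l)).val = 0 ∨ (κ (Sum.inr l)).val ∈ I) := by
  obtain ⟨A, B, h1, h2, h3, h4, h5, h6⟩ := exists_AB I n
  set eA := A.orderEmbOfFin rfl with heA
  set eB := B.orderEmbOfFin rfl with heB
  have hA : ∀ j, eA j ∈ A := fun j => A.orderEmbOfFin_mem rfl j
  have hB : ∀ j, eB j ∈ B := fun j => B.orderEmbOfFin_mem rfl j
  have hAs : ∀ a ∈ A, ∃ j, eA j = a := by
    intro a ha
    have : a ∈ Set.range eA := by
      rw [heA, Finset.range_orderEmbOfFin]
      exact ha
    exact this
  have hBs : ∀ a ∈ B, ∃ j, eB j = a := by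
    intro a ha
    have : a ∈ Set.range eB := by
      rw [heB, Finset.range_orderEmbOfFin]
      exact ha
    exact this
  let f : (Fin 2 × Fin A.card) ⊕ Fin B.card → Fin n := fun x => match x with
    | Sum.inl (ε, j) => ⟨eA j + ε.val, by have := (h1 _ (hA j)).1; have := ε.2; omega⟩
    | Sum.inr l => ⟨eB l, (h2 _ (hB l)).1⟩
  have hf1 : ∀ ε j, (f (Sum.inl (ε, j))).val = eA j + ε.val := fun _ _ => rfl
  have hf2 : ∀ l, (f (Sum.inr l)).val = eB l := fun _ => rfl
  have hinj : Function.Injective f := by
    rintro (⟨ε, j⟩ | l) (⟨ε', j'⟩ | l') hxy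
    · have h7 := congrArg Fin.val hxy
      rw [hf1, hf1] at h7
      have hε := ε.2
      have hε' := ε'.2
      rcases (by omega : (ε.val = ε'.val ∧ eA j = eA j') ∨ (eA j + 1 = eA j') ∨
        (eA j' + 1 = eA j)) with h8 | h8 | h8
      · rw [Fin.ext h8.1, eA.injective h8.2]
      · exact absurd (h8 ▸ hA j') (h4 _ (hA j))
      · exact absurd (h8 ▸ hA j) (h4 _ (hA j'))
    · exfalso
      have h7 := congrArg Fin.val hxy
      rw [hf1, hf2] at h7
      have hε := ε.2
      rcases (by omega : (ε.val = 0) ∨ (ε.val = 1)) with h8 | h8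
      · rw [h8, add_zero] at h7
        exact h5 _ (hA j) (h7 ▸ hB l')
      · rw [h8] at h7
        exact h6 _ (hA j) (h7 ▸ hB l')
    · exfalso
      have h7 := congrArg Fin.val hxy
      rw [hf1, hf2] at h7
      have hε := ε'.2
      rcases (by omega : (ε'.val = 0) ∨ (ε'.val = 1)) with h8 | h8
      · rw [h8, add_zero] at h7
        exact h5 _ (hA j') (h7 ▸ hB l)
      · rw [h8] at h7
        exact h6 _ (hA j') (h7 ▸ hB l)
    · have h7 := congrArg Fin.val hxy
      rw [hf2, hf2] at h7
      rw [eB.injective h7]
  have hsurj : Function.Surjective f := by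
    intro x
    rcases h3 x.val x.2 with h | ⟨a, ha, hxa⟩ | h
    · obtain ⟨j, hj⟩ := hAs _ h
      refine ⟨Sum.inl (0, j), Fin.ext ?_⟩
      rw [hf1, hj]
      rfl
    · obtain ⟨j, hj⟩ := hAs _ ha
      refine ⟨Sum.inl (1, j), Fin.ext ?_⟩
      rw [hf1, hj, hxa]
      rfl
    · obtain ⟨j, hj⟩ := hBs _ h
      refine ⟨Sum.inr j, Fin.ext ?_⟩
      rw [hf2, hj]
  refine ⟨A.card, B.card, Equiv.ofBijective f ⟨hinj, hsurj⟩, ?_, ?_, ?_⟩
  · intro j k hk
    change eA j + 0 < k ↔ eA j + 1 < k
    have h7 : eA j + 1 ≠ k := by
      rintro rfl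
      exact (h1 _ (hA j)).2 hk
    omega
  · intro l l' hll
    exact eB.strictMono hll
  · intro l
    exact (h2 _ (hB l)).2

end Pool.Agent.H916_LN2
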