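import Pool.Agent.H916_LN2.Tri
import Pool.Agent.H916_LN2.Kappa

/-! # Leading minors of rearranged block matrices -/

set_option autoImplicit false

namespace Pool.Agent.H916_LN2

open Finset Matrix

set_option linter.unusedSectionVars false

variable {n h r : ℕ} {K : Type*} [CommRing K]

/-- The number of leftover positions before `k`. -/
def cnt (κ : (Fin 2 × Fin h) ⊕ Fin r ≃ Fin n) (k : ℕ) : ℕ :=
  (univ.filter fun l : Fin r => (κ (Sum.inr l)).val < k).card

theorem card_filter_lt (r m : ℕ) (hm : m ≤ r) :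
    (univ.filter fun l : Fin r => l.val < m).card = m := by
  have : (univ.filter fun l : Fin r => l.val < m) = (univ : Finset (Fin m)).map
      (Fin.castLEEmb hm) := by
    ext l
    simp only [Finset.mem_filter, Finset.mem_univ, true_and, Finset.mem_map, Fin.castLEEmb_apply]
    constructor
    · intro hl
      exact ⟨⟨l.val, hl⟩, Fin.ext rfl⟩
    · rintro ⟨a, rfl⟩
      exact a.2
  rw [this, Finset.card_map, Finset.card_univ, Fintype.card_fin]

theorem cnt_iff (κ : (Fin 2 × Fin h) ⊕ Fin r ≃ Fin n) (hκ : StrictMono fun l => κ (Sum.inr l))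
    (k : ℕ) (l : Fin r) : (κ (Sum.inr l)).val < k ↔ l.val < cnt κ k := by
  have hlr := l.2
  constructor
  · intro hl
    have h1 : (univ.filter fun l' : Fin r => l'.val < l.val + 1) ⊆
        (univ.filter fun l : Fin r => (κ (Sum.inr l)).val < k) := by
      intro l' hl'
      rw [Finset.mem_filter] at hl' ⊢
      refine ⟨Finset.mem_univ _, ?_⟩
      have h2 : l' ≤ l := by
        change l'.val ≤ l.val
        omega
      have h3 : (κ (Sum.inr l')).val ≤ (κ (Sum.inr l)).val := hκ.monotone h2
      omega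
    have h2 := Finset.card_le_card h1
    rw [card_filter_lt r _ (by omega)] at h2
    unfold cnt
    omega
  · intro hl
    by_contra hcon
    have h1 : (univ.filter fun l : Fin r => (κ (Sum.inr l)).val < k) ⊆
        (univ.filter fun l' : Fin r => l'.val < l.val) := by
      intro l' hl'
      rw [Finset.mem_filter] at hl' ⊢
      refine ⟨Finset.mem_univ _, ?_⟩
      by_contra h4
      have h2 : l ≤ l' := by
        change l.val ≤ l'.val
        omega
      have h3 : (κ (Sum.inr l)).val ≤ (κ (Sum.inr l')).val := hκ.monotone h2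
      have h5 := hl'.2
      omega
    have h2 := Finset.card_le_card h1
    rw [card_filter_lt r _ (by omega)] at h2
    unfold cnt at hl
    omega

theorem cnt_le (κ : (Fin 2 × Fin h) ⊕ Fin r ≃ Fin n) (k : ℕ) : cnt κ k ≤ r := by
  unfold cnt
  refine (Finset.card_le_univ _).trans ?_
  rw [Fintype.card_fin]

/-- The matrix of an element of the torus times the unitriangular group, rows and columns being
rearranged. -/
def Dmat (κ : (Fin 2 × Fin h) ⊕ Fin r ≃ Fin n) (θ : Fin 2 × Fin h → K)
    (x : Matrix (Fin r) (Fin r) K) : Matrix (Fin n) (Fin n) K :=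
  (fromBlocks (diagonal θ) 0 0 x).submatrix
    (fun v => Sum.map id Fin.rev (κ.symm v)) (fun v => κ.symm v)

theorem prod_theta (P : Fin 2 × Fin h → Prop) [DecidablePred P] (θ : Fin 2 × Fin h → K)
    (hP : ∀ j, P (0, j) ↔ P (1, j)) (hθ : ∀ j, θ (0, j) * θ (1, j) = 1) :
    ∏ q : {q // P q}, θ q.1 = 1 := by
  have h1 : ∏ q : {q // P q}, θ q.1 = ∏ q : Fin 2 × Fin h, if P q then θ q else 1 := by
    rw [Finset.prod_ite]
    simp only [Finset.prod_const_one, mul_one]
    exact (Finset.prod_subtype (univ.filter P) (by simp) θ).symm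
  rw [h1, Fintype.prod_prod_type_right]
  refine Finset.prod_eq_one fun j _ => ?_
  rw [Fin.prod_univ_two]
  by_cases h2 : P (0, j)
  · rw [if_pos h2, if_pos ((hP j).1 h2), hθ]
  · rw [if_neg h2, if_neg (fun h3 => h2 ((hP j).2 h3)), mul_one]

/-- The leading minors of `Dmat`. -/
theorem lead_Dmat (κ : (Fin 2 × Fin h) ⊕ Fin r ≃ Fin n)
    (hκ : StrictMono fun l => κ (Sum.inr l)) (θ : Fin 2 × Fin h → K)
    (x : Matrix (Fin r) (Fin r) K) (k : ℕ)
    (hk : ∀ j, (κ (Sum.inl (0, j))).val < k ↔ (κ (Sum.inl (1, j))).val < k)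
    (hθ : ∀ j, θ (0, j) * θ (1, j) = 1) :
    lead k (Dmat κ θ x) = lead (cnt κ k) (x.submatrix Fin.rev id) := by
  classical
  unfold lead
  let e1 : {s : (Fin 2 × Fin h) ⊕ Fin r // (κ s).val < k} ≃ {v : Fin n // v.val < k} :=
    κ.subtypeEquiv (fun s => Iff.rfl)
  let e2 : {s : (Fin 2 × Fin h) ⊕ Fin r // (κ s).val < k} ≃
      {q : Fin 2 × Fin h // (κ (Sum.inl q)).val < k} ⊕ {l : Fin r // (κ (Sum.inr l)).val < k} :=
    Equiv.subtypeSum
  let e3 : {l : Fin r // (κ (Sum.inr l)).val < k} ≃ {l : Fin r // l.val < cnt κ k} :=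
    Equiv.subtypeEquivRight (fun l => cnt_iff κ hκ k l)
  let e : {q : Fin 2 × Fin h // (κ (Sum.inl q)).val < k} ⊕ {l : Fin r // l.val < cnt κ k} ≃
      {v : Fin n // v.val < k} := ((Equiv.sumCongr (Equiv.refl _) e3.symm).trans e2.symm).trans e1
  rw [← Matrix.det_submatrix_equiv_self e]
  have hel : ∀ q, (e (Sum.inl q)).1 = κ (Sum.inl q.1) := fun q => rfl
  have her : ∀ l, (e (Sum.inr l)).1 = κ (Sum.inr l.1) := fun l => rfl
  have h1 : (((Dmat κ θ x).toSquareBlockProp (fun i => i.val < k)).submatrix e e) =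
      fromBlocks (diagonal fun q : {q : Fin 2 × Fin h // (κ (Sum.inl q)).val < k} => θ q.1) 0 0
        ((x.submatrix Fin.rev id).toSquareBlockProp (fun i => i.val < cnt κ k)) := by
    ext i j
    change Dmat κ θ x (e i).1 (e j).1 = _
    rcases i with i | i <;> rcases j with j | j
    · rw [hel, hel]
      simp only [Dmat, Matrix.submatrix_apply, Equiv.symm_apply_apply, Sum.map_inl, id,
        fromBlocks_apply₁₁]
      by_cases hij : i = j
      · subst hij
        rw [diagonal_apply_eq, diagonal_apply_eq]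
      · rw [diagonal_apply_ne _ hij, diagonal_apply_ne]
        intro h2
        exact hij (Subtype.ext h2)
    · rw [hel, her]
      simp only [Dmat, Matrix.submatrix_apply, Equiv.symm_apply_apply, Sum.map_inl, id,
        fromBlocks_apply₁₂, Matrix.zero_apply]
    · rw [hel, her]
      simp only [Dmat, Matrix.submatrix_apply, Equiv.symm_apply_apply, Sum.map_inr,
        fromBlocks_apply₂₁, Matrix.zero_apply]
    · rw [her, her]
      simp only [Dmat, Matrix.submatrix_apply, Equiv.symm_apply_apply, Sum.map_inr,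
        fromBlocks_apply₂₂]
      rfl
  rw [h1, det_fromBlocks_zero₂₁, det_diagonal]
  rw [prod_theta (fun q => (κ (Sum.inl q)).val < k) θ hk hθ, one_mul]

end Pool.Agent.H916_LN2
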