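import Pool.Agent.H916_LN2.Block

/-! # The product of the leading minors -/

set_option autoImplicit false

namespace Pool.Agent.H916_LN2

open Finset Matrix

open Pool.Agent.R837.FD (LU)

set_option linter.unusedSectionVars false

variable {n h r : ℕ}

theorem lead_zero {K : Type*} [CommRing K] (A : Matrix (Fin n) (Fin n) K) : lead 0 A = 1 := by
  unfold lead
  haveI : IsEmpty {i : Fin n // i.val < 0} := ⟨fun i => absurd i.2 (Nat.not_lt_zero _)⟩
  exact det_isEmpty

theorem lead_self {K : Type*} [CommRing K] (A : Matrix (Fin n) (Fin n) K) :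
    lead n A = A.det := by
  unfold lead
  let e : {i : Fin n // i.val < n} ≃ Fin n := Equiv.subtypeUnivEquiv (fun i => i.2)
  have : A.toSquareBlockProp (fun i => i.val < n) = A.submatrix e e := by
    ext i j
    rfl
  rw [this, det_submatrix_equiv_self]

theorem lead_map {K L : Type*} [CommRing K] [CommRing L] (φ : K →+* L) (k : ℕ)
    (A : Matrix (Fin n) (Fin n) K) : lead k (A.map φ) = φ (lead k A) := by
  unfold lead
  rw [RingHom.map_det]
  rfl

theorem lead_transpose {K : Type*} [CommRing K] (k : ℕ)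
    (A : Matrix (Fin n) (Fin n) K) : lead k Aᵀ = lead k A := by
  unfold lead
  rw [← det_transpose]
  rfl

theorem det_rev_ne_zero {x : Matrix (Fin r) (Fin r) (ZMod 2)} (hx : LU x) :
    (x.submatrix Fin.rev id).det = 1 := by
  have h1 : x.submatrix Fin.rev id = x.submatrix Fin.revPerm id := rfl
  rw [h1, det_permute, hx.det, mul_one]
  have h2 : ∀ a : ℤˣ, (((a : ℤˣ) : ℤ) : ZMod 2) = 1 := by
    intro a
    rcases Int.units_eq_one_or a with h | h
    · rw [h]; rfl
    · rw [h]; decide
  exact h2 _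

theorem cnt_eq (κ : (Fin 2 × Fin h) ⊕ Fin r ≃ Fin n) (hκ : StrictMono fun l => κ (Sum.inr l))
    (a : Fin r) : cnt κ (κ (Sum.inr a)).val = a.val := by
  unfold cnt
  have h1 : (univ.filter fun l : Fin r => (κ (Sum.inr l)).val < (κ (Sum.inr a)).val) =
      (univ.filter fun l' : Fin r => l'.val < a.val) := by
    ext l
    rw [Finset.mem_filter, Finset.mem_filter]
    simp only [Finset.mem_univ, true_and]
    exact hκ.lt_iff_lt
  rw [h1, card_filter_lt r _ a.2.le]

/-- The product of the corner minors does not depend on the cuts. -/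
theorem prod_lead (κ : (Fin 2 × Fin h) ⊕ Fin r ≃ Fin n)
    (hκ : StrictMono fun l => κ (Sum.inr l)) (I : Finset ℕ)
    (hI : ∀ l, (κ (Sum.inr l)).val = 0 ∨ (κ (Sum.inr l)).val ∈ I)
    {x : Matrix (Fin r) (Fin r) (ZMod 2)} (hx : LU x) :
    ∏ k ∈ I, lead (cnt κ k) (x.submatrix Fin.rev id) =
      ∏ a ∈ Finset.Ico 1 r, lead a (x.submatrix Fin.rev id) := by
  have h01 : ∀ a : ZMod 2, a ≠ 0 → a = 1 := by decide
  by_cases hall : ∀ a ∈ Finset.Ico 1 r, lead a (x.submatrix Fin.rev id) ≠ 0
  · rw [Finset.prod_eq_one fun a ha => h01 _ (hall a ha)]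
    refine Finset.prod_eq_one fun k _ => ?_
    have hle := cnt_le κ k
    rcases Nat.eq_zero_or_pos (cnt κ k) with h1 | h1
    · rw [h1, lead_zero]
    · rcases Nat.lt_or_ge (cnt κ k) r with h2 | h2
      · exact h01 _ (hall _ (Finset.mem_Ico.2 ⟨h1, h2⟩))
      · have h3 : cnt κ k = r := le_antisymm hle h2
        rw [h3, lead_self, det_rev_ne_zero hx]
  · push Not at hall
    obtain ⟨a, ha, ha0⟩ := hall
    rw [Finset.prod_eq_zero ha ha0]
    rw [Finset.mem_Ico] at ha
    set a' : Fin r := ⟨a, ha.2⟩ with ha'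
    have hk : (κ (Sum.inr a')).val ∈ I := by
      rcases hI a' with h1 | h1
      · exfalso
        have h2 : (κ (Sum.inr (⟨0, by omega⟩ : Fin r))).val < (κ (Sum.inr a')).val :=
          hκ (by change 0 < a; omega)
        omega
      · exact h1
    refine Finset.prod_eq_zero hk ?_
    rw [cnt_eq κ hκ]
    exact ha0

end Pool.Agent.H916_LN2
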