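import Pool.Agent.H916_LN2.Uniq

/-! # Extraction of coefficients from products of leading minors -/

set_option autoImplicit false

namespace Pool.Agent.H916_LN2

open Finset Matrix

set_option linter.unusedSectionVars false

/-- The leading minor of size `k`. -/
def lead {n : ℕ} {K : Type*} [CommRing K] (k : ℕ) (A : Matrix (Fin n) (Fin n) K) : K :=
  (A.toSquareBlockProp (fun i => i.val < k)).det

/-- Expansion of the determinant of a product with respect to the columns. -/
theorem det_expand {p σ K : Type*} [Fintype p] [DecidableEq p] [Fintype σ] [DecidableEq σ]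
    [CommRing K] (h : Matrix p σ K) (y : Matrix σ p K) :
    (h * y).det = ∑ c : p → σ, (∏ b, y (c b) b) * (of fun a b => h a (c b)).det := by
  rw [← det_transpose]
  have h1 : (h * y)ᵀ = of fun b => ∑ r : σ, (y r b • (fun a => h a r) : p → K) := by
    ext b a
    simp only [transpose_apply, Matrix.mul_apply, of_apply, Finset.sum_apply, Pi.smul_apply,
      smul_eq_mul]
    exact Finset.sum_congr rfl fun r _ => mul_comm _ _
  rw [h1]
  have h2 := (detRowAlternating (n := p) (R := K)).toMultilinearMap.map_sum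
    (fun (b : p) (r : σ) => (y r b • (fun a => h a r) : p → K))
  have h3 : (of fun b => ∑ r : σ, (y r b • (fun a => h a r) : p → K)).det =
      (detRowAlternating (n := p) (R := K)).toMultilinearMap
        (fun b => ∑ r : σ, (y r b • (fun a => h a r) : p → K)) := rfl
  rw [h3, h2]
  refine Finset.sum_congr rfl fun c _ => ?_
  rw [MultilinearMap.map_smul_univ, smul_eq_mul]
  congr 1
  rw [← det_transpose]
  rfl

variable {n : ℕ} {K : Type*} [CommRing K] {ι : Type*} [Fintype ι] [DecidableEq ι]

open Classical in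
/-- The extraction lemma. -/
theorem extract [CharP K 2] (ht : ι → ℕ) (hinj : Function.Injective ht) (hle : ∀ i, ht i ≤ n)
    (Y : Fin n → Type) [∀ b, Fintype (Y b)] (C : ∀ b, Y b → Fin n → K) (ψ : ∀ b, Y b → K)
    (E : ∀ (b : Fin n) (c : {i : ι // b.val < ht i} → Fin n),
      ∑ y, ψ b y * ∏ i, C b y (c i) =
        if (∀ v : ℕ, (∃ i, (c i).val = v) ↔ ∃ i : {i : ι // b.val < ht i},
          v = ht i.1 - 1 - b.val) then 1 else 0)
    (H : Matrix (Fin n) (Fin n) K) :
    ∑ y : (∀ b, Y b), (∏ b, ψ b (y b)) *
        ∏ i, lead (ht i) (H * of fun r b => C b (y b) r) = ∏ i, lead (ht i) H := by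
  -- the determinants for a choice of rows
  set d : (∀ i : ι, ({b : Fin n // b.val < ht i} → Fin n)) → ι → K :=
    fun c i => (of fun (a b : {b : Fin n // b.val < ht i}) => H a.1 (c i b)).det with hd
  have h1 : ∀ (y : ∀ b, Y b) (i : ι), lead (ht i) (H * of fun r b => C b (y b) r) =
      ∑ c : ({b : Fin n // b.val < ht i} → Fin n), (∏ b, C b.1 (y b.1) (c b)) *
        (of fun (a b : {b : Fin n // b.val < ht i}) => H a.1 (c b)).det := by
    intro y i
    have h2 := det_expand (p := {b : Fin n // b.val < ht i}) (σ := Fin n)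
      (of fun a r => H a.1 r) (of fun r b => C b.1 (y b.1) r)
    rw [lead]
    have h3 : (H * of fun r b => C b (y b) r).toSquareBlockProp (fun i' => i'.val < ht i) =
        (of fun (a : {b : Fin n // b.val < ht i}) r => H a.1 r) *
        (of fun r (b : {b : Fin n // b.val < ht i}) => C b.1 (y b.1) r) := by
      ext a b
      simp [Matrix.toSquareBlockProp, Matrix.mul_apply]
    rw [h3, h2]
    rfl
  have h2 : ∀ (y : ∀ b, Y b), (∏ b, ψ b (y b)) *
        ∏ i, lead (ht i) (H * of fun r b => C b (y b) r) =
      ∑ c : (∀ i : ι, ({b : Fin n // b.val < ht i} → Fin n)),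
        (∏ i, d c i) * ∏ b, (ψ b (y b) * ∏ i : {i : ι // b.val < ht i},
          C b (y b) (c i.1 ⟨b, i.2⟩)) := by
    intro y
    simp only [h1]
    rw [Fintype.prod_sum, Finset.mul_sum]
    refine Finset.sum_congr rfl fun c _ => ?_
    rw [Finset.prod_mul_distrib, Finset.prod_mul_distrib]
    have h3 : ∏ i : ι, ∏ b : {b : Fin n // b.val < ht i}, C b.1 (y b.1) (c i b) =
        ∏ b : Fin n, ∏ i : {i : ι // b.val < ht i}, C b (y b) (c i.1 ⟨b, i.2⟩) := by
      have h4 : ∀ i : ι, ∏ b : {b : Fin n // b.val < ht i}, C b.1 (y b.1) (c i b) =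
          ∏ b : Fin n, if hb : b.val < ht i then C b (y b) (c i ⟨b, hb⟩) else 1 := by
        intro i
        rw [Fintype.prod_dite]
        simp
      have h5 : ∀ b : Fin n, ∏ i : {i : ι // b.val < ht i}, C b (y b) (c i.1 ⟨b, i.2⟩) =
          ∏ i : ι, if hb : b.val < ht i then C b (y b) (c i ⟨b, hb⟩) else 1 := by
        intro b
        rw [Fintype.prod_dite]
        simp
      simp only [h4, h5]
      exact Finset.prod_comm
    rw [h3]
    ring
  simp only [h2]
  rw [Finset.sum_comm]
  have h3 : ∀ c : (∀ i : ι, ({b : Fin n // b.val < ht i} → Fin n)),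
      ∑ y : (∀ b, Y b), (∏ i, d c i) * ∏ b, (ψ b (y b) * ∏ i : {i : ι // b.val < ht i},
          C b (y b) (c i.1 ⟨b, i.2⟩)) =
      (∏ i, d c i) * ∏ b : Fin n, (if (∀ v : ℕ, (∃ i : {i : ι // b.val < ht i},
          (c i.1 ⟨b, i.2⟩).val = v) ↔ ∃ i : {i : ι // b.val < ht i},
          v = ht i.1 - 1 - b.val) then 1 else 0) := by
    intro c
    rw [← Finset.mul_sum]
    congr 1
    rw [← Fintype.prod_sum (fun b y => ψ b y * ∏ i : {i : ι // b.val < ht i},
          C b y (c i.1 ⟨b, i.2⟩))]
    exact Finset.prod_congr rfl fun b _ => E b _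
  simp only [h3]
  -- the distinguished choice
  set c0 : (∀ i : ι, ({b : Fin n // b.val < ht i} → Fin n)) :=
    fun i b => ⟨ht i - 1 - b.1.val, by have := b.1.2; have := b.2; have := hle i; omega⟩ with hc0
  have hc0val : ∀ i b, (c0 i b).val = ht i - 1 - b.1.val := fun i b => rfl
  rw [Finset.sum_eq_single c0]
  · have h4 : ∏ b : Fin n, (if (∀ v : ℕ, (∃ i : {i : ι // b.val < ht i},
          (c0 i.1 ⟨b, i.2⟩).val = v) ↔ ∃ i : {i : ι // b.val < ht i},
          v = ht i.1 - 1 - b.val) then (1 : K) else 0) = 1 := by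
      refine Finset.prod_eq_one fun b _ => ?_
      rw [if_pos]
      intro v
      simp only [hc0val]
      constructor
      · rintro ⟨i, hi⟩; exact ⟨i, hi.symm⟩
      · rintro ⟨i, hi⟩; exact ⟨i, hi.symm⟩
    rw [h4, mul_one]
    refine Finset.prod_congr rfl fun i _ => ?_
    simp only [hd, lead]
    -- reversal of the columns
    let rev : Equiv.Perm {b : Fin n // b.val < ht i} := Function.Involutive.toPerm
      (fun b => ⟨c0 i b, by rw [hc0val]; have := b.2; have := hle i; omega⟩) (by
        intro b
        apply Subtype.ext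
        apply Fin.ext
        change ht i - 1 - (ht i - 1 - b.1.val) = b.1.val
        have := b.2
        omega)
    have h5 : (of fun (a b : {b : Fin n // b.val < ht i}) => H a.1 (c0 i b)) =
        (H.toSquareBlockProp (fun i' => i'.val < ht i)).submatrix id rev := by
      ext a b
      rfl
    rw [h5, det_permute']
    have h6 : ((Equiv.Perm.sign rev : ℤˣ) : ℤ) = 1 ∨ ((Equiv.Perm.sign rev : ℤˣ) : ℤ) = -1 := by
      rcases Int.units_eq_one_or (Equiv.Perm.sign rev) with h | h
      · left; rw [h]; rfl
      · right; rw [h]; rfl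
    have h7 : (((Equiv.Perm.sign rev : ℤˣ) : ℤ) : K) = 1 := by
      rcases h6 with h | h
      · rw [h]; simp
      · rw [h]
        have h8 : (2 : K) = 0 := CharTwo.two_eq_zero
        push_cast
        linear_combination -h8
    rw [h7, one_mul]
  · intro c _ hc
    by_contra hne
    apply hc
    have hcond : ∀ b : Fin n, ∀ v : ℕ, (∃ i : {i : ι // b.val < ht i},
          (c i.1 ⟨b, i.2⟩).val = v) ↔ ∃ i : {i : ι // b.val < ht i},
          v = ht i.1 - 1 - b.val := by
      intro b
      by_contra hb
      apply hne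
      rw [Finset.prod_eq_zero (i := b) (Finset.mem_univ b) (if_neg hb), mul_zero]
    have hdet : ∀ i, d c i ≠ 0 := by
      intro i hi
      apply hne
      rw [Finset.prod_eq_zero (i := i) (Finset.mem_univ i) hi, zero_mul]
    have hcinj : ∀ i, Function.Injective (c i) := by
      intro i a b hab
      by_contra hab'
      apply hdet i
      simp only [hd]
      exact det_zero_of_column_eq hab' (fun k => by simp only [of_apply, hab])
    set F : ι → Fin n → ℕ := fun i b => if hb : b.val < ht i then (c i ⟨b, hb⟩).val else 0 with hF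
    have hFval : ∀ i (b : Fin n) (hb : b.val < ht i), F i b = (c i ⟨b, hb⟩).val := by
      intro i b hb
      simp only [hF, dif_pos hb]
    have key := filling_unique (n := n) ht hinj hle F (by
      intro b v
      constructor
      · rintro ⟨i, hi, hv⟩
        rw [hFval i b hi] at hv
        obtain ⟨j, hj⟩ := (hcond b v).1 ⟨⟨i, hi⟩, hv⟩
        exact ⟨j.1, j.2, hj⟩
      · rintro ⟨i, hi, hv⟩
        obtain ⟨j, hj⟩ := (hcond b v).2 ⟨⟨i, hi⟩, hv⟩
        exact ⟨j.1, j.2, by rw [hFval j.1 b j.2]; exact hj⟩) (by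
      intro i a ha b hb hab
      have ha' : a.val < ht i := ha
      have hb' : b.val < ht i := hb
      rw [hFval i a ha', hFval i b hb'] at hab
      have := hcinj i (Fin.ext hab)
      exact congrArg Subtype.val this)
    funext i b
    apply Fin.ext
    rw [hc0val, ← key i b.1 b.2, hFval i b.1 b.2]
  · intro h
    exact absurd (Finset.mem_univ c0) h

end Pool.Agent.H916_LN2
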