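import Pool.Agent.H916_LN2.Fields
import Pool.Agent.H916_LN2.Extract

/-! # The extraction theorem for families with the extraction property -/

set_option autoImplicit false

namespace Pool.Agent.H916_LN2

open Finset Matrix

set_option linter.unusedSectionVars false

/-- Transport of the extraction property along a bijection of the index types. -/
theorem EP_equiv {R R' Y K : Type*} [CommRing K] [Fintype Y] [DecidableEq R] [DecidableEq R']
    {X : R → Y → K} {ψ : Finset R → Y → K} (h : EP X ψ) (κ : R ≃ R') :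
    EP (fun v y => X (κ.symm v) y) (fun S y => ψ (S.map κ.symm.toEmbedding) y) := by
  intro m S hm
  have h1 := h (m.map κ.symm) (S.map κ.symm.toEmbedding) (by
    rw [Multiset.card_map, Finset.card_map]; exact hm)
  have h2 : (m.map κ.symm = (S.map κ.symm.toEmbedding).val) ↔ m = S.val := by
    rw [Finset.map_val]
    exact (Multiset.map_injective κ.symm.injective).eq_iff
  simp only [h2] at h1
  rw [← h1]
  refine Finset.sum_congr rfl fun y _ => ?_
  rw [Multiset.map_map]
  rfl

variable {n : ℕ} {K : Type*} [CommRing K] {ι : Type*} [Fintype ι] [DecidableEq ι]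

/-- The set of positions for a column. -/
def Sb (ht : ι → ℕ) (b : Fin n) : Finset (Fin n) :=
  univ.filter fun v : Fin n => ∃ i : ι, b.val < ht i ∧ v.val = ht i - 1 - b.val

theorem card_Sb (ht : ι → ℕ) (hinj : Function.Injective ht) (hle : ∀ i, ht i ≤ n) (b : Fin n) :
    (Sb ht b).card = Fintype.card {i : ι // b.val < ht i} := by
  rw [← Finset.card_univ]
  symm
  refine Finset.card_bij (fun i _ => (⟨ht i.1 - 1 - b.val, by
    have := b.2; have := hle i.1; have := i.2; omega⟩ : Fin n)) ?_ ?_ ?_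
  · intro i _
    rw [Sb, Finset.mem_filter]
    exact ⟨Finset.mem_univ _, i.1, i.2, rfl⟩
  · intro i _ j _ hij
    have h1 : ht i.1 - 1 - b.val = ht j.1 - 1 - b.val := congrArg Fin.val hij
    have := i.2
    have := j.2
    exact Subtype.ext (hinj (by omega))
  · intro v hv
    rw [Sb, Finset.mem_filter] at hv
    obtain ⟨_, i, hi, hvi⟩ := hv
    exact ⟨⟨i, hi⟩, Finset.mem_univ _, Fin.ext hvi.symm⟩

open Classical in
theorem E_of_EP (ht : ι → ℕ) (hinj : Function.Injective ht) (hle : ∀ i, ht i ≤ n)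
    {Y : Type*} [Fintype Y] (X : Fin n → Y → K) (ψ : Finset (Fin n) → Y → K) (h : EP X ψ)
    (b : Fin n) (c : {i : ι // b.val < ht i} → Fin n) :
      ∑ y, ψ (Sb ht b) y * ∏ i, X (c i) y =
        if (∀ v : ℕ, (∃ i, (c i).val = v) ↔ ∃ i : {i : ι // b.val < ht i},
          v = ht i.1 - 1 - b.val) then 1 else 0 := by
  set m : Multiset (Fin n) := (univ : Finset {i : ι // b.val < ht i}).val.map c with hm
  have hcard : Multiset.card m = Fintype.card {i : ι // b.val < ht i} := by
    rw [hm, Multiset.card_map]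
    rfl
  have h1 := h m (Sb ht b) (by rw [card_Sb ht hinj hle, hcard])
  have h2 : ∀ y, (m.map fun r => X r y).prod = ∏ i, X (c i) y := by
    intro y
    rw [hm, Multiset.map_map]
    rfl
  simp only [h2] at h1
  have h3 : (m = (Sb ht b).val) ↔ (∀ v : ℕ, (∃ i, (c i).val = v) ↔
      ∃ i : {i : ι // b.val < ht i}, v = ht i.1 - 1 - b.val) := by
    constructor
    · intro hmS v
      have h4 : ∀ v : Fin n, v ∈ m ↔ v ∈ Sb ht b := by
        intro v
        rw [hmS]
        rfl
      have h5 : ∀ v : Fin n, v ∈ m ↔ ∃ i, c i = v := by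
        intro v
        rw [hm, Multiset.mem_map]
        simp
      have h6 : ∀ v : Fin n, v ∈ Sb ht b ↔ ∃ i : ι, b.val < ht i ∧ v.val = ht i - 1 - b.val := by
        intro v
        rw [Sb, Finset.mem_filter]
        simp
      constructor
      · rintro ⟨i, rfl⟩
        obtain ⟨j, hj, hj'⟩ := (h6 _).1 ((h4 _).1 ((h5 (c i)).2 ⟨i, rfl⟩))
        exact ⟨⟨j, hj⟩, hj'⟩
      · rintro ⟨j, rfl⟩
        have hlt : ht j.1 - 1 - b.val < n := by
          have := b.2
          have := hle j.1
          have := j.2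
          omega
        obtain ⟨i, hi⟩ := (h5 ⟨ht j.1 - 1 - b.val, hlt⟩).1 ((h4 _).2 ((h6 _).2 ⟨j.1, j.2, rfl⟩))
        exact ⟨i, by rw [hi]⟩
    · intro hv
      have hsub : (Sb ht b).val ≤ m := by
        rw [Multiset.le_iff_subset (Sb ht b).nodup]
        intro v hvS
        have hvS' : v ∈ Sb ht b := hvS
        rw [Sb, Finset.mem_filter] at hvS'
        obtain ⟨_, i, hi, hvi⟩ := hvS'
        obtain ⟨j, hj⟩ := (hv v.val).2 ⟨⟨i, hi⟩, hvi⟩
        rw [hm, Multiset.mem_map]
        exact ⟨j, Finset.mem_univ_val _, Fin.ext hj⟩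
      refine (Multiset.eq_of_le_of_card_le hsub ?_).symm
      rw [hcard, ← card_Sb ht hinj hle]
      rfl
  rw [h1]
  by_cases h4 : m = (Sb ht b).val
  · rw [if_pos h4, if_pos (h3.1 h4)]
  · rw [if_neg h4, if_neg (fun h5 => h4 (h3.2 h5))]

/-- The extraction theorem. -/
theorem extract_EP [CharP K 2] (ht : ι → ℕ) (hinj : Function.Injective ht)
    (hle : ∀ i, ht i ≤ n) {Y : Type} [Fintype Y] (X : Fin n → Fin n → Y → K)
    (ψ : Fin n → Finset (Fin n) → Y → K) (h : ∀ b, EP (X b) (ψ b))
    (H : Matrix (Fin n) (Fin n) K) :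
    ∑ y : (Fin n → Y), (∏ b, ψ b (Sb ht b) (y b)) *
        ∏ i, lead (ht i) (H * of fun r b => X b r (y b)) = ∏ i, lead (ht i) H := by
  classical
  exact extract ht hinj hle (fun _ => Y) (fun b y r => X b r y) (fun b y => ψ b (Sb ht b) y)
    (fun b c => by
      have := E_of_EP ht hinj hle (X b) (ψ b) (h b) b c
      convert this) H

end Pool.Agent.H916_LN2
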