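import Mathlib

/-! # Reduction of covers without elements of forbidden orders to irreducible modules -/

set_option autoImplicit false

namespace Pool.Agent.H916_LN2

open Finset

set_option linter.unusedSectionVars false

universe u

/-- Orders of powers. -/
theorem exists_order_of_dvd {G : Type*} [Group G] [Finite G] {g : G} {m : ℕ}
    (h : m ∣ orderOf g) : ∃ x : G, orderOf x = m :=
  ⟨g ^ (orderOf g / m), orderOf_pow_orderOf_div (isOfFinOrder_of_finite g).orderOf_pos.ne' h⟩

/-- A linear action from its formulas. -/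
def actHom {p : ℕ} {V : Type*} [AddCommGroup V] [Module (ZMod p) V] {G : Type*} [Group G]
    (a : G → V → V) (hadd : ∀ g x y, a g (x + y) = a g x + a g y) (hone : ∀ x, a 1 x = x)
    (hmul : ∀ g h x, a (g * h) x = a g (a h x)) : G →* (V →ₗ[ZMod p] V) where
  toFun g := AddMonoidHom.toZModLinearMap p (AddMonoidHom.mk' (a g) (hadd g))
  map_one' := LinearMap.ext fun x => hone x
  map_mul' g h := LinearMap.ext fun x => hmul g h x

theorem actHom_apply {p : ℕ} {V : Type*} [AddCommGroup V] [Module (ZMod p) V] {G : Type*}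
    [Group G] (a : G → V → V) (hadd : ∀ g x y, a g (x + y) = a g x + a g y)
    (hone : ∀ x, a 1 x = x) (hmul : ∀ g h x, a (g * h) x = a g (a h x)) (g : G) (x : V) :
    actHom (p := p) a hadd hone hmul g x = a g x := rfl

/-- The action on an elementary abelian kernel. -/
theorem module_step' {G : Type u} [Group G] {L : Type*} [Group L] (φ : G →* L)
    (hφ : Function.Surjective φ) {p : ℕ} (hab : ∀ a ∈ φ.ker, ∀ b ∈ φ.ker, a * b = b * a)
    {V : Type u} [AddCommGroup V] [Module (ZMod p) V] (e : V ≃ φ.ker)
    (he : ∀ a b, e (a + b) = e a * e b) :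
    ∃ (ρ : L →* (V →ₗ[ZMod p] V)),
      ∀ g v, ((e (ρ (φ g) v) : φ.ker) : G) = g * (e v : G) * g⁻¹ := by
  have hNn : φ.ker.Normal := MonoidHom.normal_ker φ
  let a : G → V → V := fun g x => e.symm ((MulAut.conjNormal g : MulAut φ.ker) (e x))
  let c : G →* (V →ₗ[ZMod p] V) := actHom a (by
      intro g x y
      change e.symm _ = e.symm _ + e.symm _
      rw [Equiv.symm_apply_eq, he, he, map_mul, Equiv.apply_symm_apply, Equiv.apply_symm_apply])
    (by
      intro x
      change e.symm _ = x
      rw [Equiv.symm_apply_eq, map_one]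
      rfl)
    (by
      intro g h x
      change e.symm _ = e.symm ((MulAut.conjNormal g : MulAut φ.ker) (e (e.symm
        ((MulAut.conjNormal h : MulAut φ.ker) (e x)))))
      rw [Equiv.apply_symm_apply, map_mul]
      rfl)
  have hc : ∀ (g : G) (x : V), ((e (c g x) : φ.ker) : G) = g * ((e x : φ.ker) : G) * g⁻¹ := by
    intro g x
    change ((e (e.symm ((MulAut.conjNormal g : MulAut φ.ker) (e x))) : φ.ker) : G) = _
    rw [Equiv.apply_symm_apply]
    exact MulAut.conjNormal_apply g _
  have hker : φ.ker ≤ c.toHomUnits.ker := by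
    intro g hg
    rw [MonoidHom.mem_ker]
    apply Units.ext
    refine LinearMap.ext fun x => ?_
    rw [Units.val_one, Module.End.one_apply, MonoidHom.coe_toHomUnits]
    apply e.injective
    apply Subtype.ext
    rw [hc, hab g hg _ (e x).2, mul_inv_cancel_right]
  let ρ' : L →* (V →ₗ[ZMod p] V)ˣ := (MonoidHom.liftOfSurjective φ hφ) ⟨c.toHomUnits, hker⟩
  have hρ' : ∀ g, ρ' (φ g) = c.toHomUnits g := fun g =>
      MonoidHom.liftOfRightInverse_comp_apply φ _ (Function.rightInverse_surjInv hφ)
        ⟨c.toHomUnits, hker⟩ g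
  refine ⟨(Units.coeHom _).comp ρ', ?_⟩
  intro g v
  rw [MonoidHom.comp_apply, hρ']
  exact hc g v

/-- The module structure on an elementary abelian kernel. -/
theorem module_step {G : Type u} [Group G] {L : Type*} [Group L] (φ : G →* L)
    (hφ : Function.Surjective φ) {p : ℕ} (hab : ∀ a ∈ φ.ker, ∀ b ∈ φ.ker, a * b = b * a)
    (hexp : ∀ a ∈ φ.ker, a ^ p = 1) :
    ∃ (V : Type u) (_ : AddCommGroup V) (_ : Module (ZMod p) V) (e : V ≃ φ.ker)
      (ρ : L →* (V →ₗ[ZMod p] V)), (∀ a b, e (a + b) = e a * e b) ∧
      ∀ g v, ((e (ρ (φ g) v) : φ.ker) : G) = g * (e v : G) * g⁻¹ := by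
  let A : CommGroup φ.ker := { (inferInstance : Group φ.ker) with
      mul_comm := fun a b => Subtype.ext (hab a.1 a.2 b.1 b.2) }
  let iV : AddCommGroup (Additive φ.ker) := @Additive.addCommGroup φ.ker A
  let iM : Module (ZMod p) (Additive φ.ker) := AddCommGroup.zmodModule (by
      intro x
      have h1 : (Additive.toMul x : φ.ker) ^ p = 1 :=
        Subtype.ext (hexp _ (Additive.toMul x : φ.ker).2)
      exact congrArg Additive.ofMul h1)
  have he : ∀ a b : Additive φ.ker, Additive.toMul (a + b) = Additive.toMul a * Additive.toMul b :=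
    fun _ _ => rfl
  obtain ⟨ρ, hρ⟩ := @module_step' G _ L _ φ hφ p hab (Additive φ.ker) iV iM Additive.toMul he
  exact ⟨Additive φ.ker, iV, iM, Additive.toMul, ρ, he, hρ⟩

/-- Lifting elements: an extension by an elementary abelian group has elements of larger order
when the trace does not vanish. -/
theorem lift_order {G : Type u} [Group G] [Finite G] {L : Type*} [Group L] (φ : G →* L)
    (hφ : Function.Surjective φ) {p : ℕ} (hp : p.Prime)
    (hexp : ∀ a ∈ φ.ker, a ^ p = 1) (S : ℕ → G → G → G)
    (hS0 : ∀ g v, S 0 g v = 1) (hS : ∀ k g v, S (k + 1) g v = S k g v * (g ^ k * v * (g ^ k)⁻¹))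
    (x : L) (hx : 0 < orderOf x) (v : G) (hv : v ∈ φ.ker)
    (hne : ∀ g, φ g = x → S (orderOf x) g v ≠ 1) : ∃ g : G, orderOf g = p * orderOf x := by
  obtain ⟨g, rfl⟩ := hφ x
  set k := orderOf (φ g) with hk
  have key : ∀ y : G, φ y = φ g → y ^ k ≠ 1 → orderOf y = p * k := by
    intro y hy hyk
    have h1 : y ^ k ∈ φ.ker := by
      rw [MonoidHom.mem_ker, map_pow, hy, hk, pow_orderOf_eq_one]
    have h2 : orderOf (y ^ k) = p := by
      have : Fact p.Prime := ⟨hp⟩
      exact orderOf_eq_prime (hexp _ h1) hyk
    have h3 : k ∣ orderOf y := by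
      rw [hk, ← hy]
      exact orderOf_map_dvd φ y
    have h4 : orderOf (y ^ k) = orderOf y / k := orderOf_pow_of_dvd hx.ne' h3
    rw [h2] at h4
    obtain ⟨c, hc⟩ := h3
    rw [hc, Nat.mul_div_cancel_left _ hx] at h4
    rw [hc, h4, mul_comm]
  by_cases hgk : g ^ k = 1
  · refine ⟨v * g, key _ ?_ ?_⟩
    · rw [map_mul, (MonoidHom.mem_ker).1 hv, one_mul]
    · have h1 : ∀ j : ℕ, (v * g) ^ j = S j g v * g ^ j := by
        intro j
        induction j with
        | zero => rw [pow_zero, pow_zero, hS0, mul_one]
        | succ j ih =>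
          rw [pow_succ, ih, hS, pow_succ]
          group
      rw [h1, hgk, mul_one]
      exact hne g rfl
  · exact ⟨g, key g rfl hgk⟩

/-- The reduction of covers to irreducible modules. -/
theorem reduction {L : Type*} [Group L] [Finite L] (Bad : Set ℕ)
    (hmod : ∀ (p : ℕ) (_ : p.Prime) (V : Type u) [AddCommGroup V] [Module (ZMod p) V]
      [Finite V] [Nontrivial V] (ρ : L →* (V →ₗ[ZMod p] V)),
      (∀ W : Submodule (ZMod p) V, (∀ g, ∀ w ∈ W, ρ g w ∈ W) → W = ⊥ ∨ W = ⊤) →
      ∃ x : L, p * orderOf x ∈ Bad ∧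
        ∃ v : V, ∑ i ∈ Finset.range (orderOf x), ρ (x ^ i) v ≠ 0) (k : ℕ) :
    ∀ (G : Type u) [Group G] [Finite G] (φ : G →* L), Function.Surjective φ → Nat.card G = k →
      (∀ g : G, orderOf g ∉ Bad) → Function.Injective φ := by
  induction k using Nat.strong_induction_on with
  | _ k ih =>
    intro G _ _ φ hφ hk hG
    by_contra hinj
    set N : Subgroup G := φ.ker with hN
    have hNbot : N ≠ ⊥ := fun h => hinj ((MonoidHom.ker_eq_bot_iff φ).1 h)
    -- quotients
    have hquot : ∀ K : Subgroup G, K.Normal → K ≤ N → K ≠ ⊥ → N ≤ K := by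
      intro K hKn hKN hK
      let φ' : G ⧸ K →* L := QuotientGroup.lift K φ (fun x hx => hKN hx)
      have h1 : Nat.card (G ⧸ K) < k := by
        have h2 := Subgroup.card_eq_card_quotient_mul_card_subgroup K
        have h3 : 1 < Nat.card K := (Subgroup.one_lt_card_iff_ne_bot K).2 hK
        have h4 : 0 < Nat.card (G ⧸ K) := Nat.card_pos
        rw [← hk, h2]
        nlinarith
      have h2 : Function.Injective φ' := by
        refine ih _ h1 (G ⧸ K) φ' ?_ rfl ?_
        · intro l
          obtain ⟨g, rfl⟩ := hφ l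
          exact ⟨(g : G ⧸ K), rfl⟩
        · intro q hq
          obtain ⟨g, rfl⟩ := QuotientGroup.mk_surjective q
          have h3 : orderOf ((g : G ⧸ K)) ∣ orderOf g := orderOf_map_dvd (QuotientGroup.mk' K) g
          obtain ⟨x, hx⟩ := exists_order_of_dvd h3
          exact hG x (hx ▸ hq)
      intro g hg
      have h3 : φ' (g : G ⧸ K) = φ' 1 := by
        rw [map_one]
        exact hg
      have h4 := h2 h3
      exact (QuotientGroup.eq_one_iff g).1 h4
    -- subgroups
    have hsub : ∀ H : Subgroup G, H ⊔ N = ⊤ → H ≠ ⊤ → H ⊓ N = ⊥ := by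
      intro H hHN hH
      have h1 : Nat.card H < k := by
        rw [← hk]
        refine lt_of_le_of_ne (Subgroup.card_le_card_group H) ?_
        intro h2
        exact hH ((Subgroup.card_eq_iff_eq_top H).1 h2)
      have h2 : Function.Injective (φ.comp H.subtype) := by
        refine ih _ h1 H (φ.comp H.subtype) ?_ rfl ?_
        · intro l
          obtain ⟨g, rfl⟩ := hφ l
          have hg : g ∈ H ⊔ N := by rw [hHN]; trivial
          obtain ⟨a, ha, b, hb, rfl⟩ := (Subgroup.mem_sup_of_normal_right).1 hg
          refine ⟨⟨a, ha⟩, ?_⟩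
          rw [map_mul, (MonoidHom.mem_ker).1 hb, mul_one]
          rfl
        · intro g hg
          exact hG (g : G) (by rw [Subgroup.orderOf_coe]; exact hg)
      rw [eq_bot_iff]
      intro g hg
      rw [Subgroup.mem_inf] at hg
      have h3 : (φ.comp H.subtype) ⟨g, hg.1⟩ = (φ.comp H.subtype) 1 := by
        rw [map_one]
        exact hg.2
      have h4 := congrArg Subtype.val (h2 h3)
      exact h4
    -- the kernel is a p-group
    have hcard : 1 < Nat.card N := (Subgroup.one_lt_card_iff_ne_bot N).2 hNbot
    obtain ⟨p, hp, hpd⟩ := Nat.exists_prime_and_dvd hcard.ne'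
    have hpf : Fact p.Prime := ⟨hp⟩
    obtain ⟨P⟩ : Nonempty (Sylow p N) := inferInstance
    set P' : Subgroup G := (P : Subgroup N).map N.subtype with hP'
    have hP'N : P' ≤ N := by
      rw [hP']
      exact Subgroup.map_subtype_le _
    have hPbot : P' ≠ ⊥ := by
      intro h1
      have h2 : (P : Subgroup N) = ⊥ := by
        rw [hP', Subgroup.map_eq_bot_iff_of_injective _ N.subtype_injective] at h1
        exact h1
      have h3 : p ∣ Nat.card (P : Subgroup N) := P.dvd_card_of_dvd_card hpd
      rw [h2, Subgroup.card_bot] at h3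
      exact hp.one_lt.ne' (Nat.dvd_one.1 h3)
    have hfrat := Sylow.normalizer_sup_eq_top P
    have hnorm : Subgroup.normalizer (P' : Set G) = ⊤ := by
      by_contra h1
      have h2 := hsub _ hfrat h1
      apply hPbot
      rw [eq_bot_iff, ← h2]
      exact le_inf Subgroup.le_normalizer hP'N
    have hP'norm : P'.Normal := Subgroup.normalizer_eq_top_iff.1 hnorm
    have hNP : N ≤ P' := hquot P' hP'norm hP'N hPbot
    have hNp : IsPGroup p N := by
      have h1 : IsPGroup p P' := P.2.map _
      exact h1.to_le hNP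
    have hNnt : Nontrivial N := (Subgroup.nontrivial_iff_ne_bot N).2 hNbot
    -- the kernel is abelian
    have hab : ∀ a ∈ N, ∀ b ∈ N, a * b = b * a := by
      let Z : Subgroup G := (Subgroup.center N).map N.subtype
      have hZN : Z ≤ N := Subgroup.map_subtype_le _
      have hZmem : ∀ g, g ∈ Z ↔ g ∈ N ∧ ∀ b ∈ N, b * g = g * b := by
        intro g
        constructor
        · rintro ⟨z, hz, rfl⟩
          refine ⟨z.2, fun b hb => ?_⟩
          have h1 := (Subgroup.mem_center_iff.1 hz) ⟨b, hb⟩
          exact congrArg Subtype.val h1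
        · rintro ⟨hg, hb⟩
          refine ⟨⟨g, hg⟩, ?_, rfl⟩
          exact Subgroup.mem_center_iff.2 fun b => Subtype.ext (hb b.1 b.2)
      have hNn : N.Normal := MonoidHom.normal_ker φ
      have hZn : Z.Normal := by
        refine ⟨fun z hz g => ?_⟩
        rw [hZmem] at hz ⊢
        refine ⟨hNn.conj_mem z hz.1 g, fun b hb => ?_⟩
        have h1 := hz.2 (g⁻¹ * b * g) (by
          have := hNn.conj_mem b hb g⁻¹
          rwa [inv_inv] at this)
        calc b * (g * z * g⁻¹) = g * ((g⁻¹ * b * g) * z) * g⁻¹ := by group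
          _ = g * (z * (g⁻¹ * b * g)) * g⁻¹ := by rw [h1]
          _ = g * z * g⁻¹ * b := by group
      have hZbot : Z ≠ ⊥ := by
        intro h1
        have h2 : Subgroup.center N = ⊥ := by
          rwa [Subgroup.map_eq_bot_iff_of_injective _ N.subtype_injective] at h1
        have h3 := hNp.center_nontrivial
        rw [h2] at h3
        exact not_nontrivial _ h3
      have h1 := hquot Z hZn hZN hZbot
      intro a ha b hb
      exact (((hZmem b).1 (h1 hb)).2 a ha)
    -- the kernel is elementary
    have hexp : ∀ a ∈ N, a ^ p = 1 := by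
      let E : Subgroup G :=
        { carrier := {g | g ∈ N ∧ g ^ p = 1}
          mul_mem' := by
            rintro a b ⟨ha, ha'⟩ ⟨hb, hb'⟩
            refine ⟨N.mul_mem ha hb, ?_⟩
            have h1 : Commute a b := hab a ha b hb
            rw [h1.mul_pow, ha', hb', one_mul]
          one_mem' := ⟨N.one_mem, one_pow _⟩
          inv_mem' := by
            rintro a ⟨ha, ha'⟩
            refine ⟨N.inv_mem ha, ?_⟩
            rw [inv_pow, ha', inv_one] }
      have hNn : N.Normal := MonoidHom.normal_ker φ
      have hEn : E.Normal := by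
        refine ⟨?_⟩
        rintro z ⟨hz, hz'⟩ g
        refine ⟨hNn.conj_mem z hz g, ?_⟩
        rw [conj_pow, hz', mul_one, mul_inv_cancel]
      have hEN : E ≤ N := fun g hg => hg.1
      have hEbot : E ≠ ⊥ := by
        intro h1
        obtain ⟨x, hx⟩ := exists_prime_orderOf_dvd_card' p hpd
        have h2 : (x : G) ∈ E := by
          refine ⟨x.2, ?_⟩
          have h3 : x ^ p = 1 := by rw [← hx, pow_orderOf_eq_one]
          exact congrArg Subtype.val h3
        rw [h1, Subgroup.mem_bot] at h2
        have h3 : x = 1 := Subtype.ext h2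
        rw [h3, orderOf_one] at hx
        exact hp.one_lt.ne hx
      have h1 := hquot E hEn hEN hEbot
      intro a ha
      exact (h1 ha).2
    -- the module
    have hNn : N.Normal := MonoidHom.normal_ker φ
    obtain ⟨V, iV, iM, e, ρ, headd, hρ⟩ := module_step φ hφ hab hexp
    have hVfin : Finite V := Finite.of_equiv _ e.symm
    have hVnt : Nontrivial V := e.nontrivial
    have he0 : e 0 = 1 := by
      have h1 := headd 0 0
      rw [add_zero] at h1
      exact (mul_eq_left.1 h1.symm)
    have heneg : ∀ v, e (-v) = (e v)⁻¹ := by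
      intro v
      have h1 := headd (-v) v
      rw [neg_add_cancel, he0] at h1
      exact eq_inv_of_mul_eq_one_left h1.symm
    obtain ⟨x, hxB, v, hv⟩ := hmod p hp V ρ (by
      intro W hW
      let K : Subgroup G :=
        { carrier := {g | ∃ h : g ∈ N, e.symm (⟨g, h⟩ : N) ∈ W}
          mul_mem' := by
            rintro a b ⟨ha, ha'⟩ ⟨hb, hb'⟩
            refine ⟨N.mul_mem ha hb, ?_⟩
            have h1 : e.symm (⟨a * b, N.mul_mem ha hb⟩ : N) = e.symm ⟨a, ha⟩ + e.symm ⟨b, hb⟩ := by
              rw [Equiv.symm_apply_eq, headd, Equiv.apply_symm_apply, Equiv.apply_symm_apply]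
              rfl
            rw [h1]
            exact W.add_mem ha' hb'
          one_mem' := by
            refine ⟨N.one_mem, ?_⟩
            have h1 : e.symm (⟨1, N.one_mem⟩ : N) = 0 := by
              rw [Equiv.symm_apply_eq, he0]
              rfl
            rw [h1]
            exact W.zero_mem
          inv_mem' := by
            rintro a ⟨ha, ha'⟩
            refine ⟨N.inv_mem ha, ?_⟩
            have h1 : e.symm (⟨a⁻¹, N.inv_mem ha⟩ : N) = - e.symm ⟨a, ha⟩ := by
              rw [Equiv.symm_apply_eq, heneg, Equiv.apply_symm_apply]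
              rfl
            rw [h1]
            exact W.neg_mem ha' }
      have hKn : K.Normal := by
        refine ⟨?_⟩
        rintro z ⟨hz, hz'⟩ g
        refine ⟨hNn.conj_mem z hz g, ?_⟩
        have h1 := hW (φ g) _ hz'
        have h2 : e.symm (⟨g * z * g⁻¹, hNn.conj_mem z hz g⟩ : N) =
            ρ (φ g) (e.symm (⟨z, hz⟩ : N)) := by
          rw [Equiv.symm_apply_eq]
          apply Subtype.ext
          rw [hρ, Equiv.apply_symm_apply]
        rw [h2]
        exact h1
      have hKN : K ≤ N := fun g hg => hg.1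
      by_cases hK : K = ⊥
      · left
        rw [eq_bot_iff]
        intro w hw
        have h1 : ((e w : N) : G) ∈ K := by
          refine ⟨(e w).2, ?_⟩
          have h2 : e.symm (⟨((e w : N) : G), (e w).2⟩ : N) = w := by
            rw [Equiv.symm_apply_eq]
          rw [h2]
          exact hw
        rw [hK, Subgroup.mem_bot] at h1
        have h2 : e w = e 0 := by
          rw [he0]
          exact Subtype.ext h1
        rw [Submodule.mem_bot]
        exact e.injective h2
      · right
        have h1 := hquot K hKn hKN hK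
        rw [eq_top_iff]
        intro w _
        obtain ⟨h2, h3⟩ := h1 (e w).2
        have h4 : e.symm (⟨((e w : N) : G), h2⟩ : N) = w := by
            rw [Equiv.symm_apply_eq]
        rw [h4] at h3
        exact h3)
    -- elements of forbidden order
    let S : ℕ → G → G → G := fun j g v =>
      Nat.rec 1 (fun i s => s * (g ^ i * v * (g ^ i)⁻¹)) j
    have hxpos : 0 < orderOf x := (isOfFinOrder_of_finite x).orderOf_pos
    obtain ⟨g, hg⟩ := lift_order φ hφ hp hexp S (fun _ _ => rfl) (fun _ _ _ => rfl) x hxpos
      ((e v : N) : G) (e v).2 (by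
        intro g hg h1
        apply hv
        have h2 : ∀ j : ℕ, ((e (∑ i ∈ Finset.range j, ρ (x ^ i) v) : N) : G) =
            S j g ((e v : N) : G) := by
          intro j
          induction j with
          | zero =>
            rw [Finset.range_zero, Finset.sum_empty, he0]
            rfl
          | succ j ihj =>
            rw [Finset.sum_range_succ, headd, Subgroup.coe_mul, ihj]
            change _ = S j g _ * (g ^ j * _ * (g ^ j)⁻¹)
            congr 1
            rw [← hg, ← map_pow, hρ]
        have h3 := h2 (orderOf x)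
        rw [h1] at h3
        have h4 : e (∑ i ∈ Finset.range (orderOf x), ρ (x ^ i) v) = e 0 := by
          rw [he0]
          exact Subtype.ext h3
        exact e.injective h4)
    exact hG g (hg ▸ hxB)

end Pool.Agent.H916_LN2
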