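import Mathlib

/-! # Sums of powers of two modulo `2 ^ N - 1`, and power sums over finite fields -/

set_option autoImplicit false

namespace Pool.Agent.H916_LN2

open Finset

theorem sum_two_pow_pos {T : Finset ℕ} (hT : T.Nonempty) : 0 < ∑ x ∈ T, 2 ^ x :=
  Finset.sum_pos (fun _ _ => by positivity) hT

theorem sum_two_pow_le {N : ℕ} {T : Finset ℕ} (hT : ∀ x ∈ T, x < N) :
    ∑ x ∈ T, 2 ^ x ≤ 2 ^ N - 1 := by
  have := Nat.geomSum_lt (m := 2) (n := N) (s := T) le_rfl hT
  omega

theorem eq_of_modEq_pred {q a b : ℕ} (ha : 0 < a) (hb : 0 < b) (ha' : a ≤ q) (hb' : b ≤ q)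
    (h : a ≡ b [MOD q]) : a = b := by
  rcases le_total a b with hab | hab
  · have h1 := (Nat.modEq_iff_dvd' hab).1 h
    have h2 : b - a < q := by omega
    have h3 := Nat.eq_zero_of_dvd_of_lt h1 h2
    omega
  · have h1 := (Nat.modEq_iff_dvd' hab).1 h.symm
    have h2 : a - b < q := by omega
    have h3 := Nat.eq_zero_of_dvd_of_lt h1 h2
    omega

theorem two_pow_mod (N a : ℕ) (hN : 0 < N) (ha : a < N) :
    2 ^ ((a + 1) % N) ≡ 2 ^ a + 2 ^ a [MOD 2 ^ N - 1] := by
  have h0 : 2 ^ a + 2 ^ a = 2 ^ (a + 1) := by ring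
  rw [h0]
  rcases Nat.lt_or_ge (a + 1) N with h | h
  · rw [Nat.mod_eq_of_lt h]
  · have h1 : a + 1 = N := by omega
    rw [h1, Nat.mod_self, pow_zero]
    have h2 : 1 ≤ 2 ^ N := Nat.one_le_two_pow
    exact (Nat.modEq_iff_dvd' h2).2 dvd_rfl

/-- The digit lemma. -/
theorem digit {N : ℕ} (hN : 0 < N) (k : ℕ) : ∀ (s : Multiset ℕ), s.card = k →
    (∀ x ∈ s, x < N) → s ≠ 0 → ∀ (T : Finset ℕ), (∀ x ∈ T, x < N) → T.Nonempty →
    (s.map (fun x => 2 ^ x)).sum ≡ ∑ x ∈ T, 2 ^ x [MOD 2 ^ N - 1] → s.card ≤ T.card →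
    s = T.val := by
  induction k using Nat.strong_induction_on with
  | _ k ih =>
    intro s hk hs hs0 T hT hTne hmod hcard
    by_cases hnd : s.Nodup
    · have h1 : s = (⟨s, hnd⟩ : Finset ℕ).val := rfl
      set T' : Finset ℕ := ⟨s, hnd⟩ with hT'
      have hT'ne : T'.Nonempty := by
        rw [Finset.nonempty_iff_ne_empty]
        intro h
        apply hs0
        have := congrArg Finset.val h
        simpa [hT'] using this
      have h2 : (s.map (fun x => 2 ^ x)).sum = ∑ x ∈ T', 2 ^ x := rfl
      rw [h2] at hmod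
      have h3 := eq_of_modEq_pred (sum_two_pow_pos hT'ne) (sum_two_pow_pos hTne)
        (sum_two_pow_le (N := N) (fun x hx => hs x hx)) (sum_two_pow_le hT) hmod
      have h4 : T' = T := Finset.geomSum_injective (n := 2) le_rfl h3
      rw [← h4]
    · exfalso
      rw [Multiset.nodup_iff_count_le_one] at hnd
      push Not at hnd
      obtain ⟨a, ha⟩ := hnd
      have h1 : Multiset.replicate 2 a ≤ s := Multiset.le_count_iff_replicate_le.1 ha
      obtain ⟨s', rfl⟩ := Multiset.le_iff_exists_add.1 h1
      have haN : a < N := hs a (by simp)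
      have hc : (Multiset.replicate 2 a + s').card = 2 + s'.card := by
        rw [Multiset.card_add, Multiset.card_replicate]
      set s'' : Multiset ℕ := ((a + 1) % N) ::ₘ s' with hs''
      have hc'' : s''.card = s'.card + 1 := by simp [hs'']
      have key := ih s''.card (by omega) s'' rfl (by
        intro x hx
        rw [hs'', Multiset.mem_cons] at hx
        rcases hx with rfl | hx
        · exact Nat.mod_lt _ hN
        · exact hs x (by simp [hx])) (by simp [hs'']) T hT hTne (by
        rw [hs'', Multiset.map_cons, Multiset.sum_cons]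
        refine Nat.ModEq.trans ?_ hmod
        rw [Multiset.map_add, Multiset.sum_add, Multiset.map_replicate, Multiset.sum_replicate]
        refine Nat.ModEq.add_right _ ?_
        have := two_pow_mod N a hN haN
        simpa [two_mul] using this) (by omega)
      have h5 : s''.card = T.card := by rw [key]; rfl
      omega

/-- Power sums over a finite field of characteristic two. -/
theorem sum_pow_field {K : Type*} [Field K] [Fintype K] [CharP K 2] {N : ℕ}
    (hK : Fintype.card K = 2 ^ N) (hN : 0 < N) (e : ℕ) :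
    ∑ z : K, z ^ e = if 0 < e ∧ (2 ^ N - 1) ∣ e then 1 else 0 := by
  classical
  rcases Nat.eq_zero_or_pos e with rfl | he
  · rw [if_neg (by simp)]
    simp only [pow_zero, Finset.sum_const, Finset.card_univ, nsmul_eq_mul, mul_one]
    rw [hK]
    have h2 : (2 : K) = 0 := CharTwo.two_eq_zero
    rw [Nat.cast_pow, Nat.cast_ofNat, h2, zero_pow hN.ne']
  · have h1 : ∑ z : K, z ^ e = ∑ z : Kˣ, ((z : K)) ^ e := by
      rw [← Finset.sum_erase (s := (Finset.univ : Finset K)) (a := 0) (by simp [he.ne'])]
      symm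
      refine Finset.sum_bij (fun z _ => (z : K)) ?_ ?_ ?_ ?_
      · intro z _
        simp
      · intro a _ b _ hab
        exact Units.ext hab
      · intro z hz
        simp only [Finset.mem_erase, Finset.mem_univ, and_true] at hz
        exact ⟨Units.mk0 z hz, Finset.mem_univ _, rfl⟩
      · intro z _
        rfl
    have h2 := FiniteField.sum_pow_units K e
    rw [h1]
    rw [h2, hK]
    by_cases hd : (2 ^ N - 1) ∣ e
    · rw [if_pos hd, if_pos ⟨he, hd⟩]
      have h8 : (2 : K) = 0 := CharTwo.two_eq_zero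
      linear_combination -h8
    · rw [if_neg hd, if_neg (fun h => hd h.2)]

end Pool.Agent.H916_LN2
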