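import Pool.Agent.H916_LN2.Digit

/-! # Extraction weights on vector spaces, on finite fields and on products -/

set_option autoImplicit false

namespace Pool.Agent.H916_LN2

open Finset

/-- The extraction property of a family of coordinates `X` and weights `ψ`. -/
def EP {R Y K : Type*} [CommRing K] [Fintype Y] [DecidableEq R] (X : R → Y → K)
    (ψ : Finset R → Y → K) : Prop :=
  ∀ (m : Multiset R) (S : Finset R), Multiset.card m ≤ S.card →
    ∑ y, ψ S y * (m.map fun r => X r y).prod = if m = S.val then 1 else 0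

/-- Extraction over the prime field. -/
theorem EV {R K : Type*} [CommRing K] [Fintype R] [DecidableEq R] (φ : ZMod 2 →+* K)
    (p : R → ZMod 2) (m : Multiset R) (S : Finset R) (hm : Multiset.card m ≤ S.card) :
    ∑ y : R → ZMod 2, (if ∀ l, l ∉ S → y l = p l then (1 : K) else 0) *
      (m.map fun r => φ (y r)).prod = if m = S.val then 1 else 0 := by
  have h2 : (2 : K) = 0 := by
    have h := map_ofNat φ 2
    have h' : ((OfNat.ofNat 2 : ZMod 2)) = 0 := by decide
    rw [h', map_zero] at h
    exact h.symm
  by_cases hle : S.val ≤ m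
  · have hmS : S.val = m := Multiset.eq_of_le_of_card_le hle hm
    rw [if_pos hmS.symm]
    set y0 : R → ZMod 2 := fun l => if l ∈ S then 1 else p l with hy0
    rw [Finset.sum_eq_single y0]
    · rw [if_pos]
      · rw [one_mul, ← hmS]
        refine Multiset.prod_eq_one ?_
        intro x hx
        rw [Multiset.mem_map] at hx
        obtain ⟨l, hl, rfl⟩ := hx
        have : y0 l = 1 := by simp only [hy0]; rw [if_pos (by simpa using hl)]
        rw [this, map_one]
      · intro l hl
        simp only [hy0]
        rw [if_neg hl]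
    · intro y _ hy
      by_cases hc : ∀ l, l ∉ S → y l = p l
      · have : ∃ l ∈ S, y l = 0 := by
          by_contra hcon
          push Not at hcon
          apply hy
          funext l
          simp only [hy0]
          split_ifs with hl
          · have h3 := hcon l hl
            have h4 : ∀ a : ZMod 2, a ≠ 0 → a = 1 := by decide
            exact h4 _ h3
          · exact hc l hl
        obtain ⟨l, hl, hl0⟩ := this
        rw [← hmS]
        have h5 : (Multiset.map (fun r => φ (y r)) S.val).prod = 0 := by
          refine Multiset.prod_eq_zero ?_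
          rw [Multiset.mem_map]
          exact ⟨l, hl, by rw [hl0, map_zero]⟩
        rw [h5, mul_zero]
      · rw [if_neg hc, zero_mul]
    · intro h
      exact absurd (Finset.mem_univ _) h
  · have hne : m ≠ S.val := fun h => hle (by rw [h])
    rw [if_neg hne]
    have : ∃ l ∈ S, l ∉ m := by
      by_contra hcon
      push Not at hcon
      apply hle
      rw [Multiset.le_iff_subset S.nodup]
      intro l hl
      exact hcon l (by simpa using hl)
    obtain ⟨l0, hl0, hl0m⟩ := this
    have key : ∀ y : R → ZMod 2, ∀ a : ZMod 2,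
        (if ∀ l, l ∉ S → (Function.update y l0 a) l = p l then (1 : K) else 0) *
          (m.map fun r => φ ((Function.update y l0 a) r)).prod =
        (if ∀ l, l ∉ S → y l = p l then (1 : K) else 0) *
          (m.map fun r => φ (y r)).prod := by
      intro y a
      have h1 : (∀ l, l ∉ S → (Function.update y l0 a) l = p l) ↔
          (∀ l, l ∉ S → y l = p l) := by
        refine forall_congr' fun l => ?_
        refine imp_congr_right fun hl => ?_
        rw [Function.update_of_ne]
        rintro rfl
        exact hl hl0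
      have h3 : (m.map fun r => φ ((Function.update y l0 a) r)) = (m.map fun r => φ (y r)) := by
        refine Multiset.map_congr rfl fun r hr => ?_
        rw [Function.update_of_ne]
        rintro rfl
        exact hl0m hr
      rw [h3]
      simp only [h1]
    refine Finset.sum_involution (fun y _ => Function.update y l0 (y l0 + 1)) ?_ ?_ ?_ ?_
    · intro y _
      rw [key]
      have : ∀ a : K, a + a = 0 := fun a => by linear_combination a * h2
      exact this _
    · intro y _ _ h
      have := congrFun h l0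
      rw [Function.update_self] at this
      have h4 : ∀ a : ZMod 2, a + 1 ≠ a := by decide
      exact h4 _ this
    · intro y _
      exact Finset.mem_univ _
    · intro y _
      rw [Function.update_self, Function.update_idem]
      have h4 : ∀ a : ZMod 2, a + 1 + 1 = a := by decide
      rw [h4, Function.update_eq_self]

/-- The weights on a finite field. -/
noncomputable def fweight {R K : Type*} [Field K] (N : ℕ) (e : R → ℕ) (S : Finset R) (z : K) : K :=
  open Classical in
  if S = ∅ then (if z = 0 then 1 else 0) else z ^ (2 ^ N - 1 - ∑ r ∈ S, 2 ^ e r)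

/-- Extraction over a finite field of characteristic two. -/
theorem EF {R K : Type*} [Field K] [Fintype K] [CharP K 2] [DecidableEq R] {N : ℕ}
    (hK : Fintype.card K = 2 ^ N) (hN : 0 < N) (e : R → ℕ) (he : Function.Injective e)
    (heN : ∀ r, e r < N) : EP (fun (r : R) (z : K) => z ^ (2 ^ e r)) (fweight N e) := by
  classical
  intro m S hm
  have hprod : ∀ z : K, (m.map fun r => z ^ (2 ^ e r)).prod = z ^ (m.map fun r => 2 ^ e r).sum := by
    intro z
    induction m using Multiset.induction_on with
    | empty => simp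
    | cons a s ih =>
      rw [Multiset.map_cons, Multiset.prod_cons, Multiset.map_cons, Multiset.sum_cons, pow_add]
      congr 1
      exact ih (by rw [Multiset.card_cons] at hm; omega)
  simp only [hprod]
  by_cases hS : S = ∅
  · subst hS
    have hm0 : m = 0 := by
      rw [← Multiset.card_eq_zero]
      simpa using hm
    subst hm0
    simp [fweight]
  · simp only [fweight, if_neg hS]
    have hSne : S.Nonempty := Finset.nonempty_iff_ne_empty.2 hS
    set T : Finset ℕ := S.image e with hT
    have hsumT : ∑ r ∈ S, 2 ^ e r = ∑ x ∈ T, 2 ^ x := by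
      rw [hT, Finset.sum_image (fun a _ b _ h => he h)]
    have hTN : ∀ x ∈ T, x < N := by
      intro x hx
      rw [hT, Finset.mem_image] at hx
      obtain ⟨r, _, rfl⟩ := hx
      exact heN r
    have hTne : T.Nonempty := by rw [hT]; exact hSne.image e
    have hTle := sum_two_pow_le (N := N) hTN
    have hTpos := sum_two_pow_pos hTne
    rw [hsumT]
    have h1 : ∀ z : K, z ^ (2 ^ N - 1 - ∑ x ∈ T, 2 ^ x) * z ^ (m.map fun r => 2 ^ e r).sum =
        z ^ (2 ^ N - 1 - ∑ x ∈ T, 2 ^ x + (m.map fun r => 2 ^ e r).sum) := by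
      intro z
      rw [pow_add]
    simp only [h1]
    rw [sum_pow_field hK hN]
    by_cases hmS : m = S.val
    · rw [if_pos hmS, if_pos]
      have h2 : (m.map fun r => 2 ^ e r).sum = ∑ x ∈ T, 2 ^ x := by
        rw [hmS, ← hsumT]
        rfl
      rw [h2]
      have h3 : 2 ^ N - 1 - ∑ x ∈ T, 2 ^ x + ∑ x ∈ T, 2 ^ x = 2 ^ N - 1 := by omega
      rw [h3]
      exact ⟨by omega, dvd_rfl⟩
    · rw [if_neg hmS, if_neg]
      rintro ⟨hpos, hdvd⟩
      apply hmS
      by_cases hm0 : m = 0
      · exfalso
        rw [hm0] at hpos hdvd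
        simp only [Multiset.map_zero, Multiset.sum_zero, add_zero] at hpos hdvd
        have := Nat.le_of_dvd hpos hdvd
        omega
      · have hmod : ((m.map e).map (fun x => 2 ^ x)).sum ≡ ∑ x ∈ T, 2 ^ x [MOD 2 ^ N - 1] := by
          rw [Multiset.map_map]
          have h4 : (m.map ((fun x => 2 ^ x) ∘ e)).sum = (m.map fun r => 2 ^ e r).sum := rfl
          rw [h4]
          have h5 : 2 ^ N - 1 - ∑ x ∈ T, 2 ^ x + (m.map fun r => 2 ^ e r).sum ≡ 0
              [MOD 2 ^ N - 1] := (Nat.modEq_zero_iff_dvd).2 hdvd
          have h6 : (2 ^ N - 1 - ∑ x ∈ T, 2 ^ x + (m.map fun r => 2 ^ e r).sum) +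
              ∑ x ∈ T, 2 ^ x ≡ 0 + ∑ x ∈ T, 2 ^ x [MOD 2 ^ N - 1] := h5.add_right _
          rw [zero_add] at h6
          have h7 : (2 ^ N - 1 - ∑ x ∈ T, 2 ^ x + (m.map fun r => 2 ^ e r).sum) +
              ∑ x ∈ T, 2 ^ x = (2 ^ N - 1) + (m.map fun r => 2 ^ e r).sum := by omega
          rw [h7] at h6
          have h8 : (2 ^ N - 1) + (m.map fun r => 2 ^ e r).sum ≡
              0 + (m.map fun r => 2 ^ e r).sum [MOD 2 ^ N - 1] :=
            Nat.ModEq.add_right _ ((Nat.modEq_zero_iff_dvd).2 dvd_rfl)
          rw [zero_add] at h8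
          exact h8.symm.trans h6
        have hd := digit hN _ (m.map e) rfl (by
          intro x hx
          rw [Multiset.mem_map] at hx
          obtain ⟨r, _, rfl⟩ := hx
          exact heN r) (by
          intro h
          apply hm0
          exact Multiset.map_eq_zero.1 h) T hTN hTne hmod (by
          rw [Multiset.card_map, hT, Finset.card_image_of_injective _ he]
          exact hm)
        have h9 : T.val = S.val.map e := by
          rw [hT]
          exact Finset.image_val_of_injOn (fun a _ b _ h => he h)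
        rw [h9] at hd
        exact Multiset.map_injective he hd

/-- The left part of a multiset of a sum type. -/
def mleft {R₁ R₂ : Type*} (m : Multiset (R₁ ⊕ R₂)) : Multiset R₁ := m.filterMap Sum.getLeft?

/-- The right part of a multiset of a sum type. -/
def mright {R₁ R₂ : Type*} (m : Multiset (R₁ ⊕ R₂)) : Multiset R₂ := m.filterMap Sum.getRight?

theorem m_split {R₁ R₂ : Type*} (m : Multiset (R₁ ⊕ R₂)) :
    m = (mleft m).map Sum.inl + (mright m).map Sum.inr := by
  induction m using Multiset.induction_on with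
  | empty => simp [mleft, mright]
  | cons a s ih =>
    rcases a with a | a
    · have h1 : mleft (Sum.inl a ::ₘ s) = a ::ₘ mleft s := by
        unfold mleft
        rw [Multiset.filterMap_cons_some Sum.getLeft? _ _ (b := a) rfl]
      have h2 : mright (Sum.inl a ::ₘ s) = mright s := by
        unfold mright
        rw [Multiset.filterMap_cons_none _ _ rfl]
      rw [h1, h2, Multiset.map_cons, Multiset.cons_add, ← ih]
    · have h1 : mleft (Sum.inr a ::ₘ s) = mleft s := by
        unfold mleft
        rw [Multiset.filterMap_cons_none _ _ rfl]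
      have h2 : mright (Sum.inr a ::ₘ s) = a ::ₘ mright s := by
        unfold mright
        rw [Multiset.filterMap_cons_some Sum.getRight? _ _ (b := a) rfl]
      rw [h1, h2, Multiset.map_cons, Multiset.add_cons, ← ih]

theorem mleft_map {R₁ R₂ : Type*} (m₁ : Multiset R₁) (m₂ : Multiset R₂) :
    mleft (m₁.map Sum.inl + m₂.map Sum.inr) = m₁ := by
  unfold mleft
  rw [Multiset.filterMap_add, Multiset.filterMap_map, Multiset.filterMap_map]
  have h1 : ((Sum.getLeft? : R₁ ⊕ R₂ → Option R₁) ∘ Sum.inl) = some := rfl
  have h2 : ((Sum.getLeft? : R₁ ⊕ R₂ → Option R₁) ∘ Sum.inr) = fun _ => none := rfl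
  rw [h1, h2, Multiset.filterMap_some]
  have h3 : ∀ m : Multiset R₂, Multiset.filterMap (fun _ => (none : Option R₁)) m = 0 := by
    intro m
    induction m using Multiset.induction_on with
    | empty => rfl
    | cons a s ih => rw [Multiset.filterMap_cons_none _ _ rfl, ih]
  rw [h3, add_zero]

theorem mright_map {R₁ R₂ : Type*} (m₁ : Multiset R₁) (m₂ : Multiset R₂) :
    mright (m₁.map Sum.inl + m₂.map Sum.inr) = m₂ := by
  unfold mright
  rw [Multiset.filterMap_add, Multiset.filterMap_map, Multiset.filterMap_map]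
  have h1 : ((Sum.getRight? : R₁ ⊕ R₂ → Option R₂) ∘ Sum.inl) = fun _ => none := rfl
  have h2 : ((Sum.getRight? : R₁ ⊕ R₂ → Option R₂) ∘ Sum.inr) = some := rfl
  rw [h1, h2, Multiset.filterMap_some]
  have h3 : ∀ m : Multiset R₁, Multiset.filterMap (fun _ => (none : Option R₂)) m = 0 := by
    intro m
    induction m using Multiset.induction_on with
    | empty => rfl
    | cons a s ih => rw [Multiset.filterMap_cons_none _ _ rfl, ih]
  rw [h3, zero_add]

/-- Products of families with the extraction property. -/
theorem EP_prod {R₁ R₂ Y₁ Y₂ K : Type*} [CommRing K] [Fintype Y₁] [Fintype Y₂] [DecidableEq R₁]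
    [DecidableEq R₂] {X₁ : R₁ → Y₁ → K} {ψ₁ : Finset R₁ → Y₁ → K}
    {X₂ : R₂ → Y₂ → K} {ψ₂ : Finset R₂ → Y₂ → K} (h₁ : EP X₁ ψ₁) (h₂ : EP X₂ ψ₂) :
    EP (fun (r : R₁ ⊕ R₂) (y : Y₁ × Y₂) => Sum.elim (fun r => X₁ r y.1) (fun r => X₂ r y.2) r)
      (fun S y => ψ₁ S.toLeft y.1 * ψ₂ S.toRight y.2) := by
  intro m S hm
  obtain ⟨m₁, m₂, rfl⟩ : ∃ (m₁ : Multiset R₁) (m₂ : Multiset R₂),
    m = m₁.map Sum.inl + m₂.map Sum.inr := ⟨_, _, m_split m⟩
  obtain ⟨S₁, S₂, rfl⟩ : ∃ S₁ S₂, S = S₁.disjSum S₂ :=
    ⟨S.toLeft, S.toRight, (Finset.toLeft_disjSum_toRight).symm⟩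
  simp only [Finset.toLeft_disjSum, Finset.toRight_disjSum]
  have hval : (S₁.disjSum S₂).val = S₁.val.map Sum.inl + S₂.val.map Sum.inr := rfl
  have hcard : m₁.card + m₂.card ≤ S₁.card + S₂.card := by
    rw [Multiset.card_add, Multiset.card_map, Multiset.card_map, Finset.card_disjSum] at hm
    exact hm
  have h3 : ∀ y : Y₁ × Y₂, ψ₁ S₁ y.1 * ψ₂ S₂ y.2 * (Multiset.map (fun r =>
      Sum.elim (fun r => X₁ r y.1) (fun r => X₂ r y.2) r)
        (m₁.map Sum.inl + m₂.map Sum.inr)).prod =
      (ψ₁ S₁ y.1 * (m₁.map fun r => X₁ r y.1).prod) *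
      (ψ₂ S₂ y.2 * (m₂.map fun r => X₂ r y.2).prod) := by
    intro y
    rw [Multiset.map_add, Multiset.prod_add, Multiset.map_map, Multiset.map_map]
    simp only [Function.comp_def, Sum.elim_inl, Sum.elim_inr]
    ring
  simp only [h3]
  rw [Fintype.sum_prod_type]
  simp only [← Finset.mul_sum]
  rw [← Finset.sum_mul]
  have hiff : (m₁.map Sum.inl + m₂.map Sum.inr = (S₁.disjSum S₂).val) ↔
      (m₁ = S₁.val ∧ m₂ = S₂.val) := by
    rw [hval]
    constructor
    · intro h
      constructor
      · have := congrArg mleft h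
        rwa [mleft_map, mleft_map] at this
      · have := congrArg mright h
        rwa [mright_map, mright_map] at this
    · rintro ⟨rfl, rfl⟩
      rfl
  simp only [hiff]
  rcases Nat.lt_or_ge S₁.card m₁.card with hlt | hge
  · have h4 : m₂.card < S₂.card := by omega
    rw [h₂ m₂ S₂ h4.le]
    have h5 : m₂ ≠ S₂.val := by
      rintro rfl
      exact absurd h4 (lt_irrefl _)
    rw [if_neg h5, mul_zero, if_neg (fun h => h5 h.2)]
  · rcases Nat.lt_or_ge S₂.card m₂.card with hlt' | hge'
    · have h4 : m₁.card < S₁.card := by omega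
      rw [h₁ m₁ S₁ h4.le]
      have h5 : m₁ ≠ S₁.val := by
        rintro rfl
        exact absurd h4 (lt_irrefl _)
      rw [if_neg h5, zero_mul, if_neg (fun h => h5 h.1)]
    · rw [h₁ m₁ S₁ hge, h₂ m₂ S₂ hge']
      by_cases ha : m₁ = S₁.val <;> by_cases hb : m₂ = S₂.val <;> simp [ha, hb]

end Pool.Agent.H916_LN2
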