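import Pool.Agent.H916_LN2.PrimPow

/-! # Commuting semisimple and unipotent operators -/

set_option autoImplicit false

namespace Pool.Agent.H916_LN2

open Finset Module

variable {V : Type*} [AddCommGroup V] [Module (ZMod 2) V] [Finite V]

/-- The filtration lemma. -/
theorem filt (N : V →ₗ[ZMod 2] V) {s : ℕ} (hs : N ^ s = 0) (V₁ : Submodule (ZMod 2) V)
    (hV₁ : ∀ v ∈ V₁, N v ∈ V₁) {t : ℕ} (ht : 0 < t)
    (hdiv : ∀ i, t ∣ finrank (ZMod 2) (V₁ ⊓ LinearMap.ker (N ^ i) : Submodule (ZMod 2) V))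
    {m : ℕ} (hm : finrank (ZMod 2) V₁ ≤ t * m) : V₁ ≤ LinearMap.ker (N ^ m) := by
  have hFD : FiniteDimensional (ZMod 2) V := inferInstance
  have hmono : ∀ i, (V₁ ⊓ LinearMap.ker (N ^ i)) ≤ (V₁ ⊓ LinearMap.ker (N ^ (i + 1))) := by
    intro i v hv
    rw [Submodule.mem_inf, LinearMap.mem_ker] at hv ⊢
    refine ⟨hv.1, ?_⟩
    rw [pow_succ', Module.End.mul_apply, hv.2, map_zero]
  have hpowmem : ∀ (j : ℕ) (v : V), v ∈ V₁ → (N ^ j) v ∈ V₁ := by
    intro j
    induction j with
    | zero => intro v hv; exact hv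
    | succ j ih =>
      intro v hv
      rw [pow_succ, Module.End.mul_apply]
      exact ih _ (hV₁ v hv)
  have claim : ∀ i, V₁ ≤ LinearMap.ker (N ^ i) ∨ t * i ≤ finrank (ZMod 2)
      (V₁ ⊓ LinearMap.ker (N ^ i) : Submodule (ZMod 2) V) := by
    intro i
    induction i with
    | zero => right; simp
    | succ i ih =>
      by_cases hc : V₁ ≤ LinearMap.ker (N ^ (i + 1))
      · exact Or.inl hc
      · right
        rcases ih with h1 | h1
        · exfalso
          apply hc
          intro v hv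
          exact (hmono i ⟨hv, h1 hv⟩).2
        · have hlt : (V₁ ⊓ LinearMap.ker (N ^ i)) < (V₁ ⊓ LinearMap.ker (N ^ (i + 1))) := by
            refine lt_of_le_of_ne (hmono i) ?_
            intro heq
            apply hc
            have key : ∀ j, ∀ v ∈ V₁, (N ^ (i + j)) v = 0 → (N ^ (i + 1)) v = 0 := by
              intro j
              induction j with
              | zero =>
                intro v hv hv0
                exact (hmono i ⟨hv, hv0⟩).2
              | succ j ihj =>
                intro v hv hv0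
                rcases Nat.eq_zero_or_pos j with rfl | hj
                · exact hv0
                · apply ihj v hv
                  have h2 : (N ^ (j)) v ∈ V₁ ⊓ LinearMap.ker (N ^ (i + 1)) := by
                    rw [Submodule.mem_inf, LinearMap.mem_ker]
                    refine ⟨hpowmem _ v hv, ?_⟩
                    rw [← Module.End.mul_apply, ← pow_add]
                    have : i + 1 + j = i + (j + 1) := by ring
                    rw [this]
                    exact hv0
                  rw [← heq, Submodule.mem_inf, LinearMap.mem_ker] at h2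
                  have h3 := h2.2
                  rw [← Module.End.mul_apply, ← pow_add] at h3
                  exact h3
            intro v hv
            refine key s v hv ?_
            rw [pow_add, Module.End.mul_apply, hs, LinearMap.zero_apply, map_zero]
          have h2 := Submodule.finrank_lt_finrank_of_lt hlt
          obtain ⟨a, ha⟩ := hdiv i
          obtain ⟨b, hb⟩ := hdiv (i + 1)
          rw [ha] at h1 h2
          rw [hb] at h2 ⊢
          have h3 : a < b := lt_of_mul_lt_mul_left h2 (Nat.zero_le _)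
          have h4 : i ≤ a := le_of_mul_le_mul_left h1 ht
          exact Nat.mul_le_mul_left _ (by omega)
  rcases claim m with h1 | h1
  · exact h1
  · have h2 : (V₁ ⊓ LinearMap.ker (N ^ m)) = V₁ := by
      refine Submodule.eq_of_le_of_finrank_le inf_le_left ?_
      exact hm.trans h1
    rw [← h2]
    exact inf_le_right

/-- Divisibility of dimensions. -/
theorem semireg_dvd {ℓ e t : ℕ} (hℓ : ℓ.Prime) (y : V →ₗ[ZMod 2] V) (hy : y ^ (ℓ ^ (e + 1)) = 1)
    (ht : ∀ k, ℓ ^ (e + 1) ∣ 2 ^ k - 1 → t ∣ k) (W : Submodule (ZMod 2) V)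
    (hW : ∀ w ∈ W, y w ∈ W) (hfix : ∀ w ∈ W, (y ^ (ℓ ^ e)) w = w → w = 0) :
    t ∣ finrank (ZMod 2) W := by
  classical
  apply ht
  have hinj : Function.Injective y := by
    intro a b hab
    have h1 : ℓ ^ (e + 1) = (ℓ ^ (e + 1) - 1) + 1 := by
      have := Nat.pow_pos (n := e + 1) hℓ.pos
      omega
    have h2 : ∀ v, (y ^ (ℓ ^ (e + 1) - 1)) (y v) = v := by
      intro v
      rw [← Module.End.mul_apply, ← pow_succ, ← h1, hy, Module.End.one_apply]
    rw [← h2 a, hab, h2 b]
  let X : Type _ := {w : V // w ∈ W ∧ w ≠ 0}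
  let f : X → X := fun x => ⟨y x.1, hW _ x.2.1, fun h => x.2.2 (hinj (by rw [h, map_zero]))⟩
  have hf : Function.Injective f := by
    intro a b hab
    exact Subtype.ext (hinj (congrArg Subtype.val hab))
  have hfit : ∀ (k : ℕ) (x : X), (f^[k] x).1 = (y ^ k) x.1 := by
    intro k
    induction k with
    | zero => intro x; rfl
    | succ k ih =>
      intro x
      rw [Function.iterate_succ, Function.comp_apply, ih, pow_succ, Module.End.mul_apply]
  have h1 := card_dvd_of_free f hf hℓ (e := e) (by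
    intro x
    apply Subtype.ext
    rw [hfit, hy, Module.End.one_apply]) (by
    intro x hx
    apply x.2.2
    apply hfix _ x.2.1
    rw [← hfit, hx])
  have h2 : Nat.card X = 2 ^ finrank (ZMod 2) W - 1 := by
    have h3 : Nat.card W = 2 ^ finrank (ZMod 2) W := by
      have := Module.natCard_eq_pow_finrank (K := ZMod 2) (V := W)
      rw [this, Nat.card_zmod]
    have h4 : Nat.card X = Nat.card {w : W // w ≠ 0} := by
      refine Nat.card_congr ?_
      exact
        { toFun := fun x => ⟨⟨x.1, x.2.1⟩, fun h => x.2.2 (congrArg Subtype.val h)⟩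
          invFun := fun w => ⟨w.1.1, w.1.2, fun h => w.2 (Subtype.ext h)⟩
          left_inv := fun _ => rfl
          right_inv := fun _ => rfl }
    have : Fintype W := Fintype.ofFinite _
    rw [h4, ← h3, Nat.card_eq_fintype_card, Nat.card_eq_fintype_card]
    have h5 := Fintype.card_subtype_compl (fun w : W => w = 0)
    rw [Fintype.card_subtype_eq] at h5
    exact h5
  rw [← h2]
  exact h1

/-- The main bound on the order of a unipotent element commuting with a semisimple one. -/
theorem unip_bound {h r ℓ e s : ℕ} (hh : 1 ≤ h) (hdim : finrank (ZMod 2) V = 2 * h + r)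
    (hℓ : ℓ.Prime) (hℓ2 : ℓ ≠ 2) (ht : ∀ k, ℓ ^ (e + 1) ∣ 2 ^ k - 1 → 2 * h ∣ k)
    (y u : V →ₗ[ZMod 2] V) (hyu : Commute y u) (hy : y ^ (ℓ ^ (e + 1)) = 1)
    (hy1 : y ^ (ℓ ^ e) ≠ 1) (hu : u ^ (2 ^ s) = 1) : u ^ (2 ^ (Nat.clog 2 r)) = 1 := by
  have hFD : FiniteDimensional (ZMod 2) V := inferInstance
  set z := y ^ (ℓ ^ e) with hz
  have hzℓ : z ^ ℓ = 1 := by rw [hz, ← pow_mul, ← pow_succ, hy]
  set A : V →ₗ[ZMod 2] V := z - 1 with hA
  set N : V →ₗ[ZMod 2] V := u - 1 with hN
  have hchar : ∀ B : V →ₗ[ZMod 2] V, B + B = 0 := by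
    intro B
    refine LinearMap.ext fun v => ?_
    have h2 : (2 : ZMod 2) = 0 := by decide
    rw [LinearMap.add_apply, ← two_smul (ZMod 2), h2, zero_smul, LinearMap.zero_apply]
  have hpow : ∀ c : ℕ, u ^ (2 ^ c) = 1 + N ^ (2 ^ c) := by
    intro c
    induction c with
    | zero => rw [pow_zero, pow_one, pow_one, hN]; abel
    | succ c ih =>
      rw [pow_succ, pow_mul, ih, sq, mul_add, add_mul, add_mul, one_mul, one_mul, mul_one]
      calc 1 + N ^ (2 ^ c) + (N ^ (2 ^ c) + N ^ (2 ^ c) * N ^ (2 ^ c)) =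
        1 + (N ^ (2 ^ c) + N ^ (2 ^ c)) + N ^ (2 ^ c) * N ^ (2 ^ c) := by abel
        _ = _ := by rw [hchar, add_zero, ← pow_two, ← pow_mul]
  have hNs : N ^ (2 ^ s) = 0 := by
    have h1 := hpow s
    rw [hu] at h1
    exact (left_eq_add.1 h1)
  have hcomm_yN : ∀ i v, y ((N ^ i) v) = (N ^ i) (y v) := by
    intro i v
    have h1 : Commute y (N ^ i) := (hyu.sub_right (Commute.one_right y)).pow_right i
    have := congrArg (fun f : V →ₗ[ZMod 2] V => f v) h1.eq
    exact this
  have hzu : Commute z u := hyu.pow_left _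
  have hAu : Commute A N := (hzu.sub_right (Commute.one_right z)).sub_left
    (Commute.one_left _)
  have hyA : Commute y A := (Commute.refl y |>.pow_right _).sub_right (Commute.one_right y)
  set V₁ := LinearMap.range A with hV₁
  set V₂ := LinearMap.ker A with hV₂
  have hzfix : ∀ v, v ∈ V₂ ↔ z v = v := by
    intro v
    rw [hV₂, LinearMap.mem_ker, hA, LinearMap.sub_apply, Module.End.one_apply, sub_eq_zero]
  have hdisj : ∀ v, v ∈ V₁ → z v = v → v = 0 := by
    rintro v ⟨w, rfl⟩ hv
    have h1 : ∀ k : ℕ, (z ^ k) w = w + k • (A w) := by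
      intro k
      induction k with
      | zero => simp
      | succ k ih =>
        rw [pow_succ', Module.End.mul_apply, ih, map_add, map_nsmul, hv, succ_nsmul]
        have h2 : z w = w + A w := by
          rw [hA, LinearMap.sub_apply, Module.End.one_apply]
          abel
        rw [h2]
        abel
    have h2 := h1 ℓ
    rw [hzℓ, Module.End.one_apply] at h2
    have h3 : ℓ • (A w) = 0 := left_eq_add.1 h2
    have hodd : Odd ℓ := hℓ.odd_of_ne_two hℓ2
    obtain ⟨q, hq⟩ := hodd
    rw [hq, add_smul, one_smul, mul_smul, two_smul] at h3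
    have h4 : ∀ x : V, x + x = 0 := by
      intro x
      have h2 : (2 : ZMod 2) = 0 := by decide
      rw [← two_smul (ZMod 2), h2, zero_smul]
    rw [h4, zero_add] at h3
    exact h3
  have hrank : finrank (ZMod 2) V₁ + finrank (ZMod 2) V₂ = 2 * h + r := by
    rw [← hdim]
    exact LinearMap.finrank_range_add_finrank_ker A
  have hsup : V₁ ⊔ V₂ = ⊤ := by
    refine Submodule.eq_top_of_finrank_eq ?_
    have h1 := Submodule.finrank_sup_add_finrank_inf_eq V₁ V₂
    have h2 : V₁ ⊓ V₂ = ⊥ := by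
      rw [eq_bot_iff]
      intro v hv
      exact hdisj v hv.1 ((hzfix v).1 hv.2)
    rw [h2, finrank_bot, add_zero, hrank] at h1
    rw [h1, hdim]
  have hV₁N : ∀ v ∈ V₁, N v ∈ V₁ := by
    rintro v ⟨w, rfl⟩
    refine ⟨N w, ?_⟩
    have := congrArg (fun f : V →ₗ[ZMod 2] V => f w) hAu.eq
    exact this
  have hV₂N : ∀ v ∈ V₂, N v ∈ V₂ := by
    intro v hv
    rw [hV₂, LinearMap.mem_ker] at hv ⊢
    have := congrArg (fun f : V →ₗ[ZMod 2] V => f v) hAu.eq
    simp only [Module.End.mul_apply] at this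
    rw [this, hv, map_zero]
  have hV₁y : ∀ v ∈ V₁, y v ∈ V₁ := by
    rintro v ⟨w, rfl⟩
    refine ⟨y w, ?_⟩
    have := congrArg (fun f : V →ₗ[ZMod 2] V => f w) hyA.eq
    exact this.symm
  have hdivW : ∀ W : Submodule (ZMod 2) V, W ≤ V₁ → (∀ w ∈ W, y w ∈ W) →
      2 * h ∣ finrank (ZMod 2) W := by
    intro W hW hyW
    exact semireg_dvd hℓ y hy ht W hyW fun w hw hw1 => hdisj w (hW hw) hw1
  have hdiv1 : ∀ i, 2 * h ∣ finrank (ZMod 2) (V₁ ⊓ LinearMap.ker (N ^ i) :
      Submodule (ZMod 2) V) := by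
    intro i
    refine hdivW _ inf_le_left ?_
    intro w hw
    rw [Submodule.mem_inf, LinearMap.mem_ker] at hw ⊢
    refine ⟨hV₁y w hw.1, ?_⟩
    rw [← hcomm_yN, hw.2, map_zero]
  obtain ⟨m, hm⟩ := hdivW V₁ le_rfl hV₁y
  have hmpos : 0 < m := by
    rcases Nat.eq_zero_or_pos m with h0 | h0
    · exfalso
      rw [h0, mul_zero] at hm
      have h1 : V₁ = ⊥ := Submodule.finrank_eq_zero.1 hm
      apply hy1
      have h2 : A = 0 := LinearMap.range_eq_bot.1 h1
      exact sub_eq_zero.1 h2
    · exact h0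
  have hr_le : r ≤ 2 ^ (Nat.clog 2 r) := Nat.le_pow_clog (by norm_num) r
  have hm_le : m ≤ 2 ^ (Nat.clog 2 r) := by
    have h1 : 2 * h * m ≤ 2 * h + r := by omega
    rcases Nat.lt_or_ge r 2 with hr | hr
    · have h2 : m ≤ 1 := by
        by_contra h3
        have h4 : 2 * h * 2 ≤ 2 * h * m := Nat.mul_le_mul_left _ (by omega)
        omega
      exact h2.trans Nat.one_le_two_pow
    · refine le_trans ?_ hr_le
      by_contra h3
      have h4 : 2 * h * (r + 1) ≤ 2 * h * m := Nat.mul_le_mul_left _ (by omega)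
      nlinarith
  have hV₂le : finrank (ZMod 2) V₂ ≤ 2 ^ (Nat.clog 2 r) := by
    refine le_trans ?_ hr_le
    have h1 : 2 * h * 1 ≤ 2 * h * m := Nat.mul_le_mul_left _ hmpos
    omega
  have hk1 : V₁ ≤ LinearMap.ker (N ^ (2 ^ (Nat.clog 2 r))) :=
    filt N hNs V₁ hV₁N (by omega) hdiv1 (by
      rw [hm]
      exact Nat.mul_le_mul_left _ hm_le)
  have hk2 : V₂ ≤ LinearMap.ker (N ^ (2 ^ (Nat.clog 2 r))) :=
    filt N hNs V₂ hV₂N (t := 1) one_pos (fun _ => one_dvd _) (by rw [one_mul]; exact hV₂le)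
  have hN0 : N ^ (2 ^ (Nat.clog 2 r)) = 0 := by
    refine LinearMap.ext fun v => ?_
    have hv : v ∈ V₁ ⊔ V₂ := by rw [hsup]; trivial
    exact (sup_le hk1 hk2) hv
  rw [hpow, hN0, add_zero]

end Pool.Agent.H916_LN2
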