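import Pool.Agent.H916_LN2.LeadInv

/-! # The Hecke operators on the fixed vectors of the unitriangular group -/

set_option autoImplicit false

namespace Pool.Agent.H916_LN2

open Finset Matrix

open Pool.Agent.R837.FD (LU bruhat Mono)

set_option linter.unusedSectionVars false

/-- A finite two-group acting linearly on a nonzero finite space over the prime field fixes a
nonzero vector. -/
theorem exists_fixed {P V : Type*} [Group P] (hP : IsPGroup 2 P) [AddCommGroup V]
    [Module (ZMod 2) V] [Finite V] [Nontrivial V] (τ : P →* (V →ₗ[ZMod 2] V)) :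
    ∃ v : V, v ≠ 0 ∧ ∀ u, τ u v = v := by
  let _ : MulAction P V :=
    { smul := fun u v => τ u v
      one_smul := fun v => by
        change τ 1 v = v
        rw [map_one]
        rfl
      mul_smul := fun a b v => by
        change τ (a * b) v = τ a (τ b v)
        rw [map_mul]
        rfl }
  have : Fact (Nat.Prime 2) := ⟨Nat.prime_two⟩
  have hdvd : 2 ∣ Nat.card V := by
    have := Fintype.ofFinite V
    rw [Nat.card_eq_fintype_card, Module.card_eq_pow_finrank (K := ZMod 2), ZMod.card]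
    refine dvd_pow_self 2 ?_
    have := Module.finrank_pos (R := ZMod 2) (M := V)
    omega
  obtain ⟨b, hb, hne⟩ := hP.exists_fixed_point_of_prime_dvd_card_of_fixed_point V hdvd (a := 0)
    (by
      rw [MulAction.mem_fixedPoints]
      intro m
      exact map_zero _)
  rw [MulAction.mem_fixedPoints] at hb
  exact ⟨b, hne.symm, hb⟩

variable {n : ℕ}

/-- The upper unitriangular elements with a zero at a superdiagonal position. -/
theorem UU_entry_mul {u u' : L2 n} (hu : u ∈ UUg n) (hu' : u' ∈ UUg n) {i : ℕ}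
    (hi : i + 1 < n) : ((u * u' : L2 n) : M2 n) ⟨i, by omega⟩ ⟨i + 1, hi⟩ =
      (u : M2 n) ⟨i, by omega⟩ ⟨i + 1, hi⟩ + (u' : M2 n) ⟨i, by omega⟩ ⟨i + 1, hi⟩ := by
  set a : Fin n := ⟨i, by omega⟩ with ha
  set b : Fin n := ⟨i + 1, hi⟩ with hb
  have hab : a ≠ b := by
    intro h
    have := congrArg Fin.val h
    simp only [ha, hb] at this
    omega
  have h1 : ∀ l j : Fin n, j < l → (u : M2 n) l j = 0 := fun l j hlj => hu.1 j l hlj
  have h1' : ∀ l, (u : M2 n) l l = 1 := fun l => hu.2 l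
  have h2 : ∀ l j : Fin n, j < l → (u' : M2 n) l j = 0 := fun l j hlj => hu'.1 j l hlj
  have h2' : ∀ l, (u' : M2 n) l l = 1 := fun l => hu'.2 l
  rw [Units.val_mul, Matrix.mul_apply]
  rw [← Finset.sum_subset (Finset.subset_univ ({a, b} : Finset (Fin n)))]
  · rw [Finset.sum_pair hab, h1', h2', one_mul, mul_one, add_comm]
  · intro l _ hl
    rw [Finset.mem_insert, Finset.mem_singleton] at hl
    push Not at hl
    have hla : l.val ≠ i := fun h => hl.1 (Fin.ext h)
    have hlb : l.val ≠ i + 1 := fun h => hl.2 (Fin.ext h)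
    rcases Nat.lt_or_ge l.val i with h3 | h3
    · rw [h1 a l h3, zero_mul]
    · rw [h2 l b (by change i + 1 < l.val; omega), mul_zero]

/-- Conjugation by the simple reflection. -/
theorem swap_conj_mem {u : L2 n} (hu : u ∈ UUg n) {i : ℕ} (hi : i + 1 < n)
    (h0 : (u : M2 n) ⟨i, by omega⟩ ⟨i + 1, hi⟩ = 0) :
    Pg (Equiv.swap ⟨i, by omega⟩ ⟨i + 1, hi⟩) * u * Pg (Equiv.swap ⟨i, by omega⟩ ⟨i + 1, hi⟩) ∈
      UUg n := by
  set a : Fin n := ⟨i, by omega⟩ with ha
  set b : Fin n := ⟨i + 1, hi⟩ with hb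
  have h3 : ∀ x y : Fin n, ((Pg (Equiv.swap a b) * u * Pg (Equiv.swap a b) : L2 n) : M2 n) x y =
      (u : M2 n) (Equiv.swap a b x) (Equiv.swap a b y) := by
    intro x y
    rw [Units.val_mul, Units.val_mul, Pg_val, mul_Pmat_apply, Pmat_mul_apply, Equiv.swap_inv]
  refine ⟨fun x y hxy => ?_, fun x => ?_⟩
  · rw [Matrix.transpose_apply, h3]
    have hxy' : x.val < y.val := hxy
    by_cases hc : x = a ∧ y = b
    · rw [hc.1, hc.2, Equiv.swap_apply_left, Equiv.swap_apply_right]
      exact h0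
    · refine hu.1 _ _ ?_
      have hc' : ¬ (x.val = i ∧ y.val = i + 1) := fun h => hc ⟨Fin.ext h.1, Fin.ext h.2⟩
      rw [Equiv.swap_apply_def, Equiv.swap_apply_def]
      split_ifs with h4 h5 h6 h7 h8 h9 h10
      · rw [h4, h5] at hxy
        exact absurd hxy (lt_irrefl _)
      · exact absurd ⟨h4, h6⟩ hc
      · rw [h4] at hxy'
        change i + 1 < y.val
        have : y.val ≠ i + 1 := fun h => h6 (Fin.ext h)
        simp only [ha] at hxy'
        omega
      · rw [h7, h8] at hxy'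
        simp only [ha, hb] at hxy'
        omega
      · rw [h7, h9] at hxy
        exact absurd hxy (lt_irrefl _)
      · rw [h7] at hxy'
        change i < y.val
        simp only [hb] at hxy'
        omega
      · rw [h10] at hxy'
        change x.val < i + 1
        simp only [ha] at hxy'
        omega
      · rename_i h11
        rw [h11] at hxy'
        change x.val < i
        simp only [hb] at hxy'
        have : x.val ≠ i := fun h => h4 (Fin.ext h)
        omega
      · exact hxy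
  · rw [Matrix.transpose_apply, h3]
    exact hu.2 _

variable {V : Type*} [AddCommGroup V] [Module (ZMod 2) V] (ρ : L2 n →* (V →ₗ[ZMod 2] V))

/-- The Hecke operator. -/
def Hk {i : ℕ} (hi : i + 1 < n) (v : V) : V :=
  ρ (Pg (Equiv.swap ⟨i, by omega⟩ ⟨i + 1, hi⟩)) v +
    ρ (tg ⟨i, by omega⟩ ⟨i + 1, hi⟩ (by simp) * Pg (Equiv.swap ⟨i, by omega⟩ ⟨i + 1, hi⟩)) v

theorem rho_mul (a b : L2 n) (v : V) : ρ (a * b) v = ρ a (ρ b v) := by
  rw [map_mul]
  rfl

theorem Hk_fixed {i : ℕ} (hi : i + 1 < n) {v : V} (hv : ∀ u ∈ UUg n, ρ u v = v) :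
    ∀ u ∈ UUg n, ρ u (Hk ρ hi v) = Hk ρ hi v := by
  set a : Fin n := ⟨i, by omega⟩ with ha
  set b : Fin n := ⟨i + 1, hi⟩ with hb
  have hab : a < b := by change i < i + 1; omega
  set s : L2 n := Pg (Equiv.swap a b) with hs
  set x : L2 n := tg a b hab.ne with hx
  have hss : s * s = 1 := by
    rw [hs, ← map_mul, Equiv.swap_mul_self, map_one]
  have hxx : x * x = 1 := tg_mul_self _ _ _
  have hxU : x ∈ UUg n := tg_mem_UUg hab
  have hx1 : (x : M2 n) a b = 1 := by
    rw [hx, tg_val, tm_apply, if_neg hab.ne, if_pos ⟨rfl, rfl⟩, zero_add]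
  have hH : Hk ρ hi v = ρ s v + ρ (x * s) v := rfl
  have hs1 : ∀ u ∈ UUg n, (u : M2 n) a b = 0 → ρ (u * s) v = ρ s v := by
    intro u hu h0
    have h1 : u * s = s * (s * u * s) := by
      rw [← mul_assoc, ← mul_assoc, hss, one_mul]
    rw [h1, rho_mul, hv _ (swap_conj_mem hu hi h0)]
  have hU0 : ∀ u ∈ UUg n, (u : M2 n) a b = 0 → ρ u (Hk ρ hi v) = Hk ρ hi v := by
    intro u hu h0
    rw [hH, map_add, ← rho_mul, ← rho_mul, hs1 u hu h0]
    congr 1
    have h1 : u * (x * s) = x * ((x * u * x) * s) := by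
      have : x * ((x * u * x) * s) = (x * x) * (u * (x * s)) := by simp only [mul_assoc]
      rw [this, hxx, one_mul]
    have hmem : x * u * x ∈ UUg n := (UUg n).mul_mem ((UUg n).mul_mem hxU hu) hxU
    have h2 : ((x * u * x : L2 n) : M2 n) a b = 0 := by
      rw [UU_entry_mul ((UUg n).mul_mem hxU hu) hxU hi, UU_entry_mul hxU hu hi]
      change (x : M2 n) a b + (u : M2 n) a b + (x : M2 n) a b = 0
      rw [hx1, h0]
      decide
    rw [h1, rho_mul, hs1 _ hmem h2, ← rho_mul]
  intro u hu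
  have h01 : ∀ t : ZMod 2, t = 0 ∨ t = 1 := by decide
  rcases h01 ((u : M2 n) a b) with h0 | h0
  · exact hU0 u hu h0
  · have h1 : u = x * (x * u) := by rw [← mul_assoc, hxx, one_mul]
    have hmem : x * u ∈ UUg n := (UUg n).mul_mem hxU hu
    have h2 : ((x * u : L2 n) : M2 n) a b = 0 := by
      rw [UU_entry_mul hxU hu hi]
      change (x : M2 n) a b + (u : M2 n) a b = 0
      rw [hx1, h0]
      decide
    rw [h1, rho_mul, hU0 _ hmem h2, hH, map_add, ← rho_mul, ← rho_mul, ← mul_assoc, hxx, one_mul,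
      add_comm]

variable (f : V →ₗ[ZMod 2] ZMod 2)

/-- The values of a fixed vector on the permutation matrices. -/
theorem Hk_val (hf : ∀ u ∈ LUg n, ∀ v, f (ρ u v) = f v) {i : ℕ} (hi : i + 1 < n) {v : V}
    (hv : ∀ u ∈ UUg n, ρ u v = v) (w : Equiv.Perm (Fin n)) :
    (w ⟨i + 1, hi⟩ < w ⟨i, by omega⟩ → f (ρ (Pg w) (Hk ρ hi v)) = 0) ∧
    (w ⟨i, by omega⟩ < w ⟨i + 1, hi⟩ → f (ρ (Pg w) (Hk ρ hi v)) = f (ρ (Pg w) v) +
      f (ρ (Pg (w * Equiv.swap ⟨i, by omega⟩ ⟨i + 1, hi⟩)) v)) := by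
  set a : Fin n := ⟨i, by omega⟩ with ha
  set b : Fin n := ⟨i + 1, hi⟩ with hb
  have hab : a < b := by change i < i + 1; omega
  set s : L2 n := Pg (Equiv.swap a b) with hs
  set x : L2 n := tg a b hab.ne with hx
  have hxU : x ∈ UUg n := tg_mem_UUg hab
  have hH : Hk ρ hi v = ρ s v + ρ (x * s) v := rfl
  have hws : Pg (w * Equiv.swap a b) = Pg w * s := by rw [hs, map_mul]
  constructor
  · intro hw
    rw [hH, map_add, map_add, ← rho_mul, ← rho_mul]
    have h1 : Pg w * (x * s) = tg (w a) (w b) (fun h => hab.ne (w.injective h)) * (Pg w * s) := by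
      rw [← mul_assoc, hx, Pg_mul_tg, mul_assoc]
    rw [h1, rho_mul ρ (tg _ _ _), hf _ (tg_mem_LUg hw)]
    have : ∀ t : ZMod 2, t + t = 0 := by decide
    exact this _
  · intro hw
    rw [hH, map_add, map_add, ← rho_mul, ← rho_mul, hws, add_comm]
    congr 1
    have h1 : Pg w * (x * s) = tg (w b) (w a) (fun h => hab.ne' (w.injective h)) *
        (Pg w * x) := by
      rw [hx, hs, tg_swap, ← mul_assoc, Pg_mul_tg, mul_assoc]
    rw [h1, rho_mul ρ (tg _ _ _), hf _ (tg_mem_LUg hw), rho_mul, hv _ hxU]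

/-- A fixed vector is determined by its values on the permutation matrices. -/
theorem fixed_eq_zero (hf : ∀ u ∈ LUg n, ∀ v, f (ρ u v) = f v) (hf0 : f ≠ 0)
    (hirr : ∀ W : Submodule (ZMod 2) V, (∀ g, ∀ w ∈ W, ρ g w ∈ W) → W = ⊥ ∨ W = ⊤) {v : V}
    (hv : ∀ u ∈ UUg n, ρ u v = v) (h0 : ∀ w : Equiv.Perm (Fin n), f (ρ (Pg w) v) = 0) :
    v = 0 := by
  let W : Submodule (ZMod 2) V :=
    { carrier := {x | ∀ g, f (ρ g x) = 0}
      add_mem' := by
        intro x y hx hy g
        rw [map_add, map_add, hx g, hy g, add_zero]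
      zero_mem' := by
        intro g
        rw [map_zero, map_zero]
      smul_mem' := by
        intro c x hx g
        rw [map_smul, map_smul, hx g, smul_zero] }
  have hvW : v ∈ W := by
    intro g
    obtain ⟨u, hu, w, u', hu', rfl⟩ := bruhat' g
    rw [rho_mul, rho_mul, hf _ hu, hv _ hu', h0]
  rcases hirr W (fun g w hw g' => by rw [← rho_mul]; exact hw _) with h1 | h1
  · rw [h1] at hvW
    exact hvW
  · exfalso
    apply hf0
    ext x
    have hx : x ∈ W := by rw [h1]; trivial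
    have := hx 1
    rw [map_one] at this
    exact this

/-- The size of a vector. -/
noncomputable def Nv (v : V) : ℕ :=
  ∑ w : Equiv.Perm (Fin n), (if f (ρ (Pg w) v) = 0 then 0 else wt w)

theorem Nv_lt (hf : ∀ u ∈ LUg n, ∀ v, f (ρ u v) = f v) (hf0 : f ≠ 0)
    (hirr : ∀ W : Submodule (ZMod 2) V, (∀ g, ∀ w ∈ W, ρ g w ∈ W) → W = ⊥ ∨ W = ⊤) {v : V}
    (hv : ∀ u ∈ UUg n, ρ u v = v) {i : ℕ} (hi : i + 1 < n) (hne : Hk ρ hi v ≠ v) :
    Nv ρ f (Hk ρ hi v) < Nv ρ f v := by
  set a : Fin n := ⟨i, by omega⟩ with ha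
  set b : Fin n := ⟨i + 1, hi⟩ with hb
  have hab : a < b := by change i < i + 1; omega
  -- a descent with a nonzero value
  have hex : ∃ w : Equiv.Perm (Fin n), w b < w a ∧ f (ρ (Pg w) v) ≠ 0 := by
    by_contra hcon
    push Not at hcon
    apply hne
    have h1 : Hk ρ hi v - v = 0 := by
      refine fixed_eq_zero ρ f hf hf0 hirr ?_ ?_
      · intro u hu
        rw [map_sub, Hk_fixed ρ hi hv u hu, hv u hu]
      · intro w
        rw [map_sub, map_sub]
        rcases lt_or_ge (w b) (w a) with h2 | h2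
        · rw [(Hk_val ρ f hf hi hv w).1 h2, hcon w h2, sub_zero]
        · have h3 : w a < w b := lt_of_le_of_ne h2 (fun h => hab.ne (w.injective h))
          rw [(Hk_val ρ f hf hi hv w).2 h3]
          have h4 : f (ρ (Pg (w * Equiv.swap a b)) v) = 0 := by
            apply hcon
            rw [Equiv.Perm.mul_apply, Equiv.Perm.mul_apply, Equiv.swap_apply_left,
              Equiv.swap_apply_right]
            exact h3
          rw [h4, add_zero, sub_self]
    exact sub_eq_zero.1 h1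
  have hsum : ∀ v' : V, 2 * Nv ρ f v' = ∑ w : Equiv.Perm (Fin n),
      ((if f (ρ (Pg w) v') = 0 then 0 else wt w) +
        (if f (ρ (Pg (w * Equiv.swap a b)) v') = 0 then 0 else wt (w * Equiv.swap a b))) := by
    intro v'
    rw [Finset.sum_add_distrib]
    have h1 := Equiv.sum_comp (Equiv.mulRight (Equiv.swap a b))
      (fun w : Equiv.Perm (Fin n) => (if f (ρ (Pg w) v') = 0 then 0 else wt w))
    simp only [Equiv.coe_mulRight] at h1
    rw [h1]
    unfold Nv
    ring
  have hasc : ∀ w : Equiv.Perm (Fin n), w a < w b →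
      ((if f (ρ (Pg w) (Hk ρ hi v)) = 0 then 0 else wt w) +
        (if f (ρ (Pg (w * Equiv.swap a b)) (Hk ρ hi v)) = 0 then 0
          else wt (w * Equiv.swap a b))) ≤
      ((if f (ρ (Pg w) v) = 0 then 0 else wt w) +
        (if f (ρ (Pg (w * Equiv.swap a b)) v) = 0 then 0 else wt (w * Equiv.swap a b))) ∧
      (f (ρ (Pg (w * Equiv.swap a b)) v) ≠ 0 →
      ((if f (ρ (Pg w) (Hk ρ hi v)) = 0 then 0 else wt w) +
        (if f (ρ (Pg (w * Equiv.swap a b)) (Hk ρ hi v)) = 0 then 0
          else wt (w * Equiv.swap a b))) <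
      ((if f (ρ (Pg w) v) = 0 then 0 else wt w) +
        (if f (ρ (Pg (w * Equiv.swap a b)) v) = 0 then 0 else wt (w * Equiv.swap a b)))) := by
    intro w hw
    have h1 := (Hk_val ρ f hf hi hv w).2 hw
    have h2 := (Hk_val ρ f hf hi hv (w * Equiv.swap a b)).1 (by
      change (w * Equiv.swap a b) b < (w * Equiv.swap a b) a
      rw [Equiv.Perm.mul_apply, Equiv.Perm.mul_apply, Equiv.swap_apply_left,
              Equiv.swap_apply_right]
      exact hw)
    have h3 := wt_swap w hi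
    have h3' : wt (w * Equiv.swap a b) + (w a).val = wt w + (w b).val := h3
    have hw' : (w a).val < (w b).val := hw
    have h1' : f (ρ (Pg w) (Hk ρ hi v)) = f (ρ (Pg w) v) +
      f (ρ (Pg (w * Equiv.swap a b)) v) := h1
    rw [h1', h2, if_pos rfl]
    have h01 : ∀ t : ZMod 2, t = 0 ∨ t = 1 := by decide
    have h11 : (1 : ZMod 2) + 1 = 0 := by decide
    rcases h01 (f (ρ (Pg w) v)) with h4 | h4 <;>
    rcases h01 (f (ρ (Pg (w * Equiv.swap a b)) v)) with h5 | h5 <;>
    simp only [h4, h5, h11, add_zero, zero_add, if_true, one_ne_zero, if_false, ne_eq,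
      not_true_eq_false, not_false_eq_true, forall_const, IsEmpty.forall_iff, and_true,
      le_refl] <;> omega
  have hall : ∀ w : Equiv.Perm (Fin n),
      ((if f (ρ (Pg w) (Hk ρ hi v)) = 0 then 0 else wt w) +
        (if f (ρ (Pg (w * Equiv.swap a b)) (Hk ρ hi v)) = 0 then 0
          else wt (w * Equiv.swap a b))) ≤
      ((if f (ρ (Pg w) v) = 0 then 0 else wt w) +
        (if f (ρ (Pg (w * Equiv.swap a b)) v) = 0 then 0 else wt (w * Equiv.swap a b))) := by
    intro w
    rcases lt_or_ge (w a) (w b) with h1 | h1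
    · exact (hasc w h1).1
    · have h2 : w b < w a := lt_of_le_of_ne h1 (fun h => hab.ne' (w.injective h))
      have h3 := (hasc (w * Equiv.swap a b) (by
        rw [Equiv.Perm.mul_apply, Equiv.Perm.mul_apply, Equiv.swap_apply_left,
              Equiv.swap_apply_right]
        exact h2)).1
      rw [Equiv.mul_swap_mul_self] at h3
      omega
  obtain ⟨w0, hw0, hw0'⟩ := hex
  have hlt : 2 * Nv ρ f (Hk ρ hi v) < 2 * Nv ρ f v := by
    rw [hsum, hsum]
    refine Finset.sum_lt_sum (fun w _ => hall w) ⟨w0 * Equiv.swap a b, Finset.mem_univ _, ?_⟩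
    refine (hasc (w0 * Equiv.swap a b) ?_).2 ?_
    · rw [Equiv.Perm.mul_apply, Equiv.Perm.mul_apply, Equiv.swap_apply_left,
              Equiv.swap_apply_right]
      exact hw0
    · rw [Equiv.mul_swap_mul_self]
      exact hw0'
  omega

/-- There is a fixed vector which is an eigenvector of all Hecke operators. -/
theorem exists_eigen (hf : ∀ u ∈ LUg n, ∀ v, f (ρ u v) = f v) (hf0 : f ≠ 0)
    (hirr : ∀ W : Submodule (ZMod 2) V, (∀ g, ∀ w ∈ W, ρ g w ∈ W) → W = ⊥ ∨ W = ⊤) (N : ℕ) :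
    ∀ v : V, v ≠ 0 → (∀ u ∈ UUg n, ρ u v = v) → Nv ρ f v = N →
    ∃ v' : V, v' ≠ 0 ∧ (∀ u ∈ UUg n, ρ u v' = v') ∧
      ∀ (i : ℕ) (hi : i + 1 < n), Hk ρ hi v' = 0 ∨ Hk ρ hi v' = v' := by
  induction N using Nat.strong_induction_on with
  | _ N ih =>
    intro v hv0 hv hN
    by_cases hall : ∀ (i : ℕ) (hi : i + 1 < n), Hk ρ hi v = 0 ∨ Hk ρ hi v = v
    · exact ⟨v, hv0, hv, hall⟩
    · push Not at hall
      obtain ⟨i, hi, h1, h2⟩ := hall
      exact ih _ (hN ▸ Nv_lt ρ f hf hf0 hirr hv hi h2) _ h1 (Hk_fixed ρ hi hv) rfl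

/-- The main statement on irreducible modules: a matrix coefficient is a product of leading
minors. -/
theorem stepA [Finite V] [Nontrivial V]
    (hirr : ∀ W : Submodule (ZMod 2) V, (∀ g, ∀ w ∈ W, ρ g w ∈ W) → W = ⊥ ∨ W = ⊤) :
    ∃ (I : Finset ℕ) (v : V) (f : V →ₗ[ZMod 2] ZMod 2), (∀ k ∈ I, k < n) ∧
      ∀ g : L2 n, f (ρ g v) = fI I (g : M2 n) := by
  classical
  -- the fixed functional
  obtain ⟨f, hf0, hf⟩ : ∃ f : Module.Dual (ZMod 2) V, f ≠ 0 ∧
      ∀ u : LUg n, (Representation.dual ρ).comp (LUg n).subtype u f = f := by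
    have : Finite (Module.Dual (ZMod 2) V) := by
      have : Finite (V → ZMod 2) := Pi.finite
      exact Finite.of_injective (fun f : Module.Dual (ZMod 2) V => (f : V → ZMod 2))
        DFunLike.coe_injective
    exact exists_fixed LUg_isPGroup _
  have hf' : ∀ u ∈ LUg n, ∀ v, f (ρ u v) = f v := by
    intro u hu v
    have h1 := hf ⟨u⁻¹, (LUg n).inv_mem hu⟩
    have h2 := congrArg (fun φ : Module.Dual (ZMod 2) V => φ v) h1
    simp only [MonoidHom.comp_apply, Subgroup.subtype_apply, Representation.dual_apply,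
      inv_inv] at h2
    exact h2
  obtain ⟨v₀, hv₀0, hv₀⟩ := exists_fixed UUg_isPGroup (ρ.comp (UUg n).subtype)
  have hv₀' : ∀ u ∈ UUg n, ρ u v₀ = v₀ := fun u hu => hv₀ ⟨u, hu⟩
  obtain ⟨v, hv0, hv, hH⟩ := exists_eigen ρ f hf' hf0 hirr _ v₀ hv₀0 hv₀' rfl
  set I : Finset ℕ := (Finset.range n).filter (fun k => ∃ (i : ℕ) (hi : i + 1 < n),
    k = i + 1 ∧ Hk ρ hi v = v) with hI
  have hImem : ∀ (i : ℕ) (hi : i + 1 < n), i + 1 ∈ I ↔ Hk ρ hi v = v := by
    intro i hi
    rw [hI, Finset.mem_filter, Finset.mem_range]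
    constructor
    · rintro ⟨_, i', hi', hii, hH'⟩
      have : i' = i := by omega
      subst this
      exact hH'
    · intro hH'
      exact ⟨hi, i, hi, rfl, hH'⟩
  have hRec : Rec I (fun w : Equiv.Perm (Fin n) => f (ρ (Pg w) v)) := by
    intro i hi
    constructor
    · intro hiI w hw
      have h1 := (Hk_val ρ f hf' hi hv w).1 hw
      rw [(hImem i hi).1 hiI] at h1
      exact h1
    · intro hiI w hw
      have h0 : Hk ρ hi v = 0 := by
        rcases hH i hi with h1 | h1
        · exact h1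
        · exact absurd ((hImem i hi).2 h1) hiI
      have h1 := (Hk_val ρ f hf' hi hv
        (w * Equiv.swap ⟨i, Nat.lt_of_succ_lt hi⟩ ⟨i + 1, hi⟩)).2 (by
          rw [Equiv.Perm.mul_apply, Equiv.Perm.mul_apply, Equiv.swap_apply_left,
              Equiv.swap_apply_right]
          exact hw)
      rw [h0, map_zero, map_zero, Equiv.mul_swap_mul_self] at h1
      have h2 : ∀ x y : ZMod 2, 0 = x + y → y = x := by decide
      exact h2 _ _ h1
  have hone : f (ρ (Pg 1) v) = 1 := by
    have h01 : ∀ t : ZMod 2, t = 0 ∨ t = 1 := by decide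
    rcases h01 (f (ρ (Pg 1) v)) with h1 | h1
    · exfalso
      apply hv0
      refine fixed_eq_zero ρ f hf' hf0 hirr hv ?_
      have h2 : Rec I (fun _ : Equiv.Perm (Fin n) => (0 : ZMod 2)) :=
        fun i hi => ⟨fun _ _ _ => rfl, fun _ _ _ => rfl⟩
      have h3 := Rec_unique hRec h2 h1
      intro w
      exact congrFun h3 w
    · exact h1
  have hW := Rec_unique hRec (Rec_fI I) (by
    change f (ρ (Pg 1) v) = fI I (Pmat 1)
    rw [hone, map_one, fI_one])
  refine ⟨I, v, f, ?_, ?_⟩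
  · intro k hk
    rw [hI, Finset.mem_filter, Finset.mem_range] at hk
    exact hk.1
  · intro g
    obtain ⟨u, hu, w, u', hu', rfl⟩ := bruhat' g
    rw [rho_mul, rho_mul, hf' _ hu, hv _ hu', Units.val_mul, Units.val_mul, mul_assoc,
      fI_LU_mul I hu, fI_mul_UT I hu']
    exact congrFun hW w

end Pool.Agent.H916_LN2
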