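import Pool.Agent.H916_LN2.Perm
import Pool.Agent.H916_LN2.Assemble

/-! # Invariance properties of the leading minors and the recursion on permutations -/

set_option autoImplicit false

namespace Pool.Agent.H916_LN2

open Finset Matrix

open Pool.Agent.R837.FD (LU bruhat Mono)

set_option linter.unusedSectionVars false

variable {n : ℕ}

theorem lead_LU_mul {u : M2 n} (hu : LU u) (A : M2 n) (k : ℕ) : lead k (u * A) = lead k A := by
  unfold lead
  have h1 : (u * A).toSquareBlockProp (fun i => i.val < k) =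
      u.toSquareBlockProp (fun i => i.val < k) * A.toSquareBlockProp (fun i => i.val < k) := by
    ext i j
    rw [Matrix.mul_apply]
    change (u * A) i.1 j.1 = ∑ l : {l : Fin n // l.val < k}, u i.1 l.1 * A l.1 j.1
    rw [Matrix.mul_apply]
    rw [← Finset.sum_subset (Finset.subset_univ (Finset.univ.filter fun l : Fin n => l.val < k))]
    · exact Finset.sum_subtype (Finset.univ.filter fun l : Fin n => l.val < k) (by simp)
        (fun l => u i.1 l * A l j.1)
    · intro l _ hl
      rw [Finset.mem_filter] at hl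
      push Not at hl
      have h2 := hl (Finset.mem_univ _)
      have h3 : i.1 < l := by
        change i.1.val < l.val
        have := i.2
        omega
      rw [hu.1 _ _ h3, zero_mul]
  rw [h1, det_mul]
  have h2 : (u.toSquareBlockProp (fun i => i.val < k)).det = 1 := by
    rw [Matrix.det_of_lowerTriangular _ (fun i j hij => ?_)]
    · exact Finset.prod_eq_one fun i _ => hu.2 i.1
    · exact hu.1 i.1 j.1 hij
  rw [h2, one_mul]

theorem lead_mul_UT {u : M2 n} (hu : UT u) (A : M2 n) (k : ℕ) : lead k (A * u) = lead k A := by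
  rw [← lead_transpose, Matrix.transpose_mul, lead_LU_mul hu, lead_transpose]

theorem fI_LU_mul (I : Finset ℕ) {u : M2 n} (hu : LU u) (A : M2 n) : fI I (u * A) = fI I A :=
  Finset.prod_congr rfl fun k _ => lead_LU_mul hu A k

theorem fI_mul_UT (I : Finset ℕ) {u : M2 n} (hu : UT u) (A : M2 n) : fI I (A * u) = fI I A :=
  Finset.prod_congr rfl fun k _ => lead_mul_UT hu A k

theorem fI_one (I : Finset ℕ) : fI I (1 : M2 n) = 1 :=
  Finset.prod_eq_one fun k _ => lead_one k

/-- Swapping two neighbouring columns on the same side of the cut. -/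
theorem lead_swap (w : Equiv.Perm (Fin n)) {i : ℕ} (hi : i + 1 < n) {k : ℕ} (hk : k ≠ i + 1) :
    lead k (Pmat (w * Equiv.swap ⟨i, by omega⟩ ⟨i + 1, hi⟩)) = lead k (Pmat w) := by
  set s : Equiv.Perm (Fin n) := Equiv.swap ⟨i, by omega⟩ ⟨i + 1, hi⟩ with hs
  have hsk : ∀ j : Fin n, j.val < k ↔ (s j).val < k := by
    intro j
    rw [hs, Equiv.swap_apply_def]
    split_ifs with h1 h2
    · rw [h1]
      simp only
      omega
    · rw [h2]
      simp only
      omega
    · rfl
  let s' : Equiv.Perm {j : Fin n // j.val < k} := s.subtypePerm (fun j => (hsk j).symm)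
  unfold lead
  have h1 : (Pmat (w * s)).toSquareBlockProp (fun i => i.val < k) =
      ((Pmat w).toSquareBlockProp (fun i => i.val < k)).submatrix id s' := by
    ext a b
    rfl
  rw [h1, det_permute']
  have h2 : ∀ a : ℤˣ, (((a : ℤˣ) : ℤ) : ZMod 2) = 1 := by
    intro a
    rcases Int.units_eq_one_or a with h | h
    · rw [h]; rfl
    · rw [h]; decide
  rw [h2, one_mul]

theorem fI_swap (I : Finset ℕ) (w : Equiv.Perm (Fin n)) {i : ℕ} (hi : i + 1 < n)
    (hI : i + 1 ∉ I) :
    fI I (Pmat (w * Equiv.swap ⟨i, by omega⟩ ⟨i + 1, hi⟩)) = fI I (Pmat w) :=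
  Finset.prod_congr rfl fun k hk => lead_swap w hi (fun h => hI (h ▸ hk))

/-- A descent at the cut makes the leading minor vanish. -/
theorem lead_desc (w : Equiv.Perm (Fin n)) {i : ℕ} (hi : i + 1 < n)
    (hw : w ⟨i + 1, hi⟩ < w ⟨i, by omega⟩) : lead (i + 1) (Pmat w) = 0 := by
  have hex : ∃ j : Fin n, j.val < i + 1 ∧ i + 1 ≤ (w j).val := by
    by_contra hcon
    push Not at hcon
    have h1 : (univ.filter fun j : Fin n => j.val < i + 2).card ≤
        (univ.filter fun j : Fin n => j.val < i + 1).card := by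
      refine Finset.card_le_card_of_injOn w ?_ (fun a _ b _ hab => w.injective hab)
      intro j hj
      have hj' : j.val < i + 2 := by simpa using hj
      have h2 : (w j).val < i + 1 := by
        rcases Nat.lt_or_ge j.val (i + 1) with h3 | h3
        · exact hcon j h3
        · have h4 : j = ⟨i + 1, hi⟩ := Fin.ext (by simp only; omega)
          rw [h4]
          have h5 := hcon ⟨i, by omega⟩ (by simp)
          have h6 : (w ⟨i + 1, hi⟩).val < (w ⟨i, by omega⟩).val := hw
          omega
      simpa using h2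
    rw [card_filter_lt n _ (by omega), card_filter_lt n _ (by omega)] at h1
    omega
  obtain ⟨j, hj, hwj⟩ := hex
  unfold lead
  refine det_eq_zero_of_column_eq_zero ⟨j, hj⟩ fun a => ?_
  change Pmat w a.1 j = 0
  rw [Pmat_apply, if_neg]
  intro h1
  have := a.2
  rw [h1] at this
  omega

theorem fI_desc (I : Finset ℕ) (w : Equiv.Perm (Fin n)) {i : ℕ} (hi : i + 1 < n)
    (hI : i + 1 ∈ I) (hw : w ⟨i + 1, hi⟩ < w ⟨i, by omega⟩) : fI I (Pmat w) = 0 :=
  Finset.prod_eq_zero hI (lead_desc w hi hw)

theorem fI_insert_self (I : Finset ℕ) (hI : n ∉ I) (A : M2 n) :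
    fI (insert n I) A = A.det * fI I A := by
  unfold fI
  rw [Finset.prod_insert hI, lead_self]

/-- The weight of a permutation. -/
def wt (w : Equiv.Perm (Fin n)) : ℕ := ∑ j, (Fin.rev j).val * (w j).val

theorem wt_swap (w : Equiv.Perm (Fin n)) {i : ℕ} (hi : i + 1 < n) :
    wt (w * Equiv.swap ⟨i, by omega⟩ ⟨i + 1, hi⟩) + (w ⟨i, by omega⟩).val =
      wt w + (w ⟨i + 1, hi⟩).val := by
  set a : Fin n := ⟨i, by omega⟩ with ha
  set b : Fin n := ⟨i + 1, hi⟩ with hb
  have hab : a ≠ b := by
    intro h
    have := congrArg Fin.val h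
    simp only [ha, hb] at this
    omega
  have h1 : wt (w * Equiv.swap a b) = ∑ j, (Fin.rev (Equiv.swap a b j)).val * (w j).val := by
    unfold wt
    rw [← Equiv.sum_comp (Equiv.swap a b)]
    refine Finset.sum_congr rfl fun j _ => ?_
    rw [Equiv.Perm.mul_apply, Equiv.swap_apply_self]
  rw [h1]
  unfold wt
  have h2 : (w a).val = ∑ j, (if j = a then (w j).val else 0) := by
    rw [Finset.sum_ite_eq']
    simp
  have h3 : (w b).val = ∑ j, (if j = b then (w j).val else 0) := by
    rw [Finset.sum_ite_eq']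
    simp
  rw [h2, h3, ← Finset.sum_add_distrib, ← Finset.sum_add_distrib]
  refine Finset.sum_congr rfl fun j _ => ?_
  by_cases hja : j = a
  · subst hja
    rw [Equiv.swap_apply_left, if_pos rfl, if_neg hab]
    rw [Fin.val_rev, Fin.val_rev, hb, ha]
    simp only
    have : n - (i + 1) = (n - (i + 1 + 1)) + 1 := by omega
    rw [this]
    ring
  · by_cases hjb : j = b
    · subst hjb
      rw [Equiv.swap_apply_right, if_neg hja, if_pos rfl]
      rw [Fin.val_rev, Fin.val_rev, hb, ha]
      simp only
      have : n - (i + 1) = (n - (i + 1 + 1)) + 1 := by omega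
      rw [this]
      ring
    · rw [Equiv.swap_apply_of_ne_of_ne hja hjb, if_neg hja, if_neg hjb]

theorem exists_descent (w : Equiv.Perm (Fin n)) (hw : w ≠ 1) :
    ∃ (i : ℕ) (hi : i + 1 < n), w ⟨i + 1, hi⟩ < w ⟨i, by omega⟩ := by
  by_contra hcon
  push Not at hcon
  apply hw
  have hmono : StrictMono w := by
    have hkey : ∀ (d : ℕ) (a : ℕ) (ha : a + (d + 1) < n),
        w ⟨a, by omega⟩ < w ⟨a + (d + 1), ha⟩ := by
      intro d
      induction d with
      | zero =>
        intro a ha
        refine lt_of_le_of_ne (hcon a ha) ?_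
        intro h1
        have := congrArg Fin.val (w.injective h1)
        simp at this
      | succ d ih =>
        intro a ha
        refine lt_trans (ih a (by omega)) ?_
        refine lt_of_le_of_ne (hcon (a + (d + 1)) ha) ?_
        intro h1
        have := congrArg Fin.val (w.injective h1)
        simp at this
    intro a b hab
    have h1 : a.val < b.val := hab
    have h2 := hkey (b.val - a.val - 1) a.val (by have := b.2; omega)
    have h3 : (⟨a.val + (b.val - a.val - 1 + 1), by have := b.2; omega⟩ : Fin n) = b :=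
      Fin.ext (by simp only; omega)
    rw [h3] at h2
    exact h2
  let o : Fin n ≃o Fin n := hmono.orderIsoOfSurjective w w.surjective
  have h1 : o = OrderIso.refl _ := Subsingleton.elim _ _
  ext x
  have h2 : o x = x := by rw [h1]; rfl
  exact congrArg Fin.val h2

/-- The recursion on permutations. -/
def Rec (I : Finset ℕ) (a : Equiv.Perm (Fin n) → ZMod 2) : Prop :=
  ∀ (i : ℕ) (hi : i + 1 < n), (i + 1 ∈ I → ∀ w : Equiv.Perm (Fin n),
      w ⟨i + 1, hi⟩ < w ⟨i, by omega⟩ → a w = 0) ∧
    (i + 1 ∉ I → ∀ w : Equiv.Perm (Fin n), w ⟨i + 1, hi⟩ < w ⟨i, by omega⟩ →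
      a w = a (w * Equiv.swap ⟨i, by omega⟩ ⟨i + 1, hi⟩))

theorem Rec_unique {I : Finset ℕ} {a b : Equiv.Perm (Fin n) → ZMod 2} (ha : Rec I a)
    (hb : Rec I b) (h1 : a 1 = b 1) : a = b := by
  have key : ∀ (N : ℕ) (w : Equiv.Perm (Fin n)), wt w = N → a w = b w := by
    intro N
    induction N using Nat.strong_induction_on with
    | _ N ih =>
      intro w hw
      by_cases hw1 : w = 1
      · rw [hw1, h1]
      · obtain ⟨i, hi, hd⟩ := exists_descent w hw1
        by_cases hI : i + 1 ∈ I
        · rw [(ha i hi).1 hI w hd, (hb i hi).1 hI w hd]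
        · rw [(ha i hi).2 hI w hd, (hb i hi).2 hI w hd]
          refine ih _ ?_ _ rfl
          have h2 := wt_swap w hi
          have h3 : (w ⟨i + 1, hi⟩).val < (w ⟨i, by omega⟩).val := hd
          omega
  funext w
  exact key _ w rfl

theorem Rec_fI (I : Finset ℕ) : Rec I (fun w : Equiv.Perm (Fin n) => fI I (Pmat w)) :=
  fun _ hi => ⟨fun hI w hw => fI_desc I w hi hI hw, fun hI w _ => (fI_swap I w hi hI).symm⟩

end Pool.Agent.H916_LN2
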