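import Pool.Agent.H916_LN2.Assemble

/-! # Instances of tori, the regular unipotent element, and the main statement on averages -/

set_option autoImplicit false

namespace Pool.Agent.H916_LN2

open Finset Matrix

open Pool.Agent.R837.FD (LU)

set_option linter.unusedSectionVars false

/-- The trivial torus. -/
noncomputable def torZero : Tor 0 (ZMod 2) PUnit.{1} PUnit.{1} where
  φ := RingHom.id _
  X := fun _ _ => 0
  ψ := fun _ _ => 1
  ep := by
    intro m S hm
    have hm0 : m = 0 := by
      refine Multiset.eq_zero_of_forall_notMem fun q _ => ?_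
      exact Fin.elim0 q.2
    have hS : S = ∅ := Finset.eq_empty_of_forall_notMem fun q _ => Fin.elim0 q.2
    subst hm0 hS
    simp
  B := fun _ => 0
  hB := by
    intro a b
    have : IsEmpty (Fin 2 × Fin 0) := ⟨fun q => Fin.elim0 q.2⟩
    simp
  σ := 1
  σ_inj := fun a b _ => Subsingleton.elim a b
  θ := fun _ _ => 1
  hσ := by
    intro t q a
    simp
  hθ := by
    intro t j
    simp
  rank := Module.finrank_zero_of_subsingleton

/-- The exponent of a coordinate. -/
def expo {h : ℕ} (q : Fin 2 × Fin h) : ℕ := q.2.val + q.1.val * h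

theorem expo_lt {h : ℕ} (q : Fin 2 × Fin h) : expo q < 2 * h := by
  obtain ⟨ε, j⟩ := q
  have := j.2
  have hε := ε.2
  unfold expo
  rcases (by omega : ε.val = 0 ∨ ε.val = 1) with h1 | h1
  · simp only [h1]; omega
  · simp only [h1]; omega

theorem expo_inj {h : ℕ} : Function.Injective (expo (h := h)) := by
  rintro ⟨ε, j⟩ ⟨ε', j'⟩ hq
  have := j.2
  have := j'.2
  have hε := ε.2
  have hε' := ε'.2
  unfold expo at hq
  simp only at hq
  rcases (by omega : ε.val = 0 ∨ ε.val = 1) with h1 | h1 <;>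
  rcases (by omega : ε'.val = 0 ∨ ε'.val = 1) with h2 | h2 <;>
  simp only [h1, h2] at hq
  · exact Prod.ext (Fin.ext (by simp only; omega)) (Fin.ext (by simp only; omega))
  · omega
  · omega
  · exact Prod.ext (Fin.ext (by simp only; omega)) (Fin.ext (by simp only; omega))

theorem sum_expo {h : ℕ} {K : Type*} [AddCommMonoid K] (g : ℕ → K) :
    ∑ i ∈ Finset.range (2 * h), g i = ∑ q : Fin 2 × Fin h, g (expo q) := by
  symm
  refine Finset.sum_bij (fun q _ => expo q) ?_ ?_ ?_ ?_
  · intro q _
    exact Finset.mem_range.2 (expo_lt q)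
  · intro a _ b _ hab
    exact expo_inj hab
  · intro i hi
    rw [Finset.mem_range] at hi
    rcases Nat.lt_or_ge i h with h1 | h1
    · refine ⟨(0, ⟨i, h1⟩), Finset.mem_univ _, ?_⟩
      simp [expo]
    · refine ⟨(1, ⟨i - h, by omega⟩), Finset.mem_univ _, ?_⟩
      simp only [expo, Fin.val_one, one_mul]
      omega
  · intro q _
    rfl

/-- The torus of order `2 ^ h + 1`. -/
noncomputable def torPos {h : ℕ} (hh : 0 < h) (K : Type) [Field K] [Fintype K] [CharP K 2]
    [Algebra (ZMod 2) K] (hK : Module.finrank (ZMod 2) K = 2 * h) (t₀ : Kˣ)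
    (ht₀ : t₀ ^ (2 ^ h + 1) = 1) :
    Tor h K K (Subgroup.zpowers t₀) where
  φ := algebraMap (ZMod 2) K
  X := fun q z => z ^ (2 ^ expo q)
  ψ := fweight (2 * h) expo
  ep := by
    have hcard : Fintype.card K = 2 ^ (2 * h) := by
      rw [Module.card_eq_pow_finrank (K := ZMod 2), ZMod.card, hK]
    exact EF hcard (by omega) expo expo_inj expo_lt
  B := fun a => (Algebra.trace (ZMod 2) K).comp (LinearMap.mulLeft (ZMod 2) a)
  hB := by
    intro a b
    rw [LinearMap.comp_apply, LinearMap.mulLeft_apply, FiniteField.algebraMap_trace_eq_sum_pow,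
      hK, Nat.card_zmod, sum_expo]
    exact Finset.sum_congr rfl fun q _ => mul_pow _ _ _
  σ :=
    { toFun := fun t => LinearMap.mulLeft (ZMod 2) ((t : Kˣ) : K)
      map_one' := by
        ext z
        simp
      map_mul' := by
        intro a b
        ext z
        simp }
  σ_inj := by
    intro a b hab
    have h1 := congrArg (fun f => f 1) hab
    simp only [MonoidHom.coe_mk, OneHom.coe_mk, LinearMap.mulLeft_apply, mul_one] at h1
    exact Subtype.ext (Units.ext h1)
  θ := fun t q => ((t : Kˣ) : K) ^ (2 ^ expo q)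
  hσ := by
    intro t q a
    change (((t : Kˣ) : K) * a) ^ (2 ^ expo q) = _
    rw [mul_pow]
  hθ := by
    intro t j
    have h1 : (t : Kˣ) ^ (2 ^ h + 1) = 1 := by
      obtain ⟨k, hk⟩ := t.2
      rw [← hk]
      change (t₀ ^ k) ^ (2 ^ h + 1) = 1
      rw [← zpow_natCast, ← _root_.zpow_mul, mul_comm, _root_.zpow_mul, zpow_natCast, ht₀, _root_.one_zpow]
    have h2 : (((t : Kˣ) : K)) ^ (2 ^ h + 1) = 1 := by
      rw [← Units.val_pow_eq_pow_val, h1, Units.val_one]
    rw [← pow_add]
    have h3 : 2 ^ expo ((0 : Fin 2), j) + 2 ^ expo ((1 : Fin 2), j) =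
        (2 ^ h + 1) * 2 ^ j.val := by
      simp only [expo, Fin.val_zero, Fin.val_one, zero_mul, one_mul, add_zero]
      rw [pow_add]
      ring
    rw [h3, pow_mul, h2, one_pow]
  rank := hK

/-- The shift matrix. -/
def shiftM (r k : ℕ) : Matrix (Fin r) (Fin r) (ZMod 2) :=
  of fun i j => if i.val = j.val + k then 1 else 0

theorem shiftM_mul (r k l : ℕ) : shiftM r k * shiftM r l = shiftM r (k + l) := by
  ext i j
  rw [Matrix.mul_apply]
  simp only [shiftM, of_apply]
  by_cases hij : i.val = j.val + (k + l)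
  · rw [if_pos hij]
    have hlt : j.val + l < r := by have := i.2; omega
    rw [Finset.sum_eq_single (⟨j.val + l, hlt⟩ : Fin r)]
    · simp only [if_true, mul_one]
      rw [if_pos (by omega)]
    · intro b _ hb
      rw [if_neg (c := b.val = j.val + l), mul_zero]
      intro h1
      exact hb (Fin.ext h1)
    · intro h1
      exact absurd (Finset.mem_univ _) h1
  · rw [if_neg hij]
    refine Finset.sum_eq_zero fun b _ => ?_
    by_cases h1 : b.val = j.val + l
    · rw [if_neg (c := i.val = b.val + k) (by omega), zero_mul]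
    · rw [if_neg (c := b.val = j.val + l) h1, mul_zero]

theorem shift_pow (r c : ℕ) : (1 + shiftM r 1) ^ (2 ^ c) = 1 + shiftM r (2 ^ c) := by
  induction c with
  | zero => rw [pow_zero, pow_one]
  | succ c ih =>
    rw [pow_succ, pow_mul, ih, sq, mul_add, add_mul, add_mul, one_mul, one_mul, mul_one,
      shiftM_mul]
    have h1 : shiftM r (2 ^ c) + shiftM r (2 ^ c) = 0 := by
      ext i j
      rw [Matrix.add_apply]
      have : ∀ a : ZMod 2, a + a = 0 := by decide
      exact this _
    have h2 : 2 ^ c + 2 ^ c = 2 ^ c * 2 := by ring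
    rw [h2]
    calc 1 + shiftM r (2 ^ c) + (shiftM r (2 ^ c) + shiftM r (2 ^ c * 2)) =
        1 + (shiftM r (2 ^ c) + shiftM r (2 ^ c)) + shiftM r (2 ^ c * 2) := by abel
      _ = _ := by rw [h1, add_zero]

theorem shift_LU (r : ℕ) : LU (1 + shiftM r 1) := by
  refine ⟨fun i j hij => ?_, fun i => ?_⟩
  · have h1 : i.val < j.val := hij
    rw [Matrix.add_apply, Matrix.one_apply_ne hij.ne, zero_add]
    simp only [shiftM, of_apply]
    rw [if_neg (by omega)]
  · rw [Matrix.add_apply, Matrix.one_apply_eq]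
    simp only [shiftM, of_apply]
    rw [if_neg (by omega), add_zero]

/-- The regular unipotent element. -/
noncomputable def regU (r : ℕ) : LUg r :=
  ⟨Matrix.GeneralLinearGroup.mkOfDetNeZero (1 + shiftM r 1) (by
    rw [(shift_LU r).det]; exact one_ne_zero), shift_LU r⟩

theorem regU_pow (r k : ℕ) : (((regU r ^ k : LUg r) : GL (Fin r) (ZMod 2)) :
    Matrix (Fin r) (Fin r) (ZMod 2)) = (1 + shiftM r 1) ^ k := by
  rw [Subgroup.coe_pow, Units.val_pow_eq_pow_val]
  rfl

theorem regU_order (r : ℕ) : orderOf (regU r) = 2 ^ (Nat.clog 2 r) := by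
  have hone : ∀ x : LUg r, ((x : GL (Fin r) (ZMod 2)) :
      Matrix (Fin r) (Fin r) (ZMod 2)) = 1 → x = 1 := by
    intro x hx
    apply Subtype.ext
    apply Units.ext
    exact hx
  have h1 : regU r ^ (2 ^ (Nat.clog 2 r)) = 1 := by
    apply hone
    rw [regU_pow, shift_pow]
    have hle : r ≤ 2 ^ (Nat.clog 2 r) := Nat.le_pow_clog (by norm_num) r
    have : shiftM r (2 ^ Nat.clog 2 r) = 0 := by
      ext i j
      simp only [shiftM, of_apply, Matrix.zero_apply]
      rw [if_neg]
      have := i.2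
      omega
    rw [this, add_zero]
  rcases Nat.eq_zero_or_pos (Nat.clog 2 r) with hc | hc
  · rw [hc, pow_zero] at h1 ⊢
    rw [pow_one] at h1
    rw [h1, orderOf_one]
  · have hr : 1 < r := by
      by_contra hcon
      have := Nat.clog_of_right_le_one (b := 2) (n := r) (by omega)
      omega
    obtain ⟨c, hc'⟩ : ∃ c, Nat.clog 2 r = c + 1 := ⟨Nat.clog 2 r - 1, by omega⟩
    rw [hc'] at h1 ⊢
    have : Fact (Nat.Prime 2) := ⟨Nat.prime_two⟩
    refine orderOf_eq_prime_pow ?_ h1
    intro h2
    have h3 := congrArg (fun x : LUg r => ((x : GL (Fin r) (ZMod 2)) :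
      Matrix (Fin r) (Fin r) (ZMod 2))) h2
    rw [regU_pow, shift_pow] at h3
    have h4 : shiftM r (2 ^ c) = 0 := by
      have h5 : (((1 : LUg r) : GL (Fin r) (ZMod 2)) : Matrix (Fin r) (Fin r) (ZMod 2)) = 1 := rfl
      rw [h5] at h3
      simpa using h3
    have h5 : 2 ^ c < r := by
      have := Nat.pow_pred_clog_lt_self (b := 2) (x := r) (by norm_num) hr
      rw [hc'] at this
      simpa using this
    have h6 := congrFun (congrFun h4 ⟨2 ^ c, h5⟩) ⟨0, by omega⟩
    simp only [shiftM, of_apply, Matrix.zero_apply, zero_add, if_true] at h6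
    exact one_ne_zero h6

/-- The statement on averages: for every set `I` of cuts there are a finite group `Γ` of matrices
containing an element `γ₀` of the right order such that the sum over `Γ` of the translates of
the product of the leading minors does not vanish. -/
theorem stepB (n : ℕ) (I : Finset ℕ) (hIn : ∀ k ∈ I, k ≤ n) :
    ∃ (h r : ℕ) (Γ : Type) (_ : Group Γ) (_ : Fintype Γ)
      (j : Γ →* Matrix (Fin n) (Fin n) (ZMod 2)) (γ₀ : Γ), 2 * h + r = n ∧
      Function.Injective j ∧ orderOf γ₀ = (if h = 0 then 1 else 2 ^ h + 1) * 2 ^ (Nat.clog 2 r) ∧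
      ∃ g g' : Matrix (Fin n) (Fin n) (ZMod 2), ∑ γ, fI I (g' * j γ * g) ≠ 0 := by
  classical
  obtain ⟨h, r, κ, hk, hκ, hI⟩ := exists_kappa n I
  have hn : 2 * h + r = n := by
    have := Fintype.card_congr κ
    simpa using this
  have : Fintype (LUg r) := Fintype.ofFinite _
  rcases Nat.eq_zero_or_pos h with rfl | hh
  · have hrank : Module.finrank (ZMod 2) (WW PUnit.{1} r) = n := by
      rw [Module.finrank_prod, torZero.rank, Module.finrank_fin_fun, hn]
    let bs : Module.Basis (Fin n) (ZMod 2) (WW PUnit.{1} r) := Module.finBasisOfFinrankEq _ _ hrank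
    refine ⟨0, r, PUnit.{1} × LUg r, inferInstance, inferInstance, fmat torZero bs,
      (PUnit.unit, regU r), hn, fmat_inj _ _, ?_, ?_⟩
    · rw [if_pos rfl, one_mul, Prod.orderOf_mk, regU_order]
      have : orderOf PUnit.unit.{1} = 1 := by
        rw [orderOf_eq_one_iff]
      rw [this, Nat.lcm_one_left]
    · exact stepB_key torZero (by simp) bs κ hκ I hIn hk hI
  · have : Fact (Nat.Prime 2) := ⟨Nat.prime_two⟩
    let K := GaloisField 2 (2 * h)
    have : Fintype K := Fintype.ofFinite K
    have hK : Module.finrank (ZMod 2) K = 2 * h := GaloisField.finrank 2 (by omega)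
    have hcard : Fintype.card K = 2 ^ (2 * h) := by
      rw [Module.card_eq_pow_finrank (K := ZMod 2), ZMod.card, hK]
    have hcardu : Nat.card Kˣ = (2 ^ h + 1) * (2 ^ h - 1) := by
      rw [Nat.card_eq_fintype_card, Fintype.card_units, hcard, two_mul, pow_add]
      obtain ⟨q, hq⟩ : ∃ q, 2 ^ h = q + 1 := ⟨2 ^ h - 1, by
        have : 1 ≤ 2 ^ h := Nat.one_le_two_pow
        omega⟩
      rw [hq]
      simp only [Nat.add_sub_cancel]
      have : (q + 1) * (q + 1) = (q + 1 + 1) * q + 1 := by ring
      rw [this, Nat.add_sub_cancel]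
    obtain ⟨w, hw⟩ := IsCyclic.exists_generator (α := Kˣ)
    have hwo : orderOf w = Nat.card Kˣ := orderOf_eq_card_of_forall_mem_zpowers hw
    have hpos : 0 < 2 ^ h - 1 := by
      have : 2 ^ 1 ≤ 2 ^ h := Nat.pow_le_pow_right (by norm_num) hh
      omega
    set t₀ : Kˣ := w ^ (2 ^ h - 1) with ht₀
    have ht₀o : orderOf t₀ = 2 ^ h + 1 := by
      rw [ht₀, orderOf_pow_of_dvd (by omega), hwo, hcardu, Nat.mul_div_cancel _ hpos]
      rw [hwo, hcardu]
      exact Dvd.intro_left _ rfl
    have ht₀1 : t₀ ^ (2 ^ h + 1) = 1 := by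
      rw [← ht₀o, pow_orderOf_eq_one]
    let T := torPos hh K hK t₀ ht₀1
    have hrank : Module.finrank (ZMod 2) (WW K r) = n := by
      rw [Module.finrank_prod, hK, Module.finrank_fin_fun, hn]
    let bs : Module.Basis (Fin n) (ZMod 2) (WW K r) := Module.finBasisOfFinrankEq _ _ hrank
    have : Fintype (Subgroup.zpowers t₀) := Fintype.ofFinite _
    have hodd : Odd (2 ^ h + 1) := by
      refine Even.add_one ?_
      exact (Nat.even_pow.2 ⟨even_two, by omega⟩)
    refine ⟨h, r, Subgroup.zpowers t₀ × LUg r, inferInstance, inferInstance, fmat T bs,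
      (⟨t₀, Subgroup.mem_zpowers t₀⟩, regU r), hn, fmat_inj _ _, ?_, ?_⟩
    · rw [if_neg (by omega), Prod.orderOf_mk, regU_order, Subgroup.orderOf_mk, ht₀o]
      refine Nat.Coprime.lcm_eq_mul ?_
      refine Nat.Coprime.pow_right _ ?_
      exact (Nat.coprime_two_right).2 hodd
    · refine stepB_key T ?_ bs κ hκ I hIn hk hI
      rw [← Nat.card_eq_fintype_card, Nat.card_zpowers, ht₀o]
      exact hodd

end Pool.Agent.H916_LN2
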