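import Pool.Agent.H916_LN2.Hecke
import Pool.Agent.H916_LN2.TorInst

/-! # Elements without a vanishing trace on irreducible modules in characteristic two -/

set_option autoImplicit false

namespace Pool.Agent.H916_LN2

open Finset Matrix

open Pool.Agent.R837.FD (LU bruhat Mono)

set_option linter.unusedSectionVars false

/-- The sum over a cyclic subgroup. -/
theorem sum_zpowers {Γ R : Type*} [Group Γ] [Finite Γ] [AddCommMonoid R] (γ₀ : Γ)
    [Fintype (Subgroup.zpowers γ₀)] (F : Γ → R) :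
    ∑ z : Subgroup.zpowers γ₀, F z = ∑ i ∈ Finset.range (orderOf γ₀), F (γ₀ ^ i) := by
  rw [Finset.sum_range]
  symm
  refine Fintype.sum_equiv (finEquivZPowers (isOfFinOrder_of_finite γ₀)) _ _ fun i => ?_
  rw [finEquivZPowers_apply]

/-- If the sum over a cyclic subgroup vanishes, so does the sum over the group. -/
theorem sum_group_zero {Γ R : Type*} [Group Γ] [Fintype Γ] [Ring R] (F : Γ →* R) (γ₀ : Γ)
    (h0 : ∑ i ∈ Finset.range (orderOf γ₀), F (γ₀ ^ i) = 0) : ∑ γ, F γ = 0 := by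
  classical
  set H := Subgroup.zpowers γ₀ with hH
  have : Fintype H := Fintype.ofFinite _
  have h1 : ∑ z : H, F z = 0 := by rw [sum_zpowers γ₀ F, h0]
  rw [← Finset.sum_fiberwise (s := Finset.univ) (g := fun γ : Γ => (γ : Γ ⧸ H))]
  refine Finset.sum_eq_zero fun q _ => ?_
  have h2 : ∑ γ ∈ Finset.univ.filter (fun γ : Γ => (γ : Γ ⧸ H) = q), F γ =
      ∑ z : H, F (q.out * z) := by
    symm
    refine Finset.sum_bij (fun z _ => q.out * (z : Γ)) ?_ ?_ ?_ ?_
    · intro z _
      rw [Finset.mem_filter]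
      refine ⟨Finset.mem_univ _, ?_⟩
      have h3 : ((q.out : Γ) : Γ ⧸ H) = q := Quotient.out_eq' q
      conv_rhs => rw [← h3]
      rw [QuotientGroup.eq]
      rw [_root_.mul_inv_rev, mul_assoc, inv_mul_cancel, mul_one]
      exact H.inv_mem z.2
    · intro a _ b _ hab
      exact Subtype.ext (mul_left_cancel hab)
    · intro γ hγ
      rw [Finset.mem_filter] at hγ
      have h3 : ((q.out : Γ) : Γ ⧸ H) = (γ : Γ ⧸ H) := by
        rw [hγ.2]
        exact Quotient.out_eq' q
      rw [QuotientGroup.eq] at h3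
      exact ⟨⟨_, h3⟩, Finset.mem_univ _, by simp⟩
    · intro z _
      rfl
  rw [h2]
  simp only [map_mul]
  rw [← Finset.mul_sum, h1, mul_zero]

variable {n : ℕ}

theorem det_eq_one (g : L2 n) : ((g : M2 n)).det = 1 := by
  have h1 := ((Matrix.isUnit_iff_isUnit_det _).1 g.isUnit).ne_zero
  have h01 : ∀ x : ZMod 2, x ≠ 0 → x = 1 := by decide
  exact h01 _ h1

theorem modTwo {V : Type*} [AddCommGroup V] [Module (ZMod 2) V] [Finite V] [Nontrivial V]
    (ρ : L2 n →* (V →ₗ[ZMod 2] V))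
    (hirr : ∀ W : Submodule (ZMod 2) V, (∀ g, ∀ w ∈ W, ρ g w ∈ W) → W = ⊥ ∨ W = ⊤) :
    ∃ (h r : ℕ) (x : L2 n), 2 * h + r = n ∧
      orderOf x = (if h = 0 then 1 else 2 ^ h + 1) * 2 ^ (Nat.clog 2 r) ∧
      ∃ v : V, ∑ i ∈ Finset.range (orderOf x), ρ (x ^ i) v ≠ 0 := by
  obtain ⟨I, v, f, hIn, hfv⟩ := stepA ρ hirr
  have hnI : n ∉ I := fun h => absurd (hIn n h) (lt_irrefl _)
  obtain ⟨h, r, Γ, _, _, j, γ₀, hn, hj, hord, g, g', hne⟩ := stepB n (insert n I) (by
    intro k hk
    rw [Finset.mem_insert] at hk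
    rcases hk with rfl | hk
    · exact le_rfl
    · exact (hIn k hk).le)
  have hdet : ∀ γ, fI (insert n I) (g' * j γ * g) =
      g'.det * g.det * fI I (g' * j γ * g) := by
    intro γ
    rw [fI_insert_self I hnI, det_mul, det_mul]
    have h1 : (j γ).det = 1 := det_eq_one (j.toHomUnits γ)
    rw [h1, mul_one]
  simp only [hdet] at hne
  rw [← Finset.mul_sum] at hne
  have hg : g.det ≠ 0 := by
    intro h1
    apply hne
    rw [h1, mul_zero, zero_mul]
  have hg' : g'.det ≠ 0 := by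
    intro h1
    apply hne
    rw [h1, zero_mul, zero_mul]
  have hne' : ∑ γ, fI I (g' * j γ * g) ≠ 0 := by
    intro h1
    apply hne
    rw [h1, mul_zero]
  set G : L2 n := Matrix.GeneralLinearGroup.mkOfDetNeZero g hg with hG
  set G' : L2 n := Matrix.GeneralLinearGroup.mkOfDetNeZero g' hg' with hG'
  set jg : Γ →* L2 n := j.toHomUnits with hjg
  have hjinj : Function.Injective jg := by
    intro a b hab
    exact hj (congrArg (fun x : L2 n => (x : M2 n)) hab)
  refine ⟨h, r, jg γ₀, hn, ?_, ?_⟩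
  · rw [orderOf_injective jg hjinj, hord]
  · by_contra hcon
    push Not at hcon
    apply hne'
    rw [orderOf_injective jg hjinj] at hcon
    have h1 : ∑ γ, (ρ.comp jg) γ = 0 := by
      refine sum_group_zero (ρ.comp jg) γ₀ ?_
      refine LinearMap.ext fun x => ?_
      rw [LinearMap.sum_apply, LinearMap.zero_apply, ← hcon x]
      refine Finset.sum_congr rfl fun i _ => ?_
      rw [MonoidHom.comp_apply, map_pow]
    have h2 : ∀ γ, fI I (g' * j γ * g) = f (ρ G' ((ρ.comp jg) γ (ρ G v))) := by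
      intro γ
      rw [MonoidHom.comp_apply, ← rho_mul, ← rho_mul, hfv]
      rfl
    simp only [h2]
    rw [← map_sum, ← map_sum, ← LinearMap.sum_apply, h1, LinearMap.zero_apply, map_zero, map_zero]

end Pool.Agent.H916_LN2
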