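import Pool.Agent.H916_LN2.Block2

/-! # Unitriangular groups, permutation matrices and transvections over the prime field -/

set_option autoImplicit false

namespace Pool.Agent.H916_LN2

open Finset Matrix

open Pool.Agent.R837.FD (LU bruhat Mono)

set_option linter.unusedSectionVars false

variable {n : ℕ}

/-- Matrices over the field with two elements. -/
abbrev M2 (n : ℕ) : Type := Matrix (Fin n) (Fin n) (ZMod 2)

/-- The general linear group over the field with two elements. -/
abbrev L2 (n : ℕ) : Type := GL (Fin n) (ZMod 2)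

/-- The upper unitriangular matrices. -/
def UT (A : M2 n) : Prop := LU Aᵀ

theorem UT.mul {A B : M2 n} (hA : UT A) (hB : UT B) : UT (A * B) := by
  unfold UT at *
  rw [Matrix.transpose_mul]
  exact LU.mul hB hA

theorem inv_eq_pow (a : L2 n) : a⁻¹ = a ^ (orderOf a - 1) := by
  have hfin : IsOfFinOrder a := isOfFinOrder_of_finite a
  rw [inv_eq_iff_mul_eq_one, ← pow_succ', Nat.sub_add_cancel hfin.orderOf_pos,
        pow_orderOf_eq_one]

/-- The upper unitriangular group. -/
def UUg (n : ℕ) : Subgroup (L2 n) where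
  carrier := {g | UT (g : M2 n)}
  mul_mem' := by
    intro a b ha hb
    change UT (((a * b : L2 n)) : M2 n)
    rw [Units.val_mul]
    exact UT.mul ha hb
  one_mem' := by
    change LU ((((1 : L2 n)) : M2 n))ᵀ
    rw [Units.val_one, Matrix.transpose_one]
    exact LU.one
  inv_mem' := by
    intro a ha
    have hpow : ∀ k : ℕ, UT (((a ^ k : L2 n)) : M2 n) := by
      intro k
      induction k with
      | zero =>
        rw [pow_zero]
        change LU ((((1 : L2 n)) : M2 n))ᵀ
        rw [Units.val_one, Matrix.transpose_one]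
        exact LU.one
      | succ k ih => rw [pow_succ, Units.val_mul]; exact UT.mul ih ha
    rw [inv_eq_pow]
    exact hpow _

theorem mem_LUg {g : L2 n} : g ∈ LUg n ↔ LU (g : M2 n) := Iff.rfl

theorem mem_UUg {g : L2 n} : g ∈ UUg n ↔ UT (g : M2 n) := Iff.rfl

/-- Strictly lower triangular matrices are nilpotent. -/
theorem strict_pow {N : M2 n} (hN : ∀ i j : Fin n, i ≤ j → N i j = 0) (k : ℕ) :
    ∀ i j : Fin n, i.val < j.val + k → (N ^ k) i j = 0 := by
  induction k with
  | zero =>
    intro i j hij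
    rw [pow_zero, Matrix.one_apply_ne]
    rintro rfl
    omega
  | succ k ih =>
    intro i j hij
    rw [pow_succ, Matrix.mul_apply]
    refine Finset.sum_eq_zero fun l _ => ?_
    by_cases h1 : i.val < l.val + k
    · rw [ih i l h1, zero_mul]
    · have h2 : l ≤ j := by
        change l.val ≤ j.val
        omega
      rw [hN l j h2, mul_zero]

theorem one_add_pow_two_pow {N : M2 n} (c : ℕ) : (1 + N) ^ (2 ^ c) = 1 + N ^ (2 ^ c) := by
  induction c with
  | zero => rw [pow_zero, pow_one, pow_one]
  | succ c ih =>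
    rw [pow_succ, pow_mul, ih, sq, mul_add, add_mul, add_mul, one_mul, one_mul, mul_one]
    have h1 : N ^ (2 ^ c) + N ^ (2 ^ c) = 0 := by
      ext i j
      rw [Matrix.add_apply]
      have : ∀ a : ZMod 2, a + a = 0 := by decide
      exact this _
    calc 1 + N ^ (2 ^ c) + (N ^ (2 ^ c) + N ^ (2 ^ c) * N ^ (2 ^ c)) =
        1 + (N ^ (2 ^ c) + N ^ (2 ^ c)) + N ^ (2 ^ c) * N ^ (2 ^ c) := by abel
      _ = _ := by rw [h1, add_zero, ← pow_two, ← pow_mul]

theorem LU_pow {A : M2 n} (hA : LU A) : A ^ (2 ^ n) = 1 := by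
  have h1 : A = 1 + (A - 1) := by abel
  rw [h1, one_add_pow_two_pow]
  have h2 : (A - 1) ^ (2 ^ n) = 0 := by
    ext i j
    refine strict_pow (N := A - 1) ?_ _ i j ?_
    · intro i j hij
      rw [Matrix.sub_apply]
      rcases lt_or_eq_of_le hij with h | h
      · rw [hA.1 i j h, Matrix.one_apply_ne h.ne, sub_zero]
      · subst h
        rw [hA.2, Matrix.one_apply_eq, sub_self]
    · have := i.2
      have := Nat.lt_two_pow_self (n := n)
      omega
  rw [h2, add_zero]

theorem UT_pow {A : M2 n} (hA : UT A) : A ^ (2 ^ n) = 1 := by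
  have h1 := LU_pow hA
  rw [← Matrix.transpose_pow] at h1
  have h2 := congrArg Matrix.transpose h1
  rwa [Matrix.transpose_transpose, Matrix.transpose_one] at h2

theorem LUg_isPGroup : IsPGroup 2 (LUg n) := by
  intro g
  refine ⟨n, ?_⟩
  apply Subtype.ext
  apply Units.ext
  rw [Subgroup.coe_pow, Units.val_pow_eq_pow_val]
  exact LU_pow g.2

theorem UUg_isPGroup : IsPGroup 2 (UUg n) := by
  intro g
  refine ⟨n, ?_⟩
  apply Subtype.ext
  apply Units.ext
  rw [Subgroup.coe_pow, Units.val_pow_eq_pow_val]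
  exact UT_pow g.2

/-- The permutation matrices. -/
def Pmat : Equiv.Perm (Fin n) →* M2 n where
  toFun w := of fun i j => if i = w j then 1 else 0
  map_one' := by
    ext i j
    simp only [of_apply, Matrix.one_apply, Equiv.Perm.coe_one, id]
    rfl
  map_mul' := by
    intro w w'
    ext i j
    rw [Matrix.mul_apply]
    simp only [of_apply, Equiv.Perm.coe_mul, Function.comp_apply]
    rw [Finset.sum_eq_single (w' j)]
    · simp
    · intro b _ hb
      rw [if_neg (c := b = w' j) hb, mul_zero]
    · intro h1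
      exact absurd (Finset.mem_univ _) h1

theorem Pmat_apply (w : Equiv.Perm (Fin n)) (i j : Fin n) :
    Pmat w i j = if i = w j then 1 else 0 := rfl

/-- The permutation matrices as elements of the group. -/
def Pg : Equiv.Perm (Fin n) →* L2 n := Pmat.toHomUnits

theorem Pg_val (w : Equiv.Perm (Fin n)) : ((Pg w : L2 n) : M2 n) = Pmat w := rfl

theorem Pmat_mul_apply (w : Equiv.Perm (Fin n)) (A : M2 n) (i j : Fin n) :
    (Pmat w * A) i j = A (w⁻¹ i) j := by
  rw [Matrix.mul_apply, Finset.sum_eq_single (w⁻¹ i)]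
  · rw [Pmat_apply, if_pos (by simp), one_mul]
  · intro b _ hb
    rw [Pmat_apply, if_neg, zero_mul]
    rintro rfl
    exact hb (by simp)
  · intro h1
    exact absurd (Finset.mem_univ _) h1

theorem mul_Pmat_apply (w : Equiv.Perm (Fin n)) (A : M2 n) (i j : Fin n) :
    (A * Pmat w) i j = A i (w j) := by
  rw [Matrix.mul_apply, Finset.sum_eq_single (w j)]
  · rw [Pmat_apply, if_pos rfl, mul_one]
  · intro b _ hb
    rw [Pmat_apply, if_neg hb, mul_zero]
  · intro h1
    exact absurd (Finset.mem_univ _) h1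

/-- Elementary transvections. -/
def tm (i j : Fin n) : M2 n := of fun a b => (if a = b then 1 else 0) + if a = i ∧ b = j then 1 else 0

theorem tm_apply (i j a b : Fin n) :
    tm i j a b = (if a = b then 1 else 0) + if a = i ∧ b = j then 1 else 0 := rfl

theorem tm_mul_apply (i j : Fin n) (A : M2 n) (a b : Fin n) :
    (tm i j * A) a b = A a b + if a = i then A j b else 0 := by
  rw [Matrix.mul_apply]
  simp only [tm_apply, add_mul, Finset.sum_add_distrib]
  congr 1
  · rw [Finset.sum_eq_single a]
    · rw [if_pos rfl, one_mul]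
    · intro c _ hc
      rw [if_neg (Ne.symm hc), zero_mul]
    · intro h1
      exact absurd (Finset.mem_univ _) h1
  · rw [Finset.sum_eq_single j]
    · by_cases h : a = i
      · rw [if_pos ⟨h, rfl⟩, if_pos h, one_mul]
      · rw [if_neg (fun h' => h h'.1), if_neg h, zero_mul]
    · intro c _ hc
      rw [if_neg (fun h' => hc h'.2), zero_mul]
    · intro h1
      exact absurd (Finset.mem_univ _) h1

theorem tm_mul_self {i j : Fin n} (hij : i ≠ j) : tm i j * tm i j = 1 := by
  ext a b
  rw [tm_mul_apply, tm_apply, tm_apply, Matrix.one_apply]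
  have h2 : ∀ x : ZMod 2, x + x = 0 := by decide
  by_cases h : a = i
  · subst h
    have h3 : ¬ (j = a ∧ b = j) := fun h' => hij h'.1.symm
    rw [if_pos rfl, if_neg h3, add_zero, add_assoc]
    have h4 : ((if a = a ∧ b = j then (1 : ZMod 2) else 0) + if j = b then 1 else 0) = 0 := by
      by_cases hb : b = j
      · rw [if_pos ⟨rfl, hb⟩, if_pos hb.symm, h2]
      · rw [if_neg (fun h' => hb h'.2), if_neg (fun h' => hb h'.symm), add_zero]
    rw [h4, add_zero]
  · rw [if_neg h, add_zero]
    have h3 : ¬ (a = i ∧ b = j) := fun h' => h h'.1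
    rw [if_neg h3, add_zero]

/-- Elementary transvections as elements of the group. -/
def tg (i j : Fin n) (hij : i ≠ j) : L2 n := ⟨tm i j, tm i j, tm_mul_self hij, tm_mul_self hij⟩

theorem tg_val (i j : Fin n) (hij : i ≠ j) : ((tg i j hij : L2 n) : M2 n) = tm i j := rfl

theorem tg_mul_self (i j : Fin n) (hij : i ≠ j) : tg i j hij * tg i j hij = 1 := by
  apply Units.ext
  rw [Units.val_mul, Units.val_one]
  exact tm_mul_self hij

theorem tg_mem_UUg {i j : Fin n} (hij : i < j) : tg i j hij.ne ∈ UUg n := by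
  rw [mem_UUg]
  refine ⟨fun a b hab => ?_, fun a => ?_⟩
  · rw [Matrix.transpose_apply, tg_val, tm_apply, if_neg hab.ne', if_neg, add_zero]
    rintro ⟨rfl, rfl⟩
    exact absurd hab (not_lt.2 hij.le)
  · rw [Matrix.transpose_apply, tg_val, tm_apply, if_pos rfl, if_neg, add_zero]
    rintro ⟨rfl, rfl⟩
    exact absurd hij (lt_irrefl _)

theorem tg_mem_LUg {i j : Fin n} (hij : j < i) : tg i j hij.ne' ∈ LUg n := by
  rw [mem_LUg]
  refine ⟨fun a b hab => ?_, fun a => ?_⟩
  · rw [tg_val, tm_apply, if_neg hab.ne, if_neg, add_zero]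
    rintro ⟨rfl, rfl⟩
    exact absurd hab (not_lt.2 hij.le)
  · rw [tg_val, tm_apply, if_pos rfl, if_neg, add_zero]
    rintro ⟨rfl, rfl⟩
    exact absurd hij (lt_irrefl _)

theorem Pg_mul_tg (w : Equiv.Perm (Fin n)) {i j : Fin n} (hij : i ≠ j) :
    Pg w * tg i j hij = tg (w i) (w j) (fun h => hij (w.injective h)) * Pg w := by
  apply Units.ext
  rw [Units.val_mul, Units.val_mul, Pg_val, tg_val, tg_val]
  ext a b
  rw [Pmat_mul_apply, tm_mul_apply, tm_apply, Pmat_apply, Pmat_apply]
  congr 1
  · by_cases h : a = w b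
    · rw [if_pos h, if_pos (by rw [h]; simp)]
    · rw [if_neg h, if_neg]
      intro h'
      exact h (by rw [← h']; simp)
  · by_cases h : a = w i
    · rw [if_pos h]
      have h' : w⁻¹ a = i := by rw [h]; simp
      by_cases hb : b = j
      · rw [if_pos ⟨h', hb⟩, if_pos (by rw [hb])]
      · rw [if_neg (fun h2 => hb h2.2), if_neg (fun h2 => hb (w.injective h2).symm)]
    · rw [if_neg h, if_neg]
      rintro ⟨h', _⟩
      exact h (by rw [← h']; simp)

/-- The rank one identity. -/
theorem tg_swap {i j : Fin n} (hij : i ≠ j) :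
    tg i j hij * Pg (Equiv.swap i j) = tg j i hij.symm * tg i j hij := by
  apply Units.ext
  rw [Units.val_mul, Units.val_mul, Pg_val, tg_val, tg_val]
  ext a b
  rw [tm_mul_apply, tm_mul_apply, Pmat_apply, Pmat_apply, tm_apply, tm_apply]
  have h11 : (1 : ZMod 2) + 1 = 0 := by decide
  by_cases ha : a = i
  · subst ha
    have e1 : (a = Equiv.swap a j b) ↔ b = j := by
      rw [eq_comm, Equiv.swap_apply_eq_iff, Equiv.swap_apply_left]
    have e2 : (j = Equiv.swap a j b) ↔ b = a := by
      rw [eq_comm, Equiv.swap_apply_eq_iff, Equiv.swap_apply_right]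
    simp only [e1, e2, if_true, true_and, hij, if_false, add_zero]
    by_cases hb : b = a
    · subst hb
      simp [hij]
    · by_cases hb' : b = j
      · subst hb'
        simp [hij, hij.symm]
      · simp [hb, hb', Ne.symm hb]
  · by_cases ha' : a = j
    · subst ha'
      have e1 : (a = Equiv.swap i a b) ↔ b = i := by
        rw [eq_comm, Equiv.swap_apply_eq_iff, Equiv.swap_apply_right]
      simp only [e1, ha, if_false, add_zero, false_and, if_true, true_and]
      by_cases hb : b = a
      · subst hb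
        simp [ha, Ne.symm ha, h11]
      · by_cases hb' : b = i
        · subst hb'
          simp [ha, hb]
        · simp [hb, hb', Ne.symm hb, Ne.symm hb']
    · simp only [ha, ha', if_false, add_zero, false_and]
      have e1 : (a = Equiv.swap i j b) ↔ a = b := by
        rw [eq_comm, Equiv.swap_apply_eq_iff, Equiv.swap_apply_of_ne_of_ne ha ha']
        exact eq_comm
      simp only [e1]

/-- The Bruhat decomposition with one lower and one upper unitriangular factor. -/
theorem bruhat' (g : L2 n) : ∃ u ∈ LUg n, ∃ w : Equiv.Perm (Fin n), ∃ u' ∈ UUg n,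
    g = u * Pg w * u' := by
  obtain ⟨u, u', π, a, hu, hu', hM⟩ := bruhat (((g * Pg Fin.revPerm : L2 n)) : M2 n) (by
    have := Matrix.GeneralLinearGroup.det (g * Pg Fin.revPerm : L2 n)
    exact (((Matrix.isUnit_iff_isUnit_det _).1 (g * Pg Fin.revPerm : L2 n).isUnit)).ne_zero)
  set ug : L2 n := Matrix.GeneralLinearGroup.mkOfDetNeZero u (by rw [hu.det]; exact one_ne_zero)
    with hug
  set ug' : L2 n := Matrix.GeneralLinearGroup.mkOfDetNeZero u' (by rw [hu'.det]; exact one_ne_zero)
    with hug'
  have h01 : ∀ x : ZMod 2, x ≠ 0 → x = 1 := by decide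
  have h1 : ug * (g * Pg Fin.revPerm) * ug' = Pg π⁻¹ := by
    apply Units.ext
    rw [Units.val_mul, Units.val_mul]
    change u * ((g * Pg Fin.revPerm : L2 n) : M2 n) * u' = _
    ext i j
    rw [hM.eq, Pg_val, Pmat_apply]
    by_cases h : j = π i
    · rw [if_pos h, if_pos (by rw [h]; simp), h01 _ (hM.ne i)]
    · rw [if_neg h, if_neg]
      intro h'
      exact h (by rw [h']; simp)
  have hugm : ug ∈ LUg n := hu
  have hugm' : ug' ∈ LUg n := hu'
  refine ⟨ug⁻¹, (LUg n).inv_mem hugm, π⁻¹ * Fin.revPerm, Pg Fin.revPerm * ug'⁻¹ * Pg Fin.revPerm,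
    ?_, ?_⟩
  · have h2 : LU ((ug'⁻¹ : L2 n) : M2 n) := (LUg n).inv_mem hugm'
    have h3 : ∀ i j : Fin n, ((Pg Fin.revPerm * ug'⁻¹ * Pg Fin.revPerm : L2 n) : M2 n) i j =
        ((ug'⁻¹ : L2 n) : M2 n) i.rev j.rev := by
      intro i j
      rw [Units.val_mul, Units.val_mul, Pg_val, mul_Pmat_apply, Pmat_mul_apply]
      rfl
    refine ⟨fun i j hij => ?_, fun i => ?_⟩
    · rw [Matrix.transpose_apply, h3]
      exact h2.1 _ _ (Fin.rev_lt_rev.2 hij)
    · rw [Matrix.transpose_apply, h3]
      exact h2.2 _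
  · have h4 : Pg (Fin.revPerm : Equiv.Perm (Fin n)) * Pg Fin.revPerm = 1 := by
      rw [← map_mul]
      have : (Fin.revPerm : Equiv.Perm (Fin n)) * Fin.revPerm = 1 := by
        ext i
        simp
      rw [this, map_one]
    rw [map_mul, ← h1]
    simp only [mul_assoc]
    rw [inv_mul_cancel_left]
    have h5 : g * (Pg Fin.revPerm * (ug' * (Pg Fin.revPerm * (Pg Fin.revPerm * (ug'⁻¹ *
        Pg Fin.revPerm))))) = g := by
      rw [← mul_assoc (Pg Fin.revPerm) (Pg Fin.revPerm) (ug'⁻¹ * Pg Fin.revPerm), h4, one_mul,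
        mul_inv_cancel_left, h4, mul_one]
    exact h5.symm

end Pool.Agent.H916_LN2
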