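import Mathlib

/-! # Prime powers with a prescribed order of two -/

set_option autoImplicit false

namespace Pool.Agent.H916_LN2

open Finset Polynomial

theorem exists_D {h : ℕ} (hh : 1 ≤ h) : ∃ (ℓ e : ℕ), ℓ.Prime ∧ ℓ ≠ 2 ∧ ℓ ^ (e + 1) ∣ 2 ^ h + 1 ∧
    ∀ k, ℓ ^ (e + 1) ∣ 2 ^ k - 1 → 2 * h ∣ k := by
  have h1 : 1 < ((cyclotomic (2 * h) ℤ).eval ((2 : ℕ) : ℤ)).natAbs := by
    have := sub_one_lt_natAbs_cyclotomic_eval (n := 2 * h) (q := 2) (by omega) (by norm_num)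
    exact this
  obtain ⟨ℓ, hℓ, hℓd⟩ := Nat.exists_prime_and_dvd h1.ne'
  have hℓd' : (ℓ : ℤ) ∣ (cyclotomic (2 * h) ℤ).eval (2 : ℤ) := by
    rw [← Int.natCast_dvd] at hℓd
    exact_mod_cast hℓd
  set N₀ : ℕ := 2 ^ (2 * h) - 1 with hN₀
  have hcast : ∀ k : ℕ, ((2 ^ k - 1 : ℕ) : ℤ) = 2 ^ k - 1 := by
    intro k
    rw [Nat.cast_sub Nat.one_le_two_pow]
    push_cast
    ring
  have hdiv : ∀ d ∈ (2 * h).properDivisors, ℓ * (2 ^ d - 1) ∣ N₀ := by
    intro d hd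
    have h2 := X_pow_sub_one_mul_cyclotomic_dvd_X_pow_sub_one_of_dvd ℤ hd
    have h3 := eval_dvd (x := (2 : ℤ)) h2
    simp only [eval_mul, eval_sub, eval_pow, eval_X, eval_one] at h3
    have h4 : ((ℓ * (2 ^ d - 1) : ℕ) : ℤ) ∣ ((N₀ : ℕ) : ℤ) := by
      rw [Nat.cast_mul, hN₀, hcast, hcast, mul_comm]
      exact (mul_dvd_mul_left _ hℓd').trans h3
    exact Int.natCast_dvd_natCast.1 h4
  have hN₀pos : N₀ ≠ 0 := by
    have : 2 ^ 1 ≤ 2 ^ (2 * h) := Nat.pow_le_pow_right (by norm_num) (by omega)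
    omega
  have hℓN : ℓ ∣ N₀ := by
    have h2 := hdiv 1 (by
      rw [Nat.mem_properDivisors]
      exact ⟨one_dvd _, by omega⟩)
    simpa using h2
  set v := N₀.factorization ℓ with hv
  have hvpos : 0 < v := hℓ.factorization_pos_of_dvd hN₀pos hℓN
  obtain ⟨e, he⟩ : ∃ e, v = e + 1 := ⟨v - 1, by omega⟩
  have hDdvd : ℓ ^ (e + 1) ∣ N₀ := by
    rw [← he]
    exact Nat.ordProj_dvd _ _
  have hnot : ¬ ℓ ^ (e + 2) ∣ N₀ := by
    have := Nat.pow_succ_factorization_not_dvd hN₀pos hℓ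
    rw [← hv, he] at this
    exact this
  have hord : ∀ k, ℓ ^ (e + 1) ∣ 2 ^ k - 1 → 2 * h ∣ k := by
    intro k hk
    have h2 : ℓ ^ (e + 1) ∣ 2 ^ (Nat.gcd k (2 * h)) - 1 := by
      rw [← Nat.pow_sub_one_gcd_pow_sub_one]
      exact Nat.dvd_gcd hk hDdvd
    by_cases h3 : Nat.gcd k (2 * h) = 2 * h
    · rw [← h3]
      exact Nat.gcd_dvd_left _ _
    · exfalso
      have h4 : Nat.gcd k (2 * h) ∈ (2 * h).properDivisors := by
        rw [Nat.mem_properDivisors]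
        have h5 := Nat.gcd_dvd_right k (2 * h)
        exact ⟨h5, lt_of_le_of_ne (Nat.le_of_dvd (by omega) h5) h3⟩
      apply hnot
      have h5 := hdiv _ h4
      refine dvd_trans ?_ h5
      rw [pow_succ, mul_comm]
      exact mul_dvd_mul_left _ h2
  have hfac : N₀ = (2 ^ h - 1) * (2 ^ h + 1) := by
    obtain ⟨q, hq⟩ : ∃ q, 2 ^ h = q + 1 := ⟨2 ^ h - 1, by
      have : 1 ≤ 2 ^ h := Nat.one_le_two_pow
      omega⟩
    rw [hN₀, two_mul, pow_add, hq]
    simp only [Nat.add_sub_cancel]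
    have : (q + 1) * (q + 1) = q * (q + 1 + 1) + 1 := by ring
    rw [this, Nat.add_sub_cancel]
  have hℓ2 : ℓ ≠ 2 := by
    rintro rfl
    have h2 : 2 ∣ 2 ^ (2 * h) := dvd_pow_self 2 (by omega)
    have h3 : 2 ^ (2 * h) = N₀ + 1 := by
      have : 1 ≤ 2 ^ (2 * h) := Nat.one_le_two_pow
      omega
    rw [h3] at h2
    have := (Nat.dvd_add_right hℓN).1 h2
    omega
  refine ⟨ℓ, e, hℓ, hℓ2, ?_, hord⟩
  by_cases hc : ℓ ∣ 2 ^ h + 1
  · have h2 : Nat.Coprime (ℓ ^ (e + 1)) (2 ^ h - 1) := by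
      refine Nat.Coprime.pow_left _ ((Nat.Prime.coprime_iff_not_dvd hℓ).2 ?_)
      intro h3
      have h4 : 2 ^ h + 1 = (2 ^ h - 1) + 2 := by
        have : 1 ≤ 2 ^ h := Nat.one_le_two_pow
        omega
      rw [h4] at hc
      have h5 := (Nat.dvd_add_right h3).1 hc
      exact hℓ2 ((Nat.prime_dvd_prime_iff_eq hℓ Nat.prime_two).1 h5)
    rw [hfac] at hDdvd
    exact h2.dvd_of_dvd_mul_left hDdvd
  · exfalso
    have h2 : Nat.Coprime (ℓ ^ (e + 1)) (2 ^ h + 1) :=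
      Nat.Coprime.pow_left _ ((Nat.Prime.coprime_iff_not_dvd hℓ).2 hc)
    rw [hfac] at hDdvd
    have h3 := h2.dvd_of_dvd_mul_right hDdvd
    have h4 := hord h h3
    have := Nat.le_of_dvd (by omega) h4
    omega

/-- A permutation of prime power order all of whose cycles have full length. -/
theorem card_dvd_of_free {X : Type*} [Finite X] (f : X → X) (hf : Function.Injective f)
    {ℓ e : ℕ} (hℓ : ℓ.Prime) (h1 : ∀ x, f^[ℓ ^ (e + 1)] x = x) (h2 : ∀ x, f^[ℓ ^ e] x ≠ x) :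
    ℓ ^ (e + 1) ∣ Nat.card X := by
  have hFact : Fact ℓ.Prime := ⟨hℓ⟩
  rcases isEmpty_or_nonempty X with hX | ⟨⟨x₀⟩⟩
  · rw [Nat.card_of_isEmpty]
    exact dvd_zero _
  · let σ : Equiv.Perm X := Equiv.ofBijective f (Finite.injective_iff_bijective.1 hf)
    have hσ : ∀ (k : ℕ) (x : X), (σ ^ k) x = f^[k] x := by
      intro k x
      rw [Equiv.Perm.iterate_eq_pow σ k |>.symm]
      rfl
    have hmin : ∀ x, Function.minimalPeriod f x = ℓ ^ (e + 1) := fun x =>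
      Function.minimalPeriod_eq_prime_pow (h2 x) (h1 x)
    have hstab : ∀ x : X, MulAction.stabilizer (Subgroup.zpowers σ) x = ⊥ := by
      intro x
      rw [eq_bot_iff]
      rintro ⟨g, hg⟩ hgx
      rw [MulAction.mem_stabilizer_iff] at hgx
      obtain ⟨k, rfl⟩ := (mem_powers_iff_mem_zpowers (x := σ)).2 hg
      have h3 : f^[k] x = x := by
        rw [← hσ]
        exact hgx
      have h4 : ℓ ^ (e + 1) ∣ k := by
        rw [← hmin x]
        exact Function.IsPeriodicPt.minimalPeriod_dvd h3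
      obtain ⟨c, rfl⟩ := h4
      rw [Subgroup.mem_bot]
      apply Subtype.ext
      change σ ^ (ℓ ^ (e + 1) * c) = 1
      have h5 : σ ^ (ℓ ^ (e + 1)) = 1 := by
        ext y
        rw [hσ, h1]
        rfl
      rw [pow_mul, h5, one_pow]
    have h3 := Nat.card_congr (MulAction.selfEquivOrbitsQuotientProd (G := Subgroup.zpowers σ)
      (X := X) hstab)
    rw [Nat.card_prod, Nat.card_zpowers] at h3
    have h4 : orderOf σ = ℓ ^ (e + 1) := by
      refine orderOf_eq_prime_pow ?_ ?_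
      · intro h5
        apply h2 x₀
        rw [← hσ, h5]
        rfl
      · ext y
        rw [hσ, h1]
        rfl
    rw [h3, h4]
    exact Dvd.intro_left _ rfl

end Pool.Agent.H916_LN2
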