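import Pool.Agent.H916_LN2.Odd
import Pool.Agent.Y331.DCN.AutN

/-! # A symmetric matrix with an isometry of order `2 ^ h + 1` -/

set_option autoImplicit false

namespace Pool.Agent.H916_LN2

open Finset Matrix

open Pool.Agent.Y60.DC (Mn SLn)

variable {n : ℕ}

theorem z01 : ∀ c : ZMod 2, c = 0 ∨ c = 1 := by decide

theorem det_eq_one' (A : M2 n) (hA : A.det ≠ 0) : A.det = 1 := by
  have h01 : ∀ x : ZMod 2, x ≠ 0 → x = 1 := by decide
  exact h01 _ hA

/-- The special and the general linear groups over the field with two elements agree. -/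
noncomputable def slgl (n : ℕ) : SLn n (ZMod 2) ≃* L2 n :=
  MulEquiv.ofBijective Matrix.SpecialLinearGroup.toGL ⟨Matrix.SpecialLinearGroup.toGL_injective, by
    intro g
    refine ⟨⟨(g : M2 n), det_eq_one g⟩, ?_⟩
    apply Units.ext
    rfl⟩

theorem slgl_coe (A : SLn n (ZMod 2)) : ((slgl n A : L2 n) : M2 n) = (A : M2 n) := rfl

theorem slgl_symm_coe (g : L2 n) : (((slgl n).symm g : SLn n (ZMod 2)) : M2 n) = (g : M2 n) := by
  rw [← slgl_coe, MulEquiv.apply_symm_apply]

section field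

set_option linter.unusedSectionVars false

variable {h : ℕ} {K : Type} [Field K] [Fintype K] [CharP K 2] [Algebra (ZMod 2) K]

theorem trace_sym (hK : Module.finrank (ZMod 2) K = 2 * h) (a b : K) :
    algebraMap (ZMod 2) K (Algebra.trace (ZMod 2) K (a * b ^ (2 ^ h))) =
      ∑ j : Fin h, (a ^ (2 ^ j.val) * b ^ (2 ^ (j.val + h)) +
        a ^ (2 ^ (j.val + h)) * b ^ (2 ^ j.val)) := by
  have hcard : Fintype.card K = 2 ^ (2 * h) := by
    rw [Module.card_eq_pow_finrank (K := ZMod 2), ZMod.card, hK]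
  rw [FiniteField.algebraMap_trace_eq_sum_pow, hK, Nat.card_zmod, sum_expo,
    Fintype.sum_prod_type_right]
  refine Finset.sum_congr rfl fun j _ => ?_
  rw [Fin.sum_univ_two]
  simp only [expo, Fin.val_zero, Fin.val_one, zero_mul, one_mul, add_zero]
  rw [mul_pow, mul_pow, ← pow_mul, ← pow_mul, ← pow_add, ← pow_add]
  congr 1
  · rw [add_comm h]
  · congr 1
    have h1 : h + (j.val + h) = 2 * h + j.val := by ring
    rw [h1, pow_add, pow_mul, ← hcard, FiniteField.pow_card]

/-- The form. -/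
noncomputable def Bform (h : ℕ) (a b : K) : ZMod 2 :=
  Algebra.trace (ZMod 2) K (a * b ^ (2 ^ h))

theorem Bform_symm (hK : Module.finrank (ZMod 2) K = 2 * h) (a b : K) :
    Bform h a b = Bform h b a := by
  apply (algebraMap (ZMod 2) K).injective
  unfold Bform
  rw [trace_sym hK, trace_sym hK]
  refine Finset.sum_congr rfl fun j _ => ?_
  rw [mul_comm (a ^ _), mul_comm (a ^ _), add_comm]

theorem Bform_add (a b c : K) : Bform h a (b + c) = Bform h a b + Bform h a c := by
  unfold Bform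
  rw [add_pow_char_pow, mul_add, map_add]

theorem Bform_nondeg (hK : Module.finrank (ZMod 2) K = 2 * h) (b : K)
    (hb : ∀ a, Bform h a b = 0) : b = 0 := by
  have h1 : ∀ a : K, Algebra.trace (ZMod 2) K (b ^ (2 ^ h) * a) = 0 := by
    intro a
    rw [mul_comm]
    exact hb a
  have hsep : Algebra.IsSeparable (ZMod 2) K := inferInstance
  have h2 := (traceForm_nondegenerate (ZMod 2) K).1 (b ^ (2 ^ h))
  simp_rw [Algebra.traceForm_apply] at h2
  have h3 := h2 h1
  exact pow_eq_zero_iff (by positivity) |>.1 h3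

theorem Bform_inv (t a b : K) (ht : t ^ (2 ^ h + 1) = 1) :
    Bform h (t * a) (t * b) = Bform h a b := by
  unfold Bform
  have h1 : t * a * (t * b) ^ (2 ^ h) = t ^ (2 ^ h + 1) * (a * b ^ (2 ^ h)) := by
    rw [mul_pow, pow_succ]
    ring
  rw [h1, ht, one_mul]

end field

/-- The symmetric matrix and its isometry. -/
theorem exists_sym (hn : 2 ≤ n) : ∃ (J S : SLn n (ZMod 2)), (J : M2 n)ᵀ = (J : M2 n) ∧
    (S : M2 n) * (J : M2 n) * (S : M2 n)ᵀ = (J : M2 n) ∧ orderOf S = 2 ^ (n / 2) + 1 := by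
  classical
  have hF2 : Fact (Nat.Prime 2) := ⟨Nat.prime_two⟩
  set h := n / 2 with hh
  set r := n - 2 * h with hr
  have hhpos : 0 < h := by omega
  have hhr : 2 * h + r = n := by omega
  let K := GaloisField 2 (2 * h)
  have : Fintype K := Fintype.ofFinite K
  have hK : Module.finrank (ZMod 2) K = 2 * h := GaloisField.finrank 2 (by omega)
  have hrank : Module.finrank (ZMod 2) (WW K r) = n := by
    rw [Module.finrank_prod, hK, Module.finrank_fin_fun, hhr]
  let bs : Module.Basis (Fin n) (ZMod 2) (WW K r) := Module.finBasisOfFinrankEq _ _ hrank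
  -- the torus element
  obtain ⟨w, hw⟩ := exists_gen (2 * h) (by omega)
  have hsplit : 2 ^ (2 * h) - 1 = (2 ^ h + 1) * (2 ^ h - 1) := by
    rw [two_mul, pow_add]
    obtain ⟨q, hq⟩ : ∃ q, 2 ^ h = q + 1 := ⟨2 ^ h - 1, by
      have : 1 ≤ 2 ^ h := Nat.one_le_two_pow
      omega⟩
    rw [hq]
    simp only [Nat.add_sub_cancel]
    have : (q + 1) * (q + 1) = (q + 1 + 1) * q + 1 := by ring
    rw [this, Nat.add_sub_cancel]
  have hpos : 0 < 2 ^ h - 1 := by
    have : 2 ^ 1 ≤ 2 ^ h := Nat.pow_le_pow_right (by norm_num) hhpos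
    omega
  set t : Kˣ := w ^ (2 ^ h - 1) with ht
  have hto : orderOf t = 2 ^ h + 1 := by
    rw [ht, orderOf_pow_of_dvd (by omega), hw, hsplit, Nat.mul_div_cancel _ hpos]
    rw [hw, hsplit]
    exact Dvd.intro_left _ rfl
  have ht1 : (t : K) ^ (2 ^ h + 1) = 1 := by
    rw [← Units.val_pow_eq_pow_val, ← hto, pow_orderOf_eq_one, Units.val_one]
  -- the action
  let F : Kˣ →* (WW K r →ₗ[ZMod 2] WW K r) :=
    { toFun := fun u => (mulF K u).prodMap LinearMap.id
      map_one' := by
        rw [map_one]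
        rfl
      map_mul' := by
        intro a b
        rw [map_mul]
        rfl }
  have hFinj : Function.Injective F := by
    intro a b hab
    apply mulF_injective K
    refine LinearMap.ext fun z => ?_
    exact congrArg (fun f : WW K r →ₗ[ZMod 2] WW K r => (f (z, 0)).1) hab
  set S₀ : L2 n := toL bs F t with hS₀
  have hS₀o : orderOf S₀ = 2 ^ h + 1 := by
    rw [hS₀, orderOf_injective _ (toL_injective bs hFinj), hto]
  -- the form
  let B : WW K r → WW K r → ZMod 2 := fun u v => Bform h u.1 v.1 + u.2 ⬝ᵥ v.2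
  have hBsymm : ∀ u v, B u v = B v u := by
    intro u v
    change Bform h u.1 v.1 + u.2 ⬝ᵥ v.2 = Bform h v.1 u.1 + v.2 ⬝ᵥ u.2
    rw [Bform_symm hK, dotProduct_comm]
  have hBadd : ∀ u v v', B u (v + v') = B u v + B u v' := by
    intro u v v'
    change Bform h u.1 (v.1 + v'.1) + u.2 ⬝ᵥ (v.2 + v'.2) =
      (Bform h u.1 v.1 + u.2 ⬝ᵥ v.2) + (Bform h u.1 v'.1 + u.2 ⬝ᵥ v'.2)
    rw [Bform_add, dotProduct_add]
    ring
  have hBzero : ∀ u, B u 0 = 0 := by
    intro u
    have h1 := hBadd u 0 0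
    rw [add_zero] at h1
    exact left_eq_add.1 h1
  have hBsmul : ∀ u (c : ZMod 2) v, B u (c • v) = c * B u v := by
    intro u c v
    rcases z01 c with rfl | rfl
    · rw [zero_smul, zero_mul, hBzero]
    · rw [one_smul, one_mul]
  have hBsum : ∀ u (c : Fin n → ZMod 2), B u (∑ j, c j • bs j) = ∑ j, c j * B u (bs j) := by
    intro u c
    have h1 : ∀ s : Finset (Fin n), B u (∑ j ∈ s, c j • bs j) = ∑ j ∈ s, c j * B u (bs j) := by
      intro s
      induction s using Finset.induction_on with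
      | empty => rw [Finset.sum_empty, Finset.sum_empty, hBzero]
      | insert a s ha ih => rw [Finset.sum_insert ha, Finset.sum_insert ha, hBadd, hBsmul, ih]
    exact h1 _
  have hBinv : ∀ u v, B (F t u) (F t v) = B u v := by
    intro u v
    change Bform h ((t : K) * u.1) ((t : K) * v.1) + u.2 ⬝ᵥ v.2 = _
    rw [Bform_inv _ _ _ ht1]
  set J₀ : M2 n := of fun i j => B (bs i) (bs j) with hJ₀
  have hJ₀det : J₀.det ≠ 0 := by
    intro h0
    obtain ⟨c, hc, hc0⟩ := Matrix.exists_mulVec_eq_zero_iff.2 h0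
    set x : WW K r := ∑ j, c j • bs j with hx
    have h1 : ∀ i, B (bs i) x = 0 := by
      intro i
      rw [hx, hBsum]
      have h6 : ∑ k, J₀ i k * c k = 0 := congrFun hc0 i
      refine Eq.trans ?_ h6
      exact Finset.sum_congr rfl fun j _ => mul_comm _ _
    have h2 : ∀ u, B u x = 0 := by
      intro u
      rw [hBsymm, ← bs.sum_repr u, hBsum]
      refine Finset.sum_eq_zero fun j _ => ?_
      rw [hBsymm, h1, mul_zero]
    have hx1 : x.1 = 0 := by
      refine Bform_nondeg hK _ fun a => ?_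
      have := h2 (a, 0)
      change Bform h a x.1 + (0 : Fin r → ZMod 2) ⬝ᵥ x.2 = 0 at this
      rwa [zero_dotProduct, add_zero] at this
    have hx2 : x.2 = 0 := by
      funext l
      have := h2 (0, Pi.single l 1)
      change Bform h 0 x.1 + (Pi.single l (1 : ZMod 2)) ⬝ᵥ x.2 = 0 at this
      rw [single_dotProduct, one_mul] at this
      have h4 : Bform h (0 : K) x.1 = 0 := by
        unfold Bform
        rw [zero_mul, map_zero]
      rw [h4, zero_add] at this
      exact this
    have hx0 : x = 0 := Prod.ext hx1 hx2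
    apply hc
    have h5 := bs.linearIndependent
    rw [Fintype.linearIndependent_iff] at h5
    funext j
    exact h5 c (by rw [← hx, hx0]) j
  have hS₀e : ∀ i j, (S₀ : M2 n) i j = bs.repr (F t (bs j)) i := by
    intro i j
    rw [hS₀]
    change (LinearMap.toMatrixAlgEquiv bs) (F t) i j = _
    rw [LinearMap.toMatrixAlgEquiv_apply]
  have hrel : (S₀ : M2 n)ᵀ * J₀ * (S₀ : M2 n) = J₀ := by
    ext i j
    have h1 : ∀ j, F t (bs j) = ∑ k, (S₀ : M2 n) k j • bs k := by
      intro j
      conv_lhs => rw [← bs.sum_repr (F t (bs j))]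
      exact Finset.sum_congr rfl fun k _ => by rw [hS₀e]
    have h2 : J₀ i j = B (F t (bs i)) (F t (bs j)) := by rw [hBinv]; rfl
    rw [h2, h1 j, hBsum, Matrix.mul_apply]
    refine Finset.sum_congr rfl fun k _ => ?_
    rw [mul_comm, hBsymm, h1 i, hBsum, Matrix.mul_apply]
    congr 1
    refine Finset.sum_congr rfl fun l _ => ?_
    rw [Matrix.transpose_apply, hBsymm]
    rfl
  refine ⟨⟨J₀, det_eq_one' _ hJ₀det⟩, ((slgl n).symm S₀).transpose, ?_, ?_, ?_⟩
  · ext i j
    change B (bs j) (bs i) = B (bs i) (bs j)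
    exact hBsymm _ _
  · change (((slgl n).symm S₀ : SLn n (ZMod 2)) : M2 n)ᵀ * J₀ *
      ((((slgl n).symm S₀ : SLn n (ZMod 2)) : M2 n)ᵀ)ᵀ = J₀
    rw [Matrix.transpose_transpose, slgl_symm_coe]
    exact hrel
  · rw [← Pool.Agent.Y331.DCN.inv_tr, orderOf_inv]
    have h1 : (((slgl n).symm S₀)⁻¹).transpose = Pool.Agent.Y331.DCN.tinv ((slgl n).symm S₀) := rfl
    rw [h1, MulEquiv.orderOf_eq, MulEquiv.orderOf_eq, hS₀o]

end Pool.Agent.H916_LN2
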