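import Pool.Agent.H916_LN2.Convert
import Pool.Agent.R837.FD.Bru

/-! # The triangular sum -/

set_option autoImplicit false

namespace Pool.Agent.H916_LN2

open Finset Matrix

open Pool.Agent.R837.FD (LU)

set_option linter.unusedSectionVars false

/-- Leading minors of the identity matrix. -/
theorem lead_one {n : ℕ} {K : Type*} [CommRing K] (k : ℕ) :
    lead k (1 : Matrix (Fin n) (Fin n) K) = 1 := by
  unfold lead
  have : (1 : Matrix (Fin n) (Fin n) K).toSquareBlockProp (fun i => i.val < k) = 1 := by
    ext i j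
    change (1 : Matrix (Fin n) (Fin n) K) i.1 j.1 = _
    simp only [Matrix.one_apply, Subtype.ext_iff]
  rw [this, det_one]

/-- The unitriangular group. -/
def LUg (r : ℕ) : Subgroup (GL (Fin r) (ZMod 2)) where
  carrier := {g | LU (g : Matrix (Fin r) (Fin r) (ZMod 2))}
  mul_mem' := by
    intro a b ha hb
    change LU (((a * b : GL (Fin r) (ZMod 2))) : Matrix (Fin r) (Fin r) (ZMod 2))
    rw [Units.val_mul]
    exact LU.mul ha hb
  one_mem' := LU.one
  inv_mem' := by
    intro a ha
    have hpow : ∀ k : ℕ, LU (((a ^ k : GL (Fin r) (ZMod 2))) : Matrix (Fin r) (Fin r) (ZMod 2)) := by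
      intro k
      induction k with
      | zero => rw [pow_zero]; exact LU.one
      | succ k ih => rw [pow_succ, Units.val_mul]; exact LU.mul ih ha
    have hfin : IsOfFinOrder a := isOfFinOrder_of_finite a
    have h1 : a⁻¹ = a ^ (orderOf a - 1) := by
      rw [inv_eq_iff_mul_eq_one, ← pow_succ', Nat.sub_add_cancel hfin.orderOf_pos,
        pow_orderOf_eq_one]
    rw [h1]
    exact hpow _

/-- The columns of the reversed unitriangular matrices. -/
def Shape {r : ℕ} (A : Matrix (Fin r) (Fin r) (ZMod 2)) : Prop :=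
  ∀ b l : Fin r, ¬ (l.val < r - 1 - b.val) → A l b = if l.val = r - 1 - b.val then 1 else 0

theorem shape_iff {r : ℕ} (x : Matrix (Fin r) (Fin r) (ZMod 2)) :
    Shape (x.submatrix Fin.rev id) ↔ LU x := by
  constructor
  · intro h
    refine ⟨fun i j hij => ?_, fun i => ?_⟩
    · have h1 : i.val < j.val := hij
      have hj := j.2
      have h2 := h j i.rev (by rw [Fin.val_rev]; omega)
      rw [if_neg (by rw [Fin.val_rev]; omega)] at h2
      simpa using h2
    · have hi := i.2
      have h2 := h i i.rev (by rw [Fin.val_rev]; omega)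
      rw [if_pos (by rw [Fin.val_rev]; omega)] at h2
      simpa using h2
  · intro h b l hl
    have hlr := l.2
    have hbr := b.2
    by_cases h1 : l.val = r - 1 - b.val
    · rw [if_pos h1]
      have : l.rev = b := Fin.ext (by rw [Fin.val_rev]; omega)
      simp only [Matrix.submatrix_apply, id, this]
      exact h.2 b
    · rw [if_neg h1]
      simp only [Matrix.submatrix_apply, id]
      refine h.1 _ _ ?_
      change (l.rev).val < b.val
      rw [Fin.val_rev]
      omega

theorem prod_ite_all {α K : Type*} [CommSemiring K] (s : Finset α) (P : α → Prop)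
    [DecidablePred P] [Decidable (∀ a ∈ s, P a)] :
    ∏ a ∈ s, (if P a then (1 : K) else 0) = if ∀ a ∈ s, P a then 1 else 0 := by
  split_ifs with h
  · exact Finset.prod_eq_one fun a ha => if_pos (h a ha)
  · push Not at h
    obtain ⟨a, ha, hPa⟩ := h
    exact Finset.prod_eq_zero ha (if_neg hPa)

/-- The sum over the unitriangular group of the products of the corner minors is odd. -/
theorem tri_sum (r : ℕ) [Fintype (LUg r)] :
    ∑ x : LUg r, ∏ a ∈ Finset.Ico 1 r,
      lead a (((x : GL (Fin r) (ZMod 2)) : Matrix (Fin r) (Fin r) (ZMod 2)).submatrix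
        Fin.rev id) = 1 := by
  classical
  set ht : {a // a ∈ Finset.Ico 1 r} → ℕ := fun a => a.1 with hht
  have hinj : Function.Injective ht := Subtype.val_injective
  have hlt : ∀ i, ht i < r := fun i => (Finset.mem_Ico.1 i.2).2
  have hle : ∀ i, ht i ≤ r := fun i => (hlt i).le
  set p : Fin r → Fin r → ZMod 2 := fun b l => if l.val = r - 1 - b.val then 1 else 0 with hp
  have hEP : ∀ b : Fin r, EP (fun (l : Fin r) (y : Fin r → ZMod 2) => (RingHom.id (ZMod 2)) (y l))
      (fun (S : Finset (Fin r)) (y : Fin r → ZMod 2) =>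
        (if ∀ l, l ∉ S → y l = p b l then (1 : ZMod 2) else 0)) := by
    intro b m S hm
    have := EV (RingHom.id (ZMod 2)) (p b) m S hm
    convert this using 4
  have hmain := extract_EP (K := ZMod 2) ht hinj hle
    (fun (_ : Fin r) (l : Fin r) (y : Fin r → ZMod 2) => (RingHom.id (ZMod 2)) (y l))
    (fun (b : Fin r) (S : Finset (Fin r)) (y : Fin r → ZMod 2) =>
        (if ∀ l, l ∉ S → y l = p b l then (1 : ZMod 2) else 0)) hEP 1
  have hS : ∀ b l : Fin r, l ∈ Sb ht b ↔ l.val < r - 1 - b.val := by
    intro b l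
    rw [Sb, Finset.mem_filter]
    constructor
    · rintro ⟨_, i, hi, hli⟩
      have := hlt i
      omega
    · intro hl
      refine ⟨Finset.mem_univ _, ⟨l.val + 1 + b.val, ?_⟩, ?_, ?_⟩
      · rw [Finset.mem_Ico]
        omega
      · change b.val < l.val + 1 + b.val
        omega
      · change l.val = l.val + 1 + b.val - 1 - b.val
        omega
  have hright : ∏ i, lead (ht i) (1 : Matrix (Fin r) (Fin r) (ZMod 2)) = 1 :=
    Finset.prod_eq_one fun i _ => lead_one _
  rw [hright] at hmain
  rw [← hmain]
  have hterm : ∀ y : Fin r → Fin r → ZMod 2,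
      (∏ b, (if ∀ l, l ∉ Sb ht b → y b l = p b l then (1 : ZMod 2) else 0)) *
        ∏ i, lead (ht i) ((1 : Matrix (Fin r) (Fin r) (ZMod 2)) *
          of fun r b => (RingHom.id (ZMod 2)) (y b r)) =
      if Shape (of fun l b => y b l) then
        ∏ a ∈ Finset.Ico 1 r, lead a (of fun l b => y b l) else 0 := by
    intro y
    rw [prod_ite_all]
    have h1 : (∀ a ∈ (Finset.univ : Finset (Fin r)), ∀ l, l ∉ Sb ht a → y a l = p a l) ↔
        Shape (of fun l b => y b l) := by
      constructor
      · intro h b l hl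
        exact h b (Finset.mem_univ _) l (fun h2 => hl ((hS b l).1 h2))
      · intro h b _ l hl
        exact h b l (fun h2 => hl ((hS b l).2 h2))
    have h2 : ∏ i, lead (ht i) ((1 : Matrix (Fin r) (Fin r) (ZMod 2)) *
          of fun r b => (RingHom.id (ZMod 2)) (y b r)) =
          ∏ a ∈ Finset.Ico 1 r, lead a (of fun l b => y b l) := by
      rw [one_mul]
      exact Finset.prod_coe_sort (Finset.Ico 1 r) (fun a => lead a (of fun l b => y b l))
    rw [h2]
    by_cases h3 : Shape (of fun l b => y b l)
    · rw [if_pos h3, if_pos (h1.2 h3), one_mul]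
    · rw [if_neg h3, if_neg (fun h4 => h3 (h1.1 h4)), zero_mul]
  simp only [hterm]
  rw [← Finset.sum_filter]
  symm
  refine Finset.sum_bij' (i := fun (y : Fin r → Fin r → ZMod 2) hy =>
      (⟨Matrix.GeneralLinearGroup.mkOfDetNeZero ((of fun l b => y b l).submatrix Fin.rev id) ?_,
        ?_⟩ : LUg r))
    (j := fun x _ => fun b l =>
      ((x : GL (Fin r) (ZMod 2)) : Matrix (Fin r) (Fin r) (ZMod 2)) l.rev b) ?_ ?_ ?_ ?_ ?_
  · rw [Finset.mem_filter] at hy
    have hlu : LU ((of fun l b => y b l).submatrix Fin.rev id) := by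
      rw [← shape_iff, Matrix.submatrix_submatrix]
      have h5 : (Fin.rev ∘ Fin.rev : Fin r → Fin r) = id := by
        funext l
        exact Fin.rev_rev l
      rw [h5]
      exact hy.2
    rw [hlu.det]
    exact one_ne_zero
  · rw [Finset.mem_filter] at hy
    have hlu : LU ((of fun l b => y b l).submatrix Fin.rev id) := by
      rw [← shape_iff, Matrix.submatrix_submatrix]
      have h5 : (Fin.rev ∘ Fin.rev : Fin r → Fin r) = id := by
        funext l
        exact Fin.rev_rev l
      rw [h5]
      exact hy.2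
    exact hlu
  · intro y hy
    exact Finset.mem_univ _
  · intro x _
    rw [Finset.mem_filter]
    refine ⟨Finset.mem_univ _, ?_⟩
    exact (shape_iff _).2 x.2
  · intro y hy
    funext b l
    change y b (l.rev.rev) = y b l
    rw [Fin.rev_rev]
  · intro x _
    apply Subtype.ext
    apply Units.ext
    ext i j
    change ((x : GL (Fin r) (ZMod 2)) : Matrix (Fin r) (Fin r) (ZMod 2)) i.rev.rev j = _
    rw [Fin.rev_rev]
  · intro y hy
    refine Finset.prod_congr rfl fun a _ => ?_
    congr 1
    ext i j
    change y j i = y j i.rev.rev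
    rw [Fin.rev_rev]

end Pool.Agent.H916_LN2
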