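import Mathlib

/-! # A uniqueness lemma for fillings of a diagram with pairwise different column heights -/

set_option autoImplicit false

namespace Pool.Agent.H916_LN2

open Finset

set_option linter.unusedSectionVars false

variable {ι : Type*} [Fintype ι] [DecidableEq ι] {n : ℕ}

/-- Sums over a row of the diagram only depend on the set of the entries of the row. -/
theorem row_sum (ht : ι → ℕ) (hinj : Function.Injective ht) (b : ℕ) (F : ι → ℕ)
    (h : ∀ v, (∃ i, b < ht i ∧ F i = v) ↔ ∃ i, b < ht i ∧ v = ht i - 1 - b) (g : ℕ → ℤ) :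
    ∑ i with b < ht i, g (F i) = ∑ i with b < ht i, g (ht i - 1 - b) := by
  set s : Finset ι := univ.filter (fun i => b < ht i) with hs
  have h2 : Set.InjOn (fun i => ht i - 1 - b) (s : Set ι) := by
    intro i hi j hj hij
    simp only [hs, coe_filter, mem_univ, true_and, Set.mem_ofPred_eq] at hi hj
    apply hinj
    simp only at hij
    omega
  have himg : s.image F = s.image (fun i => ht i - 1 - b) := by
    ext v
    simp only [mem_image, hs, mem_filter, mem_univ, true_and]
    rw [h v]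
    constructor
    · rintro ⟨i, hi, rfl⟩
      exact ⟨i, hi, rfl⟩
    · rintro ⟨i, hi, rfl⟩
      exact ⟨i, hi, rfl⟩
  have hcard : (s.image F).card = s.card := by
    rw [himg, card_image_of_injOn h2]
  have h1 : Set.InjOn F (s : Set ι) := card_image_iff.1 hcard
  calc ∑ i ∈ s, g (F i) = ∑ v ∈ s.image F, g v := (sum_image h1).symm
    _ = ∑ v ∈ s.image (fun i => ht i - 1 - b), g v := by rw [himg]
    _ = ∑ i ∈ s, g (ht i - 1 - b) := sum_image h2

theorem sum_lower (T : Finset ℕ) : ∑ v ∈ range T.card, (v : ℤ) ≤ ∑ v ∈ T, (v : ℤ) := by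
  have h := Finset.sum_range_le_sum (s := T.map Nat.castEmbedding) (c := (0 : ℤ)) (by
    intro x hx
    simp only [mem_map, Nat.castEmbedding_apply] at hx
    obtain ⟨a, _, rfl⟩ := hx
    exact Int.natCast_nonneg a)
  simpa using h

theorem col_diag (h : ℕ) (hn : h ≤ n) :
    ∑ b ∈ univ.filter (fun b : Fin n => b.val < h), ((h : ℤ) - 1 - (b.val : ℕ)) = ∑ v ∈ range h, (v : ℤ) := by
  have h1 : ∑ b ∈ univ.filter (fun b : Fin n => b.val < h), ((h : ℤ) - 1 - (b.val : ℕ)) =
      ∑ v ∈ range h, ((h : ℤ) - 1 - (v : ℕ)) := by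
    refine Finset.sum_bij (fun b _ => (b : ℕ)) ?_ ?_ ?_ ?_
    · intro b hb
      simpa using hb
    · intro a _ b _ hab
      exact Fin.ext hab
    · intro v hv
      rw [mem_range] at hv
      exact ⟨⟨v, by omega⟩, by simpa using hv, rfl⟩
    · intro b _
      rfl
  rw [h1, ← Finset.sum_range_reflect]
  refine Finset.sum_congr rfl fun v hv => ?_
  rw [mem_range] at hv
  have : ((h - 1 - v : ℕ) : ℤ) = (h : ℤ) - 1 - v := by omega
  rw [this]
  ring

/-- The filling of the diagram is unique. -/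
theorem filling_unique (ht : ι → ℕ) (hinj : Function.Injective ht) (hle : ∀ i, ht i ≤ n)
    (F : ι → Fin n → ℕ)
    (h1 : ∀ (b : Fin n) (v : ℕ), (∃ i, (b : ℕ) < ht i ∧ F i b = v) ↔
      ∃ i, (b : ℕ) < ht i ∧ v = ht i - 1 - b)
    (h2 : ∀ i, Set.InjOn (F i) {b : Fin n | (b : ℕ) < ht i}) (i : ι) (b : Fin n)
    (hb : (b : ℕ) < ht i) : F i b = ht i - 1 - b := by
  -- the target value, as an integer
  set D : ι → Fin n → ℤ := fun i b => (ht i : ℤ) - 1 - (b : ℕ) with hD
  have hDval : ∀ i (b : Fin n), (b : ℕ) < ht i → ((ht i - 1 - b : ℕ) : ℤ) = D i b := by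
    intro i b hb
    simp only [hD]
    omega
  -- row sums
  have hrow : ∀ (g : ℕ → ℤ) (b : Fin n),
      ∑ i with (b : ℕ) < ht i, g (F i b) = ∑ i with (b : ℕ) < ht i, g (ht i - 1 - b) :=
    fun g b => row_sum ht hinj b (fun i => F i b) (h1 b) g
  -- exchange of summations
  have hswap : ∀ (G : ι → Fin n → ℤ),
      ∑ i, ∑ b ∈ univ.filter (fun b : Fin n => b.val < ht i), G i b = ∑ b : Fin n, ∑ i with (b : ℕ) < ht i, G i b := by
    intro G
    simp only [sum_filter]
    exact sum_comm
  -- column sums, lower bound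
  have hcolge : ∀ i, ∑ b ∈ univ.filter (fun b : Fin n => b.val < ht i), D i b ≤
      ∑ b ∈ univ.filter (fun b : Fin n => b.val < ht i), (F i b : ℤ) := by
    intro i
    have hc := col_diag (n := n) (ht i) (hle i)
    have hinjF : Set.InjOn (F i) ((univ.filter fun b : Fin n => (b : ℕ) < ht i) : Finset (Fin n)) := by
      intro a ha b hb hab
      exact h2 i (by simpa using ha) (by simpa using hb) hab
    have hcard : ((univ.filter fun b : Fin n => (b : ℕ) < ht i).image (F i)).card = ht i := by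
      rw [card_image_of_injOn hinjF]
      rw [Fin.card_filter_val_lt]
      exact min_eq_right (hle i)
    have h3 := sum_lower ((univ.filter fun b : Fin n => (b : ℕ) < ht i).image (F i))
    rw [hcard, sum_image hinjF] at h3
    simp only [hD]
    rw [hc]
    exact h3
  have htot : ∑ i, ∑ b ∈ univ.filter (fun b : Fin n => b.val < ht i), (F i b : ℤ) =
      ∑ i, ∑ b ∈ univ.filter (fun b : Fin n => b.val < ht i), D i b := by
    rw [hswap, hswap]
    refine sum_congr rfl fun b _ => ?_
    rw [hrow (fun v => (v : ℤ)) b]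
    refine sum_congr rfl fun i hi => ?_
    rw [mem_filter] at hi
    exact hDval i b hi.2
  have hcol : ∀ i, ∑ b ∈ univ.filter (fun b : Fin n => b.val < ht i), (F i b : ℤ) =
      ∑ b ∈ univ.filter (fun b : Fin n => b.val < ht i), D i b := by
    have := (sum_eq_sum_iff_of_le (fun i _ => hcolge i)).1 htot.symm
    intro i
    exact (this i (mem_univ i)).symm
  -- second moments
  have hFF : ∑ i, ∑ b ∈ univ.filter (fun b : Fin n => b.val < ht i), (F i b : ℤ) ^ 2 =
      ∑ i, ∑ b ∈ univ.filter (fun b : Fin n => b.val < ht i), D i b ^ 2 := by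
    rw [hswap, hswap]
    refine sum_congr rfl fun b _ => ?_
    rw [hrow (fun v => (v : ℤ) ^ 2) b]
    refine sum_congr rfl fun i hi => ?_
    rw [mem_filter] at hi
    rw [hDval i b hi.2]
  have hFb : ∑ i, ∑ b ∈ univ.filter (fun b : Fin n => b.val < ht i), (F i b : ℤ) * (b : ℕ) =
      ∑ i, ∑ b ∈ univ.filter (fun b : Fin n => b.val < ht i), D i b * (b : ℕ) := by
    rw [hswap, hswap]
    refine sum_congr rfl fun b _ => ?_
    rw [← sum_mul, ← sum_mul, hrow (fun v => (v : ℤ)) b]
    congr 1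
    refine sum_congr rfl fun i hi => ?_
    rw [mem_filter] at hi
    exact hDval i b hi.2
  have hFi : ∑ i, ∑ b ∈ univ.filter (fun b : Fin n => b.val < ht i), (F i b : ℤ) * ((ht i : ℤ) - 1) =
      ∑ i, ∑ b ∈ univ.filter (fun b : Fin n => b.val < ht i), D i b * ((ht i : ℤ) - 1) := by
    refine sum_congr rfl fun i _ => ?_
    rw [← sum_mul, ← sum_mul, hcol i]
  have hFD : ∑ i, ∑ b ∈ univ.filter (fun b : Fin n => b.val < ht i), (F i b : ℤ) * D i b =
      ∑ i, ∑ b ∈ univ.filter (fun b : Fin n => b.val < ht i), D i b * D i b := by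
    have e1 : ∀ (G : ι → Fin n → ℤ), ∑ i, ∑ b ∈ univ.filter (fun b : Fin n => b.val < ht i), G i b * D i b =
        ∑ i, ∑ b ∈ univ.filter (fun b : Fin n => b.val < ht i), G i b * ((ht i : ℤ) - 1) -
        ∑ i, ∑ b ∈ univ.filter (fun b : Fin n => b.val < ht i), G i b * (b : ℕ) := by
      intro G
      rw [← sum_sub_distrib]
      refine sum_congr rfl fun i _ => ?_
      rw [← sum_sub_distrib]
      refine sum_congr rfl fun b _ => ?_
      simp only [hD]
      ring
    rw [e1 (fun i b => (F i b : ℤ)), e1 D, hFi, hFb]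
  have hsq : ∑ i, ∑ b ∈ univ.filter (fun b : Fin n => b.val < ht i), ((F i b : ℤ) - D i b) ^ 2 = 0 := by
    have e2 : ∑ i, ∑ b ∈ univ.filter (fun b : Fin n => b.val < ht i), ((F i b : ℤ) - D i b) ^ 2 =
        ∑ i, ∑ b ∈ univ.filter (fun b : Fin n => b.val < ht i), (F i b : ℤ) ^ 2 -
        2 * ∑ i, ∑ b ∈ univ.filter (fun b : Fin n => b.val < ht i), (F i b : ℤ) * D i b +
        ∑ i, ∑ b ∈ univ.filter (fun b : Fin n => b.val < ht i), D i b ^ 2 := by
      rw [mul_sum, ← sum_sub_distrib, ← sum_add_distrib]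
      refine sum_congr rfl fun i _ => ?_
      rw [mul_sum, ← sum_sub_distrib, ← sum_add_distrib]
      refine sum_congr rfl fun b _ => ?_
      ring
    rw [e2, hFF, hFD]
    have e3 : ∑ i, ∑ b ∈ univ.filter (fun b : Fin n => b.val < ht i), D i b * D i b =
        ∑ i, ∑ b ∈ univ.filter (fun b : Fin n => b.val < ht i), D i b ^ 2 :=
      sum_congr rfl fun i _ => sum_congr rfl fun b _ => by ring
    rw [e3]
    ring
  have h3 := (sum_eq_zero_iff_of_nonneg
    (fun i _ => sum_nonneg fun b _ => sq_nonneg ((F i b : ℤ) - D i b))).1 hsq i (mem_univ i)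
  have h4 := (sum_eq_zero_iff_of_nonneg
    (fun b _ => sq_nonneg ((F i b : ℤ) - D i b))).1 h3 b (by simpa using hb)
  have h5 : (F i b : ℤ) = D i b := by
    have := pow_eq_zero_iff (two_ne_zero) |>.1 h4
    omega
  rw [← hDval i b hb] at h5
  exact_mod_cast h5

end Pool.Agent.H916_LN2
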